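import Pool.Agent.SOX.QR5
import Pool.Agent.SOX.QR6

/-! Project SOX (MP_66ba69_lc), module QMain: the majority of three solutions satisfies transitivity and the Ferrers condition on sets without
a complete graph on five vertices. -/

set_option autoImplicit false

namespace Pool.Agent.SOX

open Pool.Agent.RUP Pool.Agent.SOF

variable {V : Type} {Y : MSy V}

/-- four different points -/
theorem Q_nd4 {a b c d : V} (h : Y.T4 a b c d) : a ≠ b ∧ a ≠ c ∧ a ≠ d ∧ b ≠ c ∧ b ≠ d ∧ c ≠ d :=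
  ⟨h.ab, h.sq.1.ne, h.sq.2.1.ne, h.sq.2.2.1.ne, h.sq.2.2.2.ne, h.cd⟩

theorem Q_mem {P : V → Prop} {l : List V} (h : ∀ x ∈ l, P x) : ∀ x, (x ∈ l) → P x := h

theorem Q_no5 {G : SimpleGraph V} {a b c d : V} : ∀ a' b' c' d' e' : V, a' ∈ [a, b, c, d] → b' ∈ [a, b, c, d] →
    c' ∈ [a, b, c, d] → d' ∈ [a, b, c, d] → e' ∈ [a, b, c, d] → ¬ K5 G a' b' c' d' e' := by
  intro a' b' c' d' e' ha hb hc hd he hK
  obtain ⟨m1, m2, m3, m4, m5, m6, m7, m8, m9, m10⟩ := hK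
  have e : [a', b', c', d', e'].Nodup := by
    simp only [List.nodup_cons, List.mem_cons, List.not_mem_nil, or_false, not_or, not_false_eq_true, List.nodup_nil, and_true]
    exact ⟨⟨m1.ne, m2.ne, m3.ne, m4.ne⟩, ⟨m5.ne, m6.ne, m7.ne⟩, ⟨m8.ne, m9.ne⟩, m10.ne⟩
  have h3 : [a', b', c', d', e'] ⊆ [a, b, c, d] := by
    intro x hx
    rw [List.mem_cons, List.mem_cons, List.mem_cons, List.mem_cons, List.mem_cons] at hx
    rcases hx with rfl | rfl | rfl | rfl | rfl | hx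
    · exact ha
    · exact hb
    · exact hc
    · exact hd
    · exact he
    · exact absurd hx List.not_mem_nil
  have h4 := (List.subperm_of_subset e h3).length_le
  simp at h4

/-- the two pairings with `a, b` apart and `c, d` apart are not both true -/
theorem maj_nb (F : PrF Y.G Y.pt) {S : V → Prop} (q1 : QS Y.G Y.X1 Y.T1 S) (q2 : QS Y.G Y.X2 Y.T2 S) (q3 : QS Y.G Y.X3 Y.T3 S)
    {a b c d : V} (ha : S a) (hb : S b) (hc : S c) (hd : S d) (h1 : Y.T4 a b c d) (h2 : Y.T4 a c b d) : False := by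
  have hS : ∀ x ∈ [a, b, c, d], S x := by
    intro x hx
    simp only [List.mem_cons, List.not_mem_nil, or_false] at hx
    rcases hx with rfl | rfl | rfl | rfl <;> assumption
  obtain ⟨n1, n2, n3, n4, n5, n6⟩ := Q_nd4 h1
  refine mnb F (q1.mono hS) (q2.mono hS) (q3.mono hS) Q_no5 (fun _ h => h) ?_ h1 h2
  simp only [List.nodup_cons, List.mem_cons, List.not_mem_nil, or_false, not_or, not_false_eq_true, List.nodup_nil, and_true]
  exact ⟨⟨n1, n2, n3⟩, ⟨n4, n5⟩, n6⟩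

/-- TRANSITIVITY -/
theorem maj_tr (F : PrF Y.G Y.pt) {S : V → Prop} (q1 : QS Y.G Y.X1 Y.T1 S) (q2 : QS Y.G Y.X2 Y.T2 S) (q3 : QS Y.G Y.X3 Y.T3 S)
    {u w x y z : V} (hu : S u) (hw : S w) (hx : S x) (hy : S y) (hz : S z) (hk : K5F Y.G [u, w, x, y, z])
    (h1 : Y.T4 u w x y) (h2 : Y.T4 u w y z) (xz : x ≠ z) : Y.T4 u w x z := by
  by_contra h3
  have hS : ∀ o ∈ [u, w, x, y, z], S o := mem5 hu hw hx hy hz
  obtain ⟨n1, n2, n3, n4, n5, n6⟩ := Q_nd4 h1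
  obtain ⟨m1, m2, m3, m4, m5, m6⟩ := Q_nd4 h2
  refine mtr F (q1.mono hS) (q2.mono hS) (q3.mono hS) (fun a b c d e ha hb hc hd he => hk a ha b hb c hc d hd e he)
    (fun _ h => h) ?_ h1 h2 h3
  simp only [List.nodup_cons, List.mem_cons, List.not_mem_nil, or_false, not_or, not_false_eq_true, List.nodup_nil, and_true]
  exact ⟨⟨n1, n2, n3, m3⟩, ⟨n4, n5, m5⟩, ⟨n6, xz⟩, m6⟩

theorem maj_f5 (F : PrF Y.G Y.pt) {S : V → Prop} (q1 : QS Y.G Y.X1 Y.T1 S) (q2 : QS Y.G Y.X2 Y.T2 S) (q3 : QS Y.G Y.X3 Y.T3 S)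
    {a b x y x2 : V} (ha : S a) (hb : S b) (hx : S x) (hy : S y) (hz : S x2)
    (hk : ∀ p q r s t, p ∈ [a, b, x, y, x2] → q ∈ [a, b, x, y, x2] → r ∈ [a, b, x, y, x2] → s ∈ [a, b, x, y, x2] →
      t ∈ [a, b, x, y, x2] → ¬ K5 Y.G p q r s t)
    (h1 : Y.T4 a x b y) (h2 : Y.T4 a x2 b x) : Y.T4 a x2 b y := by
  obtain ⟨n1, n2, n3, n4, n5, n6⟩ := Q_nd4 h1
  obtain ⟨m1, m2, m3, m4, m5, m6⟩ := Q_nd4 h2
  by_cases e : x2 = y
  · subst e
    have h3 := Y.rel.s4' (r := 8) (Y.rel.s4 (r := 8) (Y.rel.s4' (r := 8) h1))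
    have h4 := Y.rel.s4' (r := 8) (Y.rel.s4 (r := 8) (Y.rel.s4' (r := 8) h2))
    exact (maj_nb F q1 q2 q3 ha hx hz hb h3 h4).elim
  · by_contra h3
    have hS : ∀ o ∈ [a, b, x, y, x2], S o := mem5 ha hb hx hy hz
    refine mf5 F (q1.mono hS) (q2.mono hS) (q3.mono hS) hk (fun _ h => h) ?_ h1 h2 h3
    simp only [List.nodup_cons, List.mem_cons, List.not_mem_nil, or_false, not_or, not_false_eq_true, List.nodup_nil, and_true]
    exact ⟨⟨n2, n1, n3, m1⟩, ⟨n4.symm, n6, m4.symm⟩, ⟨n5, m5.symm⟩, fun h => e h.symm⟩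

/-- crossing edges have a pairing -/
theorem maj_so (F : PrF Y.G Y.pt) {S : V → Prop} (q1 : QS Y.G Y.X1 Y.T1 S) (q2 : QS Y.G Y.X2 Y.T2 S) (q3 : QS Y.G Y.X3 Y.T3 S)
    {a b c d : V} (ha : S a) (hb : S b) (hc : S c) (hd : S d) (e1 : Y.G.Adj a c) (e2 : Y.G.Adj b d) (n1 : a ≠ b) (n2 : a ≠ d)
    (n3 : b ≠ c) (n4 : c ≠ d) (hx : Y.X4 a c b d) : Y.T4 a b c d ∨ Y.T4 a d b c := by
  by_contra h3
  rw [not_or] at h3
  have hS : ∀ x ∈ [a, b, c, d], S x := by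
    intro x hx
    simp only [List.mem_cons, List.not_mem_nil, or_false] at hx
    rcases hx with rfl | rfl | rfl | rfl <;> assumption
  refine mso F (q1.mono hS) (q2.mono hS) (q3.mono hS) Q_no5 (fun _ h => h) ?_ e1 e2 hx h3.1 h3.2
  simp only [List.nodup_cons, List.mem_cons, List.not_mem_nil, or_false, not_or, not_false_eq_true, List.nodup_nil, and_true]
  exact ⟨⟨n1, e1.ne, n2⟩, ⟨n3, e2.ne⟩, n4⟩

/-- FERRERS -/
theorem maj_fe (F : PrF Y.G Y.pt) {S : V → Prop} (q1 : QS Y.G Y.X1 Y.T1 S) (q2 : QS Y.G Y.X2 Y.T2 S) (q3 : QS Y.G Y.X3 Y.T3 S)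
    {a b x y x2 y2 : V} (ha : S a) (hb : S b) (hx : S x) (hy : S y) (hx2 : S x2) (hy2 : S y2)
    (hk : K5F Y.G [a, b, x, y, x2, y2]) (h1 : Y.T4 a x b y) (h2 : Y.T4 a x2 b y2) : Y.T4 a x b y2 ∨ Y.T4 a x2 b y := by
  obtain ⟨n1, n2, n3, n4, n5, n6⟩ := Q_nd4 h1
  obtain ⟨m1, m2, m3, m4, m5, m6⟩ := Q_nd4 h2
  have hk' : ∀ {l : List V}, (∀ o ∈ l, o ∈ [a, b, x, y, x2, y2]) → ∀ p q r s t, p ∈ l → q ∈ l → r ∈ l → s ∈ l → t ∈ l →
      ¬ K5 Y.G p q r s t := fun hl p q r s t hp hq hr hs ht => hk p (hl p hp) q (hl q hq) r (hl r hr) s (hl s hs) t (hl t ht)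
  by_cases e1 : x = x2
  · subst e1
    exact Or.inl h2
  by_cases e2 : y = y2
  · subst e2
    exact Or.inl h1
  by_cases e3 : x = y2
  · subst e3
    refine Or.inr (maj_f5 F q1 q2 q3 ha hb hx hy hx2 (hk' (mem5 (P := fun o => o ∈ [a, b, x, y, x2, x]) ?_ ?_ ?_ ?_ ?_)) h1 h2) <;> simp
  by_cases e4 : y = x2
  · subst e4
    refine Or.inl (maj_f5 F q1 q2 q3 ha hb hy hy2 hx (hk' (mem5 (P := fun o => o ∈ [a, b, x, y, y, y2]) ?_ ?_ ?_ ?_ ?_)) h2 h1) <;> simp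
  by_contra h3
  rw [not_or] at h3
  have hS : ∀ o ∈ [a, b, x, y, x2, y2], S o := mem6 ha hb hx hy hx2 hy2
  have e4Y : E4 Y (fun o => o ∈ [a, b, x, y, x2, y2]) :=
    { nb := fun ha hb hc hd k1 k2 => maj_nb F q1 q2 q3 (hS _ ha) (hS _ hb) (hS _ hc) (hS _ hd) k1 k2
      some := fun ha hb hc hd => maj_so F q1 q2 q3 (hS _ ha) (hS _ hb) (hS _ hc) (hS _ hd)
      tr := fun h1 h2 h3 h4 h5 => maj_tr F q1 q2 q3 (hS _ h1) (hS _ h2) (hS _ h3) (hS _ h4) (hS _ h5)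
        fun p hp q hq r hr s hs t ht => hk' (mem5 h1 h2 h3 h4 h5) p q r s t hp hq hr hs ht
      f5 := fun h1 h2 h3 h4 h5 => maj_f5 F q1 q2 q3 (hS _ h1) (hS _ h2) (hS _ h3) (hS _ h4) (hS _ h5)
        (hk' (mem5 h1 h2 h3 h4 h5)) }
  refine mf6 F (q1.mono hS) (q2.mono hS) (q3.mono hS) (fun p q r s t hp hq hr hs ht => hk p hp q hq r hr s hs t ht) e4Y
    (fun _ h => h) ?_ h1 h2 h3.1 h3.2
  simp only [List.nodup_cons, List.mem_cons, List.not_mem_nil, or_false, not_or, not_false_eq_true, List.nodup_nil, and_true]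
  exact ⟨⟨n2, n1, n3, m1, m3⟩, ⟨n4.symm, n6, m4.symm, m6⟩, ⟨n5, e1, e3⟩, ⟨e4, e2⟩, m5⟩

end Pool.Agent.SOX
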