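import Pool.Agent.SOV.TstOk
import Pool.Agent.SOT.HypE
import Pool.Agent.SOT.PolE

/-! Project SOX (MP_66ba69_lc, assembly), module Tok: the fixed order test `tOk` decides `VO`, for the dynamic program of SOT. -/

set_option autoImplicit false

namespace Pool.Agent.SOX

open Pool.Agent.SOC Pool.Agent.SOD Pool.Agent.SOS Pool.Agent.SOE Pool.Agent.SOT Pool.Agent.SOV

variable {M : Mat}

/-- the fixed order test decides `VO` -/
theorem tok_vo {l : Ord} (hl : l.Perm (List.range M.length)) : tOk M l = true ↔ VO M l := by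
  have hlt : ∀ x ∈ l, x < M.length := fun x hx => List.mem_range.1 (hl.mem_iff.1 hx)
  obtain ⟨s, rfl⟩ : ∃ s : List (Fin M.length), s.map Fin.val = l := by
    refine ⟨l.attach.map (fun x => (⟨x.1, hlt x.1 x.2⟩ : Fin M.length)), ?_⟩
    rw [List.map_map]
    have e : (Fin.val ∘ fun x : {x // x ∈ l} => (⟨x.1, hlt x.1 x.2⟩ : Fin M.length)) = Subtype.val := rfl
    rw [e]
    exact List.attach_map_subtype_val l
  have hs : IsEnum s := by
    refine ⟨List.Nodup.of_map _ (hl.nodup_iff.2 List.nodup_range), fun v => ?_⟩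
    have h1 : v.val ∈ s.map Fin.val := hl.mem_iff.2 (List.mem_range.2 v.2)
    obtain ⟨w, hw, e⟩ := List.mem_map.1 h1
    rwa [← Fin.ext e]
  rw [tOk_enum hs]
  constructor
  · intro h
    exact ⟨s, rfl, hs, h⟩
  · rintro ⟨s', e, _, h⟩
    have e' : s' = s := List.map_injective_iff.2 Fin.val_injective e
    rwa [e'] at h

end Pool.Agent.SOX
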