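import Pool.Agent.SOX.FB

/-! Project SOX (MP_66ba69_lc, the rigid step: orders with flippable pairs), module FH (size 3): partners of numbers, locality.
-/

set_option autoImplicit false

namespace Pool.Agent.SOX

open Pool.Agent.SOC Pool.Agent.SOD Pool.Agent.SOS Pool.Agent.RUP Pool.Agent.SOF Pool.Agent.SOV Pool.Agent.SOB FP

/-- head of a list with only one kind of elements -/
theorem FH_head {α β : Type} {l : List α} (f : α → β) (r : List β) (d : β) {a : α} (ha : a ∈ l) (h : ∀ b ∈ l, b = a) :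
    (l.map f ++ r).headD d = f a := by
  cases l with
  | nil => simp at ha
  | cons b l =>
    have hb := h b (by simp)
    subst hb
    simp

theorem FH_ne {L : List ℕ} (hn : L.Nodup) {P : List (ℕ × ℕ)} (hP : Prs L P) {p : ℕ × ℕ} (hp : p ∈ P) : p.1 ≠ p.2 := by
  obtain ⟨u, v, h⟩ := hP.cons p hp
  rw [h] at hn
  have h2 := (List.nodup_append.mp hn).2.1
  have h3 := (List.nodup_cons.mp h2).1
  intro e
  exact h3 (by rw [e]; simp)

theorem FH_mem {L : List ℕ} {P : List (ℕ × ℕ)} (hP : Prs L P) {p : ℕ × ℕ} (hp : p ∈ P) : p.1 ∈ L ∧ p.2 ∈ L := by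
  obtain ⟨u, v, h⟩ := hP.cons p hp
  rw [h]
  simp

/-- PROOF. Prs gives: p.1, p.2 ∈ L, p.1 ≠ p.2 (hn), and different pairs are disjoint (hP.dis). ptN P x: if x = p.1 for some p ∈ P then p.2; if x = p.2 then p.1; otherwise x. The filters contain only copies of one pair: (P.filter (p.1 = x)) ≠ [] iff ...; its head is p by hP.dis; if the first filter is empty the second one. Cases: x = p.1: p.1 ≠ q.2 for all q. -/
theorem ptN_cases {L : List ℕ} (hn : L.Nodup) {P : List (ℕ × ℕ)} (hP : Prs L P) (x : ℕ) :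
    (∃ p ∈ P, x = p.1 ∧ ptN P x = p.2 ∧ fsN P x = p.1) ∨ (∃ p ∈ P, x = p.2 ∧ ptN P x = p.1 ∧ fsN P x = p.1) ∨
    (ptN P x = x ∧ fsN P x = x ∧ ∀ p ∈ P, x ≠ p.1 ∧ x ≠ p.2) := by
  by_cases h1 : ∃ p ∈ P, x = p.1
  · left
    obtain ⟨p, hp, e⟩ := h1
    refine ⟨p, hp, e, ?_, ?_⟩
    · unfold ptN
      refine FH_head Prod.snd _ x (a := p) ?_ ?_
      · rw [List.mem_filter]
        exact ⟨hp, by simp [e]⟩
      · intro q hq
        rw [List.mem_filter] at hq
        have e2 : q.1 = x := by simpa using hq.2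
        exact hP.dis q hq.1 p hp (Or.inl (e2.trans e))
    · have h2 : P.filter (fun p => decide (p.2 = x)) = [] := by
        rw [List.filter_eq_nil_iff]
        intro q hq e2
        have e3 : q.2 = x := by simpa using e2
        have e4 := hP.dis p hp q hq (Or.inr (Or.inl (e.symm.trans e3.symm)))
        subst e4
        exact FH_ne hn hP hp (e.symm.trans e3.symm)
      unfold fsN
      rw [h2, ← e]
      simp
  · have h3 : P.filter (fun p => decide (p.1 = x)) = [] := by
      rw [List.filter_eq_nil_iff]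
      intro q hq e2
      have e3 : q.1 = x := by simpa using e2
      exact h1 ⟨q, hq, e3.symm⟩
    by_cases h2 : ∃ p ∈ P, x = p.2
    · right; left
      obtain ⟨p, hp, e⟩ := h2
      have h4 : p ∈ P.filter (fun p => decide (p.2 = x)) := by
        rw [List.mem_filter]
        exact ⟨hp, by simp [e]⟩
      have h5 : ∀ q ∈ P.filter (fun p => decide (p.2 = x)), q = p := by
        intro q hq
        rw [List.mem_filter] at hq
        have e2 : q.2 = x := by simpa using hq.2
        exact hP.dis q hq.1 p hp (Or.inr (Or.inr (e2.trans e)))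
      refine ⟨p, hp, e, ?_, ?_⟩
      · unfold ptN
        rw [h3]
        exact FH_head Prod.fst _ x h4 h5
      · unfold fsN
        exact FH_head Prod.fst _ x h4 h5
    · right; right
      have h4 : P.filter (fun p => decide (p.2 = x)) = [] := by
        rw [List.filter_eq_nil_iff]
        intro q hq e2
        have e3 : q.2 = x := by simpa using e2
        exact h2 ⟨q, hq, e3.symm⟩
      refine ⟨?_, ?_, ?_⟩
      · unfold ptN
        rw [h3, h4]
        simp
      · unfold fsN
        rw [h4]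
        simp
      · intro p hp
        exact ⟨fun e => h1 ⟨p, hp, e⟩, fun e => h2 ⟨p, hp, e⟩⟩

/-- PROOF. ptN_cases for x and ptN P x. -/
theorem ptN_ptN {L : List ℕ} (hn : L.Nodup) {P : List (ℕ × ℕ)} (hP : Prs L P) (x : ℕ) : ptN P (ptN P x) = x ∧ fsN P (ptN P x) = fsN P x := by
  rcases ptN_cases hn hP x with ⟨p, hp, e, e1, e2⟩ | ⟨p, hp, e, e1, e2⟩ | ⟨e1, e2, e3⟩
  · rw [e1, e2]
    rcases ptN_cases hn hP p.2 with ⟨q, hq, k, k1, k2⟩ | ⟨q, hq, k, k1, k2⟩ | ⟨k1, k2, k3⟩
    · exfalso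
      have e4 := hP.dis q hq p hp (Or.inr (Or.inl k.symm))
      subst e4
      exact FH_ne hn hP hp k.symm
    · have e4 := hP.dis p hp q hq (Or.inr (Or.inr k))
      subst e4
      exact ⟨k1.trans e.symm, k2⟩
    · exact absurd rfl (k3 p hp).2
  · rw [e1, e2]
    rcases ptN_cases hn hP p.1 with ⟨q, hq, k, k1, k2⟩ | ⟨q, hq, k, k1, k2⟩ | ⟨k1, k2, k3⟩
    · have e4 := hP.dis p hp q hq (Or.inl k)
      subst e4
      exact ⟨k1.trans e.symm, k2⟩
    · exfalso
      have e4 := hP.dis p hp q hq (Or.inr (Or.inl k))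
      subst e4
      exact FH_ne hn hP hp k
    · exact absurd rfl (k3 p hp).1
  · rw [e1]
    exact ⟨e1, rfl⟩

/-- PROOF. ptN_cases, p.1, p.2 ∈ L by hP.cons. -/
theorem ptN_mem {L : List ℕ} (hn : L.Nodup) {P : List (ℕ × ℕ)} (hP : Prs L P) {x : ℕ} (hx : x ∈ L) : ptN P x ∈ L := by
  rcases ptN_cases hn hP x with ⟨p, hp, e, e1, e2⟩ | ⟨p, hp, e, e1, e2⟩ | ⟨e1, e2, e3⟩
  · rw [e1]; exact (FH_mem hP hp).2
  · rw [e1]; exact (FH_mem hP hp).1
  · rw [e1]; exact hx

/-- PROOF. cn is symmetric: min, max are symmetric. For the second: if min a b = min c d both sides ... are equal only if the pairs are; so assume a, b, c, d different. -/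
theorem tv_symm (M : List (List Bool)) (f : ℕ → Bool) (a b c d : ℕ) : tv M f b a c d = tv M f a b c d := by
  unfold tv cn
  rw [min_comm b a, max_comm b a]

theorem tv_comm (M : List (List Bool)) (f : ℕ → Bool) {a b c d : ℕ} (h1 : a ≠ c) (h2 : a ≠ d) (h3 : b ≠ c) (h4 : b ≠ d) :
    tv M f c d a b = tv M f a b c d := by
  unfold tv cn
  have h5 : min a b ≠ min c d := by
    rcases min_choice a b with e | e <;> rcases min_choice c d with e' | e' <;> rw [e, e'] <;> assumption
  by_cases h6 : min a b ≤ min c d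
  · have h7 : ¬ (min c d ≤ min a b) := fun h => h5 (le_antisymm h6 h)
    rw [if_pos h6, if_neg h7]
  · have h7 : min c d ≤ min a b := le_of_not_ge h6
    rw [if_neg h6, if_pos h7]

theorem FH_step {n a b a' b' : ℕ} (hb : b < n) (hb' : b' < n) (e : a * n + b = a' * n + b') : a = a' ∧ b = b' := by
  have h : a = a' := by
    rcases lt_trichotomy a a' with h | h | h
    · exfalso
      have h2 : (a + 1) * n ≤ a' * n := Nat.mul_le_mul_right n h
      rw [Nat.add_mul] at h2
      omega
    · exact h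
    · exfalso
      have h2 : (a' + 1) * n ≤ a * n := Nat.mul_le_mul_right n h
      rw [Nat.add_mul] at h2
      omega
  subst h
  exact ⟨rfl, by omega⟩

theorem FH_cd4 {n a b c d a' b' c' d' : ℕ} (hb : b < n) (hc : c < n) (hd : d < n) (hb' : b' < n) (hc' : c' < n)
    (hd' : d' < n) (e : cd4 n a b c d = cd4 n a' b' c' d') : a = a' ∧ b = b' ∧ c = c' ∧ d = d' := by
  unfold cd4 at e
  obtain ⟨e1, e2⟩ := FH_step hd hd' e
  obtain ⟨e3, e4⟩ := FH_step hc hc' e1
  obtain ⟨e5, e6⟩ := FH_step hb hb' e3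
  exact ⟨e5, e6, e4, e2⟩

theorem FH_pair (a b : ℕ) : ({min a b, max a b} : Set ℕ) = {a, b} := by
  rcases le_total a b with h | h
  · rw [min_eq_left h, max_eq_right h]
  · rw [min_eq_right h, max_eq_left h, Set.pair_comm]

theorem FH_pair2 {a b a' b' : ℕ} (h1 : min a b = min a' b') (h2 : max a b = max a' b') : ({a, b} : Set ℕ) = {a', b'} := by
  rw [← FH_pair a b, ← FH_pair a' b', h1, h2]

/-- PROOF. cd4 is injective for numbers < n (division with remainder: Nat.div, Nat.mod, or nlinarith / omega after cases); sorted pairs: min, max. -/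
theorem cn_inj {n a b c d a' b' c' d' : ℕ} (ha : a < n) (hb : b < n) (hc : c < n) (hd : d < n) (ha' : a' < n) (hb' : b' < n) (hc' : c' < n)
    (hd' : d' < n) (e : cn n a b c d = cn n a' b' c' d') :
    (({a, b} : Set ℕ) = {a', b'} ∧ ({c, d} : Set ℕ) = {c', d'}) ∨ (({a, b} : Set ℕ) = {c', d'} ∧ ({c, d} : Set ℕ) = {a', b'}) := by
  have k1 : max a b < n := max_lt ha hb
  have k2 : max c d < n := max_lt hc hd
  have k3 : max a' b' < n := max_lt ha' hb'
  have k4 : max c' d' < n := max_lt hc' hd'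
  have l1 : min a b < n := lt_of_le_of_lt (min_le_left _ _) ha
  have l2 : min c d < n := lt_of_le_of_lt (min_le_left _ _) hc
  have l3 : min a' b' < n := lt_of_le_of_lt (min_le_left _ _) ha'
  have l4 : min c' d' < n := lt_of_le_of_lt (min_le_left _ _) hc'
  unfold cn at e
  by_cases h1 : min a b ≤ min c d
  · by_cases h2 : min a' b' ≤ min c' d'
    · rw [if_pos h1, if_pos h2] at e
      obtain ⟨e1, e2, e3, e4⟩ := FH_cd4 k1 l2 k2 k3 l4 k4 e
      exact Or.inl ⟨FH_pair2 e1 e2, FH_pair2 e3 e4⟩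
    · rw [if_pos h1, if_neg h2] at e
      obtain ⟨e1, e2, e3, e4⟩ := FH_cd4 k1 l2 k2 k4 l3 k3 e
      exact Or.inr ⟨FH_pair2 e1 e2, FH_pair2 e3 e4⟩
  · by_cases h2 : min a' b' ≤ min c' d'
    · rw [if_neg h1, if_pos h2] at e
      obtain ⟨e1, e2, e3, e4⟩ := FH_cd4 k2 l1 k1 k3 l4 k4 e
      exact Or.inr ⟨FH_pair2 e3 e4, FH_pair2 e1 e2⟩
    · rw [if_neg h1, if_neg h2] at e
      obtain ⟨e1, e2, e3, e4⟩ := FH_cd4 k2 l1 k1 k4 l3 k3 e
      exact Or.inl ⟨FH_pair2 e3 e4, FH_pair2 e1 e2⟩

theorem FH_all {α : Type} {S : List α} {p q : α → Bool} (h : ∀ x ∈ S, p x = q x) : S.all p = S.all q := by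
  induction S with
  | nil => rfl
  | cons a S ih =>
    rw [List.all_cons, List.all_cons, h a (by simp), ih (fun x hx => h x (by simp [hx]))]

theorem FH_sg {n : ℕ} {P : List (ℕ × ℕ)} {S : List ℕ} {f g : ℕ → Bool} (h : ∀ v ∈ scp n P S, f v = g v) {x : ℕ} (hx : x ∈ S) :
    sgN P f x = sgN P g x := by
  unfold sgN
  rw [h (fsN P x) (by unfold scp; rw [List.mem_append]; exact Or.inl (List.mem_map.mpr ⟨x, hx, rfl⟩))]

theorem FH_tv {M : List (List Bool)} {P : List (ℕ × ℕ)} {S : List ℕ} {f g : ℕ → Bool} (h : ∀ v ∈ scp M.length P S, f v = g v)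
    {a b c d : ℕ} (ha : a ∈ S) (hb : b ∈ S) (hc : c ∈ S) (hd : d ∈ S) : tv M f a b c d = tv M g a b c d := by
  unfold tv
  apply h
  unfold scp
  rw [List.mem_append]
  right
  exact List.mem_flatMap.mpr ⟨a, ha, List.mem_flatMap.mpr ⟨b, hb, List.mem_flatMap.mpr ⟨c, hc, List.mem_map.mpr ⟨d, hd, rfl⟩⟩⟩⟩

theorem FH_fl {n : ℕ} {L : List ℕ} {P : List (ℕ × ℕ)} {S : List ℕ} {f g : ℕ → Bool} (h : ∀ v ∈ scp n P S, f v = g v)
    {a b c d : ℕ} (ha : a ∈ S) (hb : b ∈ S) (hc : c ∈ S) (hd : d ∈ S) : flB L P f a b c d = flB L P g a b c d := by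
  unfold flB
  rw [FH_sg h ha, FH_sg h hb, FH_sg h hc, FH_sg h hd]

theorem FH_dec {M : List (List Bool)} {L : List ℕ} {P : List (ℕ × ℕ)} {S : List ℕ} {f g : ℕ → Bool}
    (h : ∀ v ∈ scp M.length P S, f v = g v) {a b c d : ℕ} (ha : a ∈ S) (hb : b ∈ S) (hc : c ∈ S) (hd : d ∈ S) :
    decB M L P f a b c d = decB M L P g a b c d := by
  unfold decB
  rw [FH_fl h ha hb hc hd, FH_tv h ha hb hc hd, FH_tv h ha hc hb hd, FH_tv h ha hd hb hc]

/-- PROOF. lvB uses f only in sgN P f x = if f (fsN P x) .. with x ∈ S and in tv M f a b c d with a, b, c, d ∈ S; both variables are members of scp. List.all congruence (for S.all: Bool equality by cases or List.all_congr), unfold everything: prove decB M L P f a b c d = decB M L P g a b c d and flB .. for members first. -/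
theorem lvB_congr {M : List (List Bool)} {L : List ℕ} {P : List (ℕ × ℕ)} {S : List ℕ} {f g : ℕ → Bool}
    (h : ∀ v ∈ scp M.length P S, f v = g v) : lvB M L P S f = lvB M L P S g := by
  unfold lvB
  refine FH_all fun a ha => FH_all fun b hb => FH_all fun c hc => FH_all fun d hd => ?_
  have h1 : someB M L P f a b c d = someB M L P g a b c d := by
    unfold someB
    rw [FH_fl h ha hc hb hd, FH_dec h ha hb hc hd, FH_dec h ha hd hb hc]
  have h2 : nbB M L P f a b c d = nbB M L P g a b c d := by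
    unfold nbB
    rw [FH_dec h ha hb hc hd, FH_dec h ha hd hb hc]
  have h3 : (S.all fun x => trB M L P f a b c d x && kkB M L P f a b c d x) =
      (S.all fun x => trB M L P g a b c d x && kkB M L P g a b c d x) := by
    refine FH_all fun x hx => ?_
    have h4 : trB M L P f a b c d x = trB M L P g a b c d x := by
      unfold trB
      rw [FH_dec h ha hb hc hd, FH_dec h ha hb hd hx, FH_dec h ha hb hc hx]
    have h5 : kkB M L P f a b c d x = kkB M L P g a b c d x := by
      unfold kkB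
      rw [FH_fl h hx ha hc hd, FH_fl h hx hb hc hd, FH_dec h ha hb hc hd, FH_dec h ha hb hc hx]
    rw [h4, h5]
  have h6 : (S.all fun x => S.all fun y => feB M L P f a b c d x y) = (S.all fun x => S.all fun y => feB M L P g a b c d x y) := by
    refine FH_all fun x hx => FH_all fun y hy => ?_
    unfold feB
    rw [FH_dec h ha hc hb hd, FH_dec h ha hx hb hy, FH_dec h ha hc hb hy, FH_dec h ha hx hb hd]
  rw [h1, h2, h3, h6]

end Pool.Agent.SOX
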