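import Pool.Agent.SOX.FB
import Pool.Agent.SOB.PolS

/-! Project SOX (MP_66ba69_lc, the rigid step: orders with flippable pairs), module FP (size 3): polynomial time.
-/

set_option autoImplicit false

namespace Pool.Agent.SOX

open Pool.Agent.SOC Pool.Agent.SOD Pool.Agent.SOS Pool.Agent.RUP Pool.Agent.SOF Pool.Agent.SOV Pool.Agent.SOB FP

variable {α : Type} [Code α] {M : α → List (List Bool)} {L S sc : α → List ℕ} {P : α → List (ℕ × ℕ)} {r : α → List Bool} {a b c d v : α → ℕ}

theorem poly_ptN (hP : Poly P) (ha : Poly a) : Poly (fun p => ptN (P p) (a p)) := by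
  unfold ptN
  have h1 : Poly (fun p => (P p).filter (fun x => decide (x.1 = a p))) :=
    Poly.filter (f := P) (g := fun p x => decide (x.1 = a p)) hP (by fun_prop)
  have h2 : Poly (fun p => (P p).filter (fun x => decide (x.2 = a p))) :=
    Poly.filter (f := P) (g := fun p x => decide (x.2 = a p)) hP (by fun_prop)
  have h3 : Poly (fun p => ((P p).filter (fun x => decide (x.1 = a p))).map Prod.snd) :=
    FP.Poly.map (g := fun (_ : α) (x : ℕ × ℕ) => x.2) h1 (by fun_prop)
  have h4 : Poly (fun p => ((P p).filter (fun x => decide (x.2 = a p))).map Prod.fst) :=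
    FP.Poly.map (g := fun (_ : α) (x : ℕ × ℕ) => x.1) h2 (by fun_prop)
  exact Poly.headD (Poly.append h3 (Poly.append h4 (by fun_prop))) ha

theorem poly_fsN (hP : Poly P) (ha : Poly a) : Poly (fun p => fsN (P p) (a p)) := by
  unfold fsN
  have h2 : Poly (fun p => (P p).filter (fun x => decide (x.2 = a p))) :=
    Poly.filter (f := P) (g := fun p x => decide (x.2 = a p)) hP (by fun_prop)
  have h4 : Poly (fun p => ((P p).filter (fun x => decide (x.2 = a p))).map Prod.fst) :=
    FP.Poly.map (g := fun (_ : α) (x : ℕ × ℕ) => x.1) h2 (by fun_prop)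
  exact Poly.headD (Poly.append h4 (by fun_prop)) ha

/-- auxiliary: a family of functions of numbers, computable in polynomial time -/
theorem FP_app {F : α → ℕ → Bool} (hF : Poly (fun q : α × ℕ => F q.1 q.2)) (ha : Poly a) : Poly (fun p => F p (a p)) :=
  hF.comp (f := fun p => (p, a p)) (Poly.pair Poly.ident ha)

theorem FP_rd (hs : Poly sc) (hr : Poly r) : Poly (fun q : α × ℕ => rd (sc q.1) (r q.1) q.2) := by
  unfold rd
  exact Poly.getD (by fun_prop) (Poly.idxOf (by fun_prop) (by fun_prop)) (FP.Poly.const false)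

theorem FP_sgN {F : α → ℕ → Bool} (hP : Poly P) (hF : Poly (fun q : α × ℕ => F q.1 q.2)) (ha : Poly a) :
    Poly (fun p => sgN (P p) (F p) (a p)) := by
  unfold sgN
  exact Poly.ite (Poly.pred (FP_app hF (poly_fsN hP ha))) (poly_ptN hP ha) ha

theorem FP_cn {n : α → ℕ} (hn : Poly n) (ha : Poly a) (hb : Poly b) (hc : Poly c) (hd : Poly d) :
    Poly (fun p => cn (n p) (a p) (b p) (c p) (d p)) := by
  unfold cn cd4
  exact Poly.ite (PolyPred.le (by fun_prop) (by fun_prop)) (by fun_prop) (by fun_prop)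

theorem FP_tv {F : α → ℕ → Bool} (hM : Poly M) (hF : Poly (fun q : α × ℕ => F q.1 q.2)) (ha : Poly a) (hb : Poly b) (hc : Poly c)
    (hd : Poly d) : Poly (fun p => tv (M p) (F p) (a p) (b p) (c p) (d p)) := by
  unfold tv
  exact FP_app hF (Poly.add (by fun_prop) (FP_cn (by fun_prop) ha hb hc hd))

theorem FP_flB {F : α → ℕ → Bool} (hL : Poly L) (hP : Poly P) (hF : Poly (fun q : α × ℕ => F q.1 q.2)) (ha : Poly a) (hb : Poly b)
    (hc : Poly c) (hd : Poly d) : Poly (fun p => flB (L p) (P p) (F p) (a p) (b p) (c p) (d p)) := by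
  unfold flB
  exact poly_crB hL (FP_sgN hP hF ha) (FP_sgN hP hF hb) (FP_sgN hP hF hc) (FP_sgN hP hF hd)

theorem FP_npB (hP : Poly P) (ha : Poly a) (hb : Poly b) (hc : Poly c) (hd : Poly d) :
    Poly (fun p => npB (P p) (a p) (b p) (c p) (d p)) := by
  unfold npB
  have h1 := poly_ptN hP ha
  have h2 := poly_ptN hP hb
  have h3 := poly_ptN hP hc
  exact Poly.and (poly_ne h1 hb) (Poly.and (poly_ne h1 hc) (Poly.and (poly_ne h1 hd) (Poly.and (poly_ne h2 hc)
    (Poly.and (poly_ne h2 hd) (poly_ne h3 hd)))))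

theorem FP_decB {F : α → ℕ → Bool} (hM : Poly M) (hL : Poly L) (hP : Poly P) (hF : Poly (fun q : α × ℕ => F q.1 q.2)) (ha : Poly a)
    (hb : Poly b) (hc : Poly c) (hd : Poly d) : Poly (fun p => decB (M p) (L p) (P p) (F p) (a p) (b p) (c p) (d p)) := by
  unfold decB
  have h1 := poly_ptN hP ha
  have h2 := poly_ptN hP hb
  have h3 := poly_ptN hP hc
  have e1 : Poly (fun p => decide (ptN (P p) (a p) = b p) || decide (ptN (P p) (c p) = d p)) := by fun_prop
  have e2 : Poly (fun p => decide (ptN (P p) (a p) = c p) || decide (ptN (P p) (b p) = d p)) := by fun_prop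
  have e3 : Poly (fun p => decide (ptN (P p) (a p) = d p) || decide (ptN (P p) (b p) = c p)) := by fun_prop
  have t1 := FP_tv hM hF ha hb hc hd
  have t2 := FP_tv hM hF ha hc hb hd
  have t3 := FP_tv hM hF ha hd hb hc
  exact Poly.and (poly_ne ha hb) (Poly.and (poly_ne hc hd) (Poly.and (poly_sqB hM ha hb hc hd)
    (Poly.and (Poly.not (FP_flB hL hP hF ha hb hc hd)) (Poly.or (Poly.not (poly_k4B hM ha hb hc hd))
      (Poly.and (Poly.or (Poly.not e1) t1) (Poly.and (Poly.or (Poly.not e2) (Poly.not t2))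
        (Poly.and (Poly.or (Poly.not e3) (Poly.not t3)) (Poly.or (Poly.not (FP_npB hP ha hb hc hd)) t1))))))))

/-- auxiliary: the inner test -/
def FP_in (M : List (List Bool)) (L : List ℕ) (P : List (ℕ × ℕ)) (S : List ℕ) (f : ℕ → Bool) (a b c d : ℕ) : Bool :=
  someB M L P f a b c d && (nbB M L P f a b c d && ((S.all fun x => trB M L P f a b c d x && kkB M L P f a b c d x) &&
      (S.all fun x => S.all fun y => feB M L P f a b c d x y)))

theorem FP_some {F : α → ℕ → Bool} (hM : Poly M) (hL : Poly L) (hP : Poly P) (hF : Poly (fun q : α × ℕ => F q.1 q.2)) (ha : Poly a)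
    (hb : Poly b) (hc : Poly c) (hd : Poly d) : Poly (fun p => someB (M p) (L p) (P p) (F p) (a p) (b p) (c p) (d p)) := by
  unfold someB
  exact Poly.or (Poly.not (Poly.and (AlgoPoly_adjB hM ha hc) (Poly.and (AlgoPoly_adjB hM hb hd) (Poly.and (poly_ne ha hb)
    (Poly.and (poly_ne ha hd) (Poly.and (poly_ne hb hc) (Poly.and (poly_ne hc hd) (FP_flB hL hP hF ha hc hb hd))))))))
    (Poly.or (FP_decB hM hL hP hF ha hb hc hd) (FP_decB hM hL hP hF ha hd hb hc))

theorem FP_nb {F : α → ℕ → Bool} (hM : Poly M) (hL : Poly L) (hP : Poly P) (hF : Poly (fun q : α × ℕ => F q.1 q.2)) (ha : Poly a)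
    (hb : Poly b) (hc : Poly c) (hd : Poly d) : Poly (fun p => nbB (M p) (L p) (P p) (F p) (a p) (b p) (c p) (d p)) := by
  unfold nbB
  exact Poly.not (Poly.and (FP_decB hM hL hP hF ha hb hc hd) (FP_decB hM hL hP hF ha hd hb hc))

theorem FP_tr {F : α → ℕ → Bool} {x : α → ℕ} (hM : Poly M) (hL : Poly L) (hP : Poly P) (hF : Poly (fun q : α × ℕ => F q.1 q.2))
    (ha : Poly a) (hb : Poly b) (hc : Poly c) (hd : Poly d) (hx : Poly x) :
    Poly (fun p => trB (M p) (L p) (P p) (F p) (a p) (b p) (c p) (d p) (x p)) := by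
  unfold trB
  exact Poly.or (Poly.not (Poly.and (poly_k5fB hM (poly_l5 ha hb hc hd hx)) (Poly.and (FP_decB hM hL hP hF ha hb hc hd)
    (Poly.and (FP_decB hM hL hP hF ha hb hd hx) (poly_ne hc hx))))) (FP_decB hM hL hP hF ha hb hc hx)

theorem FP_fe {F : α → ℕ → Bool} {x y : α → ℕ} (hM : Poly M) (hL : Poly L) (hP : Poly P) (hF : Poly (fun q : α × ℕ => F q.1 q.2))
    (ha : Poly a) (hb : Poly b) (hc : Poly c) (hd : Poly d) (hx : Poly x) (hy : Poly y) :
    Poly (fun p => feB (M p) (L p) (P p) (F p) (a p) (b p) (c p) (d p) (x p) (y p)) := by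
  unfold feB
  exact Poly.or (Poly.not (Poly.and (poly_k5fB hM (poly_l6 ha hb hc hd hx hy)) (Poly.and (FP_decB hM hL hP hF ha hc hb hd)
    (FP_decB hM hL hP hF ha hx hb hy)))) (Poly.or (FP_decB hM hL hP hF ha hc hb hy) (FP_decB hM hL hP hF ha hx hb hd))

theorem FP_kk {F : α → ℕ → Bool} {x : α → ℕ} (hM : Poly M) (hL : Poly L) (hP : Poly P) (hF : Poly (fun q : α × ℕ => F q.1 q.2))
    (ha : Poly a) (hb : Poly b) (hc : Poly c) (hd : Poly d) (hx : Poly x) :
    Poly (fun p => kkB (M p) (L p) (P p) (F p) (a p) (b p) (c p) (d p) (x p)) := by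
  unfold kkB
  exact Poly.or (Poly.not (Poly.and (poly_k5B hM ha hb hc hd hx) (Poly.and (FP_flB hL hP hF hx ha hc hd)
    (Poly.and (FP_flB hL hP hF hx hb hc hd) (FP_decB hM hL hP hF ha hb hc hd))))) (FP_decB hM hL hP hF ha hb hc hx)

theorem FP_inn {F : α → ℕ → Bool} (hM : Poly M) (hL : Poly L) (hP : Poly P) (hS : Poly S) (hF : Poly (fun q : α × ℕ => F q.1 q.2))
    (ha : Poly a) (hb : Poly b) (hc : Poly c) (hd : Poly d) :
    Poly (fun p => FP_in (M p) (L p) (P p) (S p) (F p) (a p) (b p) (c p) (d p)) := by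
  unfold FP_in
  have hF1 : Poly (fun q : (α × ℕ) × ℕ => F q.1.1 q.2) := hF.comp (f := fun q : (α × ℕ) × ℕ => (q.1.1, q.2)) (by fun_prop)
  have hF2 : Poly (fun q : ((α × ℕ) × ℕ) × ℕ => F q.1.1.1 q.2) :=
    hF.comp (f := fun q : ((α × ℕ) × ℕ) × ℕ => (q.1.1.1, q.2)) (by fun_prop)
  refine Poly.and (FP_some hM hL hP hF ha hb hc hd) (Poly.and (FP_nb hM hL hP hF ha hb hc hd) (Poly.and ?_ ?_))
  · refine Poly.all (f := S) (g := fun p x => trB (M p) (L p) (P p) (F p) (a p) (b p) (c p) (d p) x &&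
      kkB (M p) (L p) (P p) (F p) (a p) (b p) (c p) (d p) x) hS ?_
    exact Poly.and
      (FP_tr (M := fun q : α × ℕ => M q.1) (L := fun q : α × ℕ => L q.1) (P := fun q : α × ℕ => P q.1) (F := fun q : α × ℕ => F q.1)
        (a := fun q : α × ℕ => a q.1) (b := fun q : α × ℕ => b q.1) (c := fun q : α × ℕ => c q.1) (d := fun q : α × ℕ => d q.1)
        (x := fun q : α × ℕ => q.2) (by fun_prop) (by fun_prop) (by fun_prop) hF1 (by fun_prop) (by fun_prop) (by fun_prop)
        (by fun_prop) (by fun_prop))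
      (FP_kk (M := fun q : α × ℕ => M q.1) (L := fun q : α × ℕ => L q.1) (P := fun q : α × ℕ => P q.1) (F := fun q : α × ℕ => F q.1)
        (a := fun q : α × ℕ => a q.1) (b := fun q : α × ℕ => b q.1) (c := fun q : α × ℕ => c q.1) (d := fun q : α × ℕ => d q.1)
        (x := fun q : α × ℕ => q.2) (by fun_prop) (by fun_prop) (by fun_prop) hF1 (by fun_prop) (by fun_prop) (by fun_prop)
        (by fun_prop) (by fun_prop))
  · refine Poly.all (f := S) (g := fun p x => (S p).all fun y => feB (M p) (L p) (P p) (F p) (a p) (b p) (c p) (d p) x y) hS ?_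
    refine Poly.all (f := fun q : α × ℕ => S q.1) (g := fun (q : α × ℕ) y => feB (M q.1) (L q.1) (P q.1) (F q.1) (a q.1) (b q.1)
      (c q.1) (d q.1) q.2 y) (by fun_prop) ?_
    exact FP_fe (M := fun q : (α × ℕ) × ℕ => M q.1.1) (L := fun q : (α × ℕ) × ℕ => L q.1.1) (P := fun q : (α × ℕ) × ℕ => P q.1.1)
      (F := fun q : (α × ℕ) × ℕ => F q.1.1) (a := fun q : (α × ℕ) × ℕ => a q.1.1) (b := fun q : (α × ℕ) × ℕ => b q.1.1)
      (c := fun q : (α × ℕ) × ℕ => c q.1.1) (d := fun q : (α × ℕ) × ℕ => d q.1.1) (x := fun q : (α × ℕ) × ℕ => q.1.2)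
      (y := fun q : (α × ℕ) × ℕ => q.2) (by fun_prop) (by fun_prop) (by fun_prop) hF2 (by fun_prop) (by fun_prop) (by fun_prop)
      (by fun_prop) (by fun_prop) (by fun_prop)

theorem FP_lvB {F : α → ℕ → Bool} (hM : Poly M) (hL : Poly L) (hP : Poly P) (hS : Poly S) (hF : Poly (fun q : α × ℕ => F q.1 q.2)) :
    Poly (fun p => lvB (M p) (L p) (P p) (S p) (F p)) := by
  change Poly (fun p => (S p).all fun a => (S p).all fun b => (S p).all fun c => (S p).all fun d =>
    FP_in (M p) (L p) (P p) (S p) (F p) a b c d)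
  refine Poly.all (f := S) (g := fun p a => (S p).all fun b => (S p).all fun c => (S p).all fun d =>
    FP_in (M p) (L p) (P p) (S p) (F p) a b c d) hS ?_
  refine Poly.all (f := fun q : α × ℕ => S q.1) (g := fun (q : α × ℕ) b => (S q.1).all fun c => (S q.1).all fun d =>
    FP_in (M q.1) (L q.1) (P q.1) (S q.1) (F q.1) q.2 b c d) (by fun_prop) ?_
  refine Poly.all (f := fun q : (α × ℕ) × ℕ => S q.1.1) (g := fun (q : (α × ℕ) × ℕ) c => (S q.1.1).all fun d =>
    FP_in (M q.1.1) (L q.1.1) (P q.1.1) (S q.1.1) (F q.1.1) q.1.2 q.2 c d) (by fun_prop) ?_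
  refine Poly.all (f := fun q : ((α × ℕ) × ℕ) × ℕ => S q.1.1.1) (g := fun (q : ((α × ℕ) × ℕ) × ℕ) d =>
    FP_in (M q.1.1.1) (L q.1.1.1) (P q.1.1.1) (S q.1.1.1) (F q.1.1.1) q.1.1.2 q.1.2 q.2 d) (by fun_prop) ?_
  have hF4 : Poly (fun q : ((((α × ℕ) × ℕ) × ℕ) × ℕ) × ℕ => F q.1.1.1.1.1 q.2) :=
    hF.comp (f := fun q : ((((α × ℕ) × ℕ) × ℕ) × ℕ) × ℕ => (q.1.1.1.1.1, q.2)) (by fun_prop)
  exact FP_inn (M := fun q : (((α × ℕ) × ℕ) × ℕ) × ℕ => M q.1.1.1.1) (L := fun q : (((α × ℕ) × ℕ) × ℕ) × ℕ => L q.1.1.1.1)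
    (P := fun q : (((α × ℕ) × ℕ) × ℕ) × ℕ => P q.1.1.1.1) (S := fun q : (((α × ℕ) × ℕ) × ℕ) × ℕ => S q.1.1.1.1)
    (F := fun q : (((α × ℕ) × ℕ) × ℕ) × ℕ => F q.1.1.1.1) (a := fun q : (((α × ℕ) × ℕ) × ℕ) × ℕ => q.1.1.1.2)
    (b := fun q : (((α × ℕ) × ℕ) × ℕ) × ℕ => q.1.1.2) (c := fun q : (((α × ℕ) × ℕ) × ℕ) × ℕ => q.1.2)
    (d := fun q : (((α × ℕ) × ℕ) × ℕ) × ℕ => q.2) (by fun_prop) (by fun_prop) (by fun_prop) (by fun_prop) hF4 (by fun_prop)
    (by fun_prop) (by fun_prop) (by fun_prop)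

theorem FP_nodup (hL : Poly L) : Poly (fun p => decide (L p).Nodup) := by
  have h1 : Poly (fun p => (L p).all fun x => decide (((L p).filter fun y => y == x).length ≤ 1)) := by
    refine Poly.all (f := L) (g := fun p x => decide (((L p).filter fun y => y == x).length ≤ 1)) hL ?_
    have h2 : Poly (fun q : α × ℕ => (L q.1).filter fun y => y == q.2) := by
      have h3 : Poly (fun q : α × ℕ => (L q.1).filter fun y => decide (y = q.2)) :=
        Poly.filter (f := fun q : α × ℕ => L q.1) (g := fun (q : α × ℕ) y => decide (y = q.2)) (by fun_prop) (by fun_prop)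
      refine h3.congr (fun q => ?_)
      congr 1
    exact Poly.decideLe (by fun_prop) (by fun_prop)
  refine h1.congr (fun p => ?_)
  rw [Bool.eq_iff_iff, decide_eq_true_iff, List.all_eq_true, List.nodup_iff_count_le_one]
  constructor
  · intro h x
    by_cases hx : x ∈ L p
    · have := h x hx
      rw [decide_eq_true_iff] at this
      rwa [List.count, List.countP_eq_length_filter]
    · rw [List.count_eq_zero_of_not_mem hx]
      omega
  · intro h x _
    rw [decide_eq_true_iff]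
    have := h x
    rwa [List.count, List.countP_eq_length_filter] at this

/-- PROOF. rd sc r v = r.getD (sc.idxOf v) false. -/
theorem poly_rd (hs : Poly sc) (hr : Poly r) (hv : Poly v) : Poly (fun p => rd (sc p) (r p) (v p)) := by
  unfold rd
  exact Poly.getD hr (Poly.idxOf hv hs) (FP.Poly.const false)

/-- PROOF. Products and sums of numbers < n: cn is a polynomial in numbers; use the lemmas for add, mul (values bounded by a polynomial) as in other modules (Poly.mul needs a bound, look at SOC.AlgoPoly, SOB.PolS); min, max by ite. -/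
theorem poly_tv (hM : Poly M) (hs : Poly sc) (hr : Poly r) (ha : Poly a) (hb : Poly b) (hc : Poly c) (hd : Poly d) :
    Poly (fun p => tv (M p) (rd (sc p) (r p)) (a p) (b p) (c p) (d p)) :=
  FP_tv hM (F := fun p => rd (sc p) (r p)) (FP_rd hs hr) ha hb hc hd

/-- PROOF. Unfold lvB and the tests; Poly.all for S.all, polynomial time of the tests of SOV.Tst (poly_crB, poly_sqB, poly_k4B, poly_k5B, poly_k5fB) and poly_tv. -/
theorem poly_lvB (hM : Poly M) (hL : Poly L) (hP : Poly P) (hS : Poly S) (hs : Poly sc) (hr : Poly r) :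
    Poly (fun p => lvB (M p) (L p) (P p) (S p) (rd (sc p) (r p))) :=
  FP_lvB hM hL hP hS (F := fun p => rd (sc p) (r p)) (FP_rd hs hr)

theorem poly_scp (hM : Poly M) (hP : Poly P) (hS : Poly S) : Poly (fun p => scp (M p).length (P p) (S p)) := by
  unfold scp
  refine Poly.append (FP.Poly.map (f := S) (g := fun p x => fsN (P p) x) hS (poly_fsN (by fun_prop) (by fun_prop))) ?_
  refine Poly.flatMap (f := S) (g := fun p a => (S p).flatMap fun b => (S p).flatMap fun c => (S p).map fun d =>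
    (M p).length + cn (M p).length a b c d) hS ?_
  refine Poly.flatMap (f := fun q : α × ℕ => S q.1) (g := fun (q : α × ℕ) b => (S q.1).flatMap fun c => (S q.1).map fun d =>
    (M q.1).length + cn (M q.1).length q.2 b c d) (by fun_prop) ?_
  refine Poly.flatMap (f := fun q : (α × ℕ) × ℕ => S q.1.1) (g := fun (q : (α × ℕ) × ℕ) c => (S q.1.1).map fun d =>
    (M q.1.1).length + cn (M q.1.1).length q.1.2 q.2 c d) (by fun_prop) ?_
  refine FP.Poly.map (f := fun q : ((α × ℕ) × ℕ) × ℕ => S q.1.1.1) (g := fun (q : ((α × ℕ) × ℕ) × ℕ) d =>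
    (M q.1.1.1).length + cn (M q.1.1.1).length q.1.1.2 q.1.2 q.2 d) (by fun_prop) ?_
  exact Poly.add (by fun_prop) (FP_cn (by fun_prop) (by fun_prop) (by fun_prop) (by fun_prop) (by fun_prop))

theorem poly_six (hL : Poly L) : Poly (fun p => six (L p)) := by
  unfold six
  refine Poly.filter (f := fun p => (L p).flatMap fun a => (L p).flatMap fun b => (L p).flatMap fun c => (L p).flatMap fun d =>
    (L p).flatMap fun e => (L p).map fun x => [a, b, c, d, e, x]) (g := fun _ S => decide S.Nodup) ?_ (FP_nodup (by fun_prop))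
  refine Poly.flatMap (f := L) (g := fun p a => (L p).flatMap fun b => (L p).flatMap fun c => (L p).flatMap fun d =>
    (L p).flatMap fun e => (L p).map fun x => [a, b, c, d, e, x]) hL ?_
  refine Poly.flatMap (f := fun q : α × ℕ => L q.1) (g := fun (q : α × ℕ) b => (L q.1).flatMap fun c => (L q.1).flatMap fun d =>
    (L q.1).flatMap fun e => (L q.1).map fun x => [q.2, b, c, d, e, x]) (by fun_prop) ?_
  refine Poly.flatMap (f := fun q : (α × ℕ) × ℕ => L q.1.1) (g := fun (q : (α × ℕ) × ℕ) c => (L q.1.1).flatMap fun d =>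
    (L q.1.1).flatMap fun e => (L q.1.1).map fun x => [q.1.2, q.2, c, d, e, x]) (by fun_prop) ?_
  refine Poly.flatMap (f := fun q : ((α × ℕ) × ℕ) × ℕ => L q.1.1.1) (g := fun (q : ((α × ℕ) × ℕ) × ℕ) d =>
    (L q.1.1.1).flatMap fun e => (L q.1.1.1).map fun x => [q.1.1.2, q.1.2, q.2, d, e, x]) (by fun_prop) ?_
  refine Poly.flatMap (f := fun q : (((α × ℕ) × ℕ) × ℕ) × ℕ => L q.1.1.1.1) (g := fun (q : (((α × ℕ) × ℕ) × ℕ) × ℕ) e =>
    (L q.1.1.1.1).map fun x => [q.1.1.1.2, q.1.1.2, q.1.2, q.2, e, x]) (by fun_prop) ?_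
  refine FP.Poly.map (f := fun q : ((((α × ℕ) × ℕ) × ℕ) × ℕ) × ℕ => L q.1.1.1.1.1) (g := fun (q : ((((α × ℕ) × ℕ) × ℕ) × ℕ) × ℕ) x =>
    [q.1.1.1.1.2, q.1.1.1.2, q.1.1.2, q.1.2, q.2, x]) (by fun_prop) ?_
  fun_prop

theorem FP_con (A : List (List Bool)) (hM : Poly M) (hL : Poly L) (hP : Poly P) (hS : Poly S) :
    Poly (fun p => con A (scp (M p).length (P p) (S p)) (lvB (M p) (L p) (P p) (S p))) := by
  unfold con
  have hsc := poly_scp hM hP hS
  refine Poly.pair hsc ?_
  refine Poly.filter (f := fun _ => A) (g := fun p r => decide ((scp (M p).length (P p) (S p)).map (rd (scp (M p).length (P p) (S p)) r) = r) &&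
    lvB (M p) (L p) (P p) (S p) (rd (scp (M p).length (P p) (S p)) r)) (FP.Poly.const A) ?_
  have hsc1 : Poly (fun q : α × List Bool => scp (M q.1).length (P q.1) (S q.1)) := hsc.comp Poly.fst'
  have h1 : Poly (fun q : α × List Bool => (scp (M q.1).length (P q.1) (S q.1)).map (rd (scp (M q.1).length (P q.1) (S q.1)) q.2)) := by
    refine FP.Poly.map (f := fun q : α × List Bool => scp (M q.1).length (P q.1) (S q.1))
      (g := fun (q : α × List Bool) v => rd (scp (M q.1).length (P q.1) (S q.1)) q.2 v) hsc1 ?_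
    exact FP_rd (sc := fun q : α × List Bool => scp (M q.1).length (P q.1) (S q.1)) (r := fun q : α × List Bool => q.2) hsc1 (by fun_prop)
  refine Poly.and (Poly.decideEq h1 (by fun_prop)) ?_
  exact poly_lvB (M := fun q : α × List Bool => M q.1) (L := fun q : α × List Bool => L q.1) (P := fun q : α × List Bool => P q.1)
    (S := fun q : α × List Bool => S q.1) (sc := fun q : α × List Bool => scp (M q.1).length (P q.1) (S q.1))
    (r := fun q : α × List Bool => q.2) (by fun_prop) (by fun_prop) (by fun_prop) (by fun_prop) hsc1 (by fun_prop)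

/-- PROOF. allB lsc is a constant list (Poly.const, never unfold it); List.map over six, filter over the constant list: poly_lvB with p := (input, S), r := the element. Then poly_solveC of SOB.PolS; nvF M = n + n ^ 4 is polynomially bounded (PolyBdd). -/
theorem poly_flipSol (hM : Poly M) (hL : Poly L) (hP : Poly P) : Poly (fun p => flipSol (M p) (L p) (P p)) := by
  unfold flipSol sysF
  have hn : Poly (fun p => nvF (M p)) := by
    unfold nvF
    exact Poly.add (by fun_prop) (Poly.pow (by fun_prop) (FP.Poly.const 4) (PolyBdd.const 4))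
  have hb : PolyBdd (fun p => nvF (M p)) := by
    unfold nvF
    exact PolyBdd.add (PolyBdd.length hM) (PolyBdd.pow (PolyBdd.length hM) 4)
  refine poly_solveC hn hb ?_
  refine FP.Poly.map (f := fun p => six (L p)) (g := fun p S => con (allB lsc) (scp (M p).length (P p) S) (lvB (M p) (L p) (P p) S))
    (poly_six hL) ?_
  exact FP_con (allB lsc) (M := fun q : α × List ℕ => M q.1) (L := fun q : α × List ℕ => L q.1) (P := fun q : α × List ℕ => P q.1)
    (S := fun q : α × List ℕ => q.2) (by fun_prop) (by fun_prop) (by fun_prop) (by fun_prop)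

/-- PROOF. List.map with sgN: the value val u x = decide (2 * x ∈ u). -/
theorem poly_ordF {u : α → List ℕ} (hL : Poly L) (hP : Poly P) (hu : Poly u) : Poly (fun p => ordF (L p) (P p) (u p)) := by
  unfold ordF
  refine FP.Poly.map (f := L) (g := fun p x => sgN (P p) (val (u p)) x) hL ?_
  exact FP_sgN (P := fun q : α × ℕ => P q.1) (F := fun q : α × ℕ => val (u q.1)) (a := fun q : α × ℕ => q.2) (by fun_prop)
    (poly_val (by fun_prop) (by fun_prop)) (by fun_prop)

end Pool.Agent.SOX
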