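import Pool.Agent.SOX.FB

/-! Project SOX (MP_66ba69_lc, the rigid step: orders with flippable pairs), module FA (size 3): the flipped crossing relation.
-/

set_option autoImplicit false

namespace Pool.Agent.SOX

open Pool.Agent.SOC Pool.Agent.SOD Pool.Agent.SOS Pool.Agent.RUP Pool.Agent.SOF Pool.Agent.SOV Pool.Agent.SOB FP

variable {V : Type} {G : SimpleGraph V} {X T : V → V → V → V → Prop} {t : V → V → V → V → Prop} {pt : V → V} {D : V → Bool}

/-- the relation under the symmetries -/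
theorem FA_sw (h : Sepr X) {a b c d : V} : X a b c d ↔ X b a c d := ⟨h.swap, h.swap⟩

theorem FA_cm (h : Sepr X) {a b c d : V} : X a b c d ↔ X c d a b := ⟨h.comm, h.comm⟩

theorem FA_sw2 (h : Sepr X) {a b c d : V} : X a b c d ↔ X a b d c :=
  ⟨fun k => h.comm (h.swap (h.comm k)), fun k => h.comm (h.swap (h.comm k))⟩

theorem FA_ne (h : Sepr X) {a b c d : V} (k : X a b c d) : a ≠ b ∧ a ≠ c ∧ a ≠ d ∧ b ≠ c ∧ b ≠ d ∧ c ≠ d :=
  ⟨(h.dist k).1, (h.dist k).2, (h.dist ((FA_sw2 h).1 k)).2, (h.dist (h.swap k)).2,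
    (h.dist ((FA_sw2 h).1 (h.swap k))).2, (h.dist (h.comm k)).1⟩

theorem FA_tri (h : Sepr X) {a b c d : V} (h1 : a ≠ b) (h2 : a ≠ c) (h3 : a ≠ d) (h4 : b ≠ c) (h5 : b ≠ d) (h6 : c ≠ d)
    (hn : ¬ X a b c d) : X a d b c ↔ ¬ X a c b d := by
  constructor
  · intro k1 k2
    exact h.amo ((FA_sw2 h).1 k2) ((FA_sw2 h).1 k1)
  · intro k
    rcases h.one h1 h2 h3 h4 h5 h6 with k1 | k1 | k1
    · exact absurd k1 hn
    · exact absurd k1 k
    · exact k1

/-- PROOF. Cases D x; D (pt x) = D x (hD), pt (pt x) = x. -/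
theorem sg_sg (h : Ptn X pt) (hD : Cst pt D) (x : V) : sg pt D (sg pt D x) = x := by
  unfold sg
  by_cases hx : D x = true
  · rw [if_pos hx, if_pos (by rw [hD x]; exact hx)]
    exact h.inv x
  · rw [if_neg hx, if_neg hx]

/-- PROOF. Apply sg to both sides, sg_sg. -/
theorem sg_inj (h : Ptn X pt) (hD : Cst pt D) {x y : V} (e : sg pt D x = sg pt D y) : x = y := by
  rw [← sg_sg h hD x, e, sg_sg h hD y]

theorem FA_sgf {x : V} (hx : D x = false) : sg pt D x = x := by
  unfold sg
  rw [if_neg (by rw [hx]; simp)]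

theorem FA_sgt {x : V} (hx : D x = true) : sg pt D x = pt x := by
  unfold sg
  rw [if_pos hx]

/-- PROOF. sep: every field from h.sep, the inequalities with sg_inj (dist: congrArg). inv: h.inv. cons: sg (pt x) is pt x if D x = false (then sg x = x) and pt (pt x) = x if D x = true (then sg x = pt x): h.cons x and h.sep.swap. -/
theorem ptn_fl (h : Ptn X pt) (hD : Cst pt D) : Ptn (fl X pt D) pt where
  sep :=
    { swap := fun k => h.sep.swap k
      comm := fun k => h.sep.comm k
      dist := fun k => ⟨fun e => (h.sep.dist k).1 (congrArg _ e), fun e => (h.sep.dist k).2 (congrArg _ e)⟩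
      one := fun h1 h2 h3 h4 h5 h6 => h.sep.one (fun e => h1 (sg_inj h hD e)) (fun e => h2 (sg_inj h hD e))
        (fun e => h3 (sg_inj h hD e)) (fun e => h4 (sg_inj h hD e)) (fun e => h5 (sg_inj h hD e))
        (fun e => h6 (sg_inj h hD e))
      amo := fun k => h.sep.amo k
      add := fun k k' => h.sep.add k k'
      add2 := fun k h1 h2 h3 h4 => h.sep.add2 k (fun e => h1 (sg_inj h hD e)) (fun e => h2 (sg_inj h hD e))
        (fun e => h3 (sg_inj h hD e)) (fun e => h4 (sg_inj h hD e)) }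
  inv := h.inv
  cons := by
    intro x c d k
    unfold fl at k
    cases hx : D x
    · rw [FA_sgf hx, FA_sgf (show D (pt x) = false by rw [hD x]; exact hx)] at k
      exact h.cons _ _ _ k
    · rw [FA_sgt hx, FA_sgt (show D (pt x) = true by rw [hD x]; exact hx)] at k
      exact h.cons _ _ _ k

theorem FA_rep (h : Ptn X pt) {a b c d : V} (h1 : pt a ≠ b) (h2 : pt a ≠ c) (h3 : pt a ≠ d) (k : X a b c d) :
    X (pt a) b c d := by
  by_cases ha : a = pt a
  · rw [← ha]
    exact k
  · rcases h.sep.add2 (h.sep.comm (h.sep.swap k)) ha (Ne.symm h1) (Ne.symm h2) (Ne.symm h3) with k1 | k1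
    · exact absurd (h.sep.comm k1) (h.cons _ _ _)
    · exact h.sep.swap (h.sep.comm k1)

/-- PROOF. X p b c d implies that p, b, c, d are different (dist, swap, comm). (←) Let X a b c d; by symmetry (comm) X c d b a; add2 for the chord c d and the points b, a, with the new point pt a (different from c, d, b, and from a or else pt a = a and there is nothing to prove): X c d b (pt a) or X c d a (pt a); the second contradicts h.cons (comm, swap). (→) The same with the roles of a and pt a exchanged (h.inv). -/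
theorem ptn_repl (h : Ptn X pt) {a b c d : V} (h1 : pt a ≠ b) (h2 : pt a ≠ c) (h3 : pt a ≠ d) (h4 : a ≠ b) (h5 : a ≠ c) (h6 : a ≠ d) :
    X (pt a) b c d ↔ X a b c d := by
  constructor
  · intro k
    have e := h.inv a
    have k' := FA_rep h (a := pt a) (b := b) (c := c) (d := d) (by rw [e]; exact h4) (by rw [e]; exact h5)
      (by rw [e]; exact h6) k
    rw [e] at k'
    exact k'
  · exact FA_rep h h1 h2 h3

theorem FA_nsg (h : Ptn X pt) {a b : V} (hab : a ≠ b) (hp : pt a ≠ b) : a ≠ sg pt D b ∧ pt a ≠ sg pt D b := by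
  cases hb : D b
  · rw [FA_sgf hb]
    exact ⟨hab, hp⟩
  · rw [FA_sgt hb]
    refine ⟨fun e => hp ?_, fun e => hab ?_⟩
    · rw [e]
      exact h.inv b
    · rw [← h.inv a, e, h.inv b]

theorem FA_rsg (h : Ptn X pt) {a b c d : V} (h1 : pt a ≠ b) (h2 : pt a ≠ c) (h3 : pt a ≠ d) (h4 : a ≠ b) (h5 : a ≠ c) (h6 : a ≠ d) :
    X (sg pt D a) b c d ↔ X a b c d := by
  cases ha : D a
  · rw [FA_sgf ha]
  · rw [FA_sgt ha]
    exact ptn_repl h h1 h2 h3 h4 h5 h6

theorem FA_pne (h : Ptn X pt) {a b : V} (hp : pt a ≠ b) : pt b ≠ a := by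
  intro e
  apply hp
  rw [← e]
  exact h.inv b

/-- PROOF. If two of the points are equal both sides are false (h.sep.dist, swap, comm; for the left side with (ptn_fl h hD).sep). Otherwise replace the points one after the other (ptn_repl, swap, comm): sg pt D x is x or pt x. NP and h.inv give all inequalities needed (pt a = pt b is impossible for a ≠ b, since pt is an involution; pt b = a would give pt a = b). -/
theorem fl_np (h : Ptn X pt) (hD : Cst pt D) {a b c d : V} (hn : NP pt a b c d) : fl X pt D a b c d ↔ X a b c d := by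
  obtain ⟨n1, n2, n3, n4, n5, n6⟩ := hn
  have key : ∀ (_ : a ≠ b) (_ : a ≠ c) (_ : a ≠ d) (_ : b ≠ c) (_ : b ≠ d) (_ : c ≠ d),
      (fl X pt D a b c d ↔ X a b c d) := by
    intro h1 h2 h3 h4 h5 h6
    unfold fl
    have ab := FA_nsg (D := D) h h1 n1
    have ac := FA_nsg (D := D) h h2 n2
    have ad := FA_nsg (D := D) h h3 n3
    have bc := FA_nsg (D := D) h h4 n4
    have bd := FA_nsg (D := D) h h5 n5
    have cd := FA_nsg (D := D) h h6 n6
    rw [FA_rsg h ab.2 ac.2 ad.2 ab.1 ac.1 ad.1, FA_sw h.sep,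
      FA_rsg h (FA_pne h n1) bc.2 bd.2 (Ne.symm h1) bc.1 bd.1, FA_sw h.sep, FA_cm h.sep,
      FA_rsg h cd.2 (FA_pne h n2) (FA_pne h n4) cd.1 (Ne.symm h2) (Ne.symm h4), FA_sw h.sep,
      FA_rsg h (FA_pne h n6) (FA_pne h n3) (FA_pne h n5) (Ne.symm h6) (Ne.symm h3) (Ne.symm h5), FA_sw h.sep,
      FA_cm h.sep]
  constructor
  · intro k
    obtain ⟨h1, h2, h3, h4, h5, h6⟩ := FA_ne (ptn_fl h hD).sep k
    exact (key h1 h2 h3 h4 h5 h6).1 k
  · intro k
    obtain ⟨h1, h2, h3, h4, h5, h6⟩ := FA_ne h.sep k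
    exact (key h1 h2 h3 h4 h5 h6).2 k

/-- PROOF. a, pt a, c, d are different. D a = false: sg a = a, sg (pt a) = pt a; replace c and d (ptn_repl, c and d are not partners of each other or of a). D a = true: sg a = pt a, sg (pt a) = a: the left side is X (pt a) c a d; exactly one of X a (pt a) c d (false, cons), X a c (pt a) d, X a d (pt a) c holds (one, amo); X (pt a) c a d is X a d (pt a) c by symmetry. -/
theorem fl_pr (h : Ptn X pt) (hD : Cst pt D) {a c d : V} (ha : pt a ≠ a) (hac : a ≠ c) (had : a ≠ d) (hac' : pt a ≠ c) (had' : pt a ≠ d)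
    (hcd : c ≠ d) (hp : pt c ≠ d) : fl X pt D a c (pt a) d ↔ (X a c (pt a) d ↔ D a = false) := by
  unfold fl
  have hca : pt c ≠ a := FA_pne h hac'
  have hda : pt d ≠ a := FA_pne h had'
  have hdc : pt d ≠ c := FA_pne h hp
  have hcp : pt c ≠ pt a := fun e => hac (by rw [← h.inv a, ← e, h.inv c])
  have hdp : pt d ≠ pt a := fun e => had (by rw [← h.inv a, ← e, h.inv d])
  cases hda' : D a
  · rw [FA_sgf hda', FA_sgf (show D (pt a) = false by rw [hD a]; exact hda')]
    have cd := FA_nsg (D := D) h hcd hp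
    have e : X a (sg pt D c) (pt a) (sg pt D d) ↔ X a c (pt a) d := by
      rw [FA_sw h.sep, FA_rsg h hca hcp cd.2 (Ne.symm hac) (Ne.symm hac') cd.1, FA_sw h.sep, FA_cm h.sep, FA_sw h.sep,
        FA_rsg h hdp hda hdc (Ne.symm had') (Ne.symm had) (Ne.symm hcd), FA_sw h.sep, FA_cm h.sep]
    rw [e]
    simp
  · rw [FA_sgt hda', FA_sgt (show D (pt a) = true by rw [hD a]; exact hda'), h.inv a]
    have cd := FA_nsg (D := D) h hcd hp
    have e : X (pt a) (sg pt D c) a (sg pt D d) ↔ X (pt a) c a d := by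
      rw [FA_sw h.sep, FA_rsg h hcp hca cd.2 (Ne.symm hac') (Ne.symm hac) cd.1, FA_sw h.sep, FA_cm h.sep, FA_sw h.sep,
        FA_rsg h hda hdp hdc (Ne.symm had) (Ne.symm had') (Ne.symm hcd), FA_sw h.sep, FA_cm h.sep]
    rw [e, FA_cm h.sep, FA_tri h.sep (Ne.symm ha) hac had hac' had' hcd (h.cons a c d)]
    simp

/-- PROOF. Four cases for D a, D c, as in fl_pr: the left side is X a c (pt a) (pt c), or (D a only) X (pt a) c a (pt c), or (D c only) X a (pt c) (pt a) c, or X (pt a) (pt c) a c, which is X a c (pt a) (pt c) by symmetry (comm). The second and third are X a (pt c) (pt a) c by symmetry. a pt a | c pt c do not cross (cons), one and amo: exactly one of X a c (pt a) (pt c), X a (pt c) (pt a) c. -/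
theorem fl_pr2 (h : Ptn X pt) (hD : Cst pt D) {a c : V} (ha : pt a ≠ a) (hc : pt c ≠ c) (hac : a ≠ c) (hac' : pt a ≠ c) :
    fl X pt D a c (pt a) (pt c) ↔ (X a c (pt a) (pt c) ↔ D a = D c) := by
  unfold fl
  have hca : pt c ≠ a := FA_pne h hac'
  have hcp : pt a ≠ pt c := fun e => hac (by rw [← h.inv a, e, h.inv c])
  have tri := FA_tri h.sep (Ne.symm ha) hac (Ne.symm hca) hac' hcp (Ne.symm hc) (h.cons a c (pt c))
  cases hda : D a <;> cases hdc : D c
  · rw [FA_sgf hda, FA_sgf (show D (pt a) = false by rw [hD a]; exact hda), FA_sgf hdc,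
      FA_sgf (show D (pt c) = false by rw [hD c]; exact hdc)]
    simp
  · rw [FA_sgf hda, FA_sgf (show D (pt a) = false by rw [hD a]; exact hda), FA_sgt hdc,
      FA_sgt (show D (pt c) = true by rw [hD c]; exact hdc), h.inv c, tri]
    simp
  · rw [FA_sgt hda, FA_sgt (show D (pt a) = true by rw [hD a]; exact hda), FA_sgf hdc,
      FA_sgf (show D (pt c) = false by rw [hD c]; exact hdc), h.inv a, FA_cm h.sep, tri]
    simp
  · rw [FA_sgt hda, FA_sgt (show D (pt a) = true by rw [hD a]; exact hda), FA_sgt hdc,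
      FA_sgt (show D (pt c) = true by rw [hD c]; exact hdc), h.inv a, h.inv c, FA_cm h.sep]
    simp

end Pool.Agent.SOX
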