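import Pool.Agent.SOX.FDefs
import Pool.Agent.SOV.TstOk
import Pool.Agent.SOB.Sol

/-! Project SOX (MP_66ba69_lc, the rigid step), module FB (size 0): orders with flippable pairs, the Boolean functions. `M` matrix, `L` the base order
(a list of vertices), `P` the list of the flippable pairs, `f` assignment: variable `a` for the pair `(a, b)`, variable
`n + cn n a b c d` for the quartet `ab|cd`, where `n = M.length`. -/

set_option autoImplicit false

namespace Pool.Agent.SOX

open Pool.Agent.SOC Pool.Agent.SOS Pool.Agent.SOV Pool.Agent.SOB FP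

/-- the partner -/
def ptN (P : List (ℕ × ℕ)) (x : ℕ) : ℕ :=
  ((P.filter (fun p => decide (p.1 = x))).map Prod.snd ++ ((P.filter (fun p => decide (p.2 = x))).map Prod.fst ++ [x])).headD x

/-- the first element of the pair of `x`, or `x` itself -/
def fsN (P : List (ℕ × ℕ)) (x : ℕ) : ℕ := ((P.filter (fun p => decide (p.2 = x))).map Prod.fst ++ [x]).headD x

/-- exchange of the pairs -/
def sgN (P : List (ℕ × ℕ)) (f : ℕ → Bool) (x : ℕ) : ℕ := if f (fsN P x) then ptN P x else x

/-- code of four numbers -/
def cd4 (n a b c d : ℕ) : ℕ := ((a * n + b) * n + c) * n + d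

/-- the number of the quartet -/
def cn (n a b c d : ℕ) : ℕ :=
  if min a b ≤ min c d then cd4 n (min a b) (max a b) (min c d) (max c d) else cd4 n (min c d) (max c d) (min a b) (max a b)

/-- the variable of the quartet -/
def tv (M : List (List Bool)) (f : ℕ → Bool) (a b c d : ℕ) : Bool := f (M.length + cn M.length a b c d)

/-- crossing after the exchange -/
def flB (L : List ℕ) (P : List (ℕ × ℕ)) (f : ℕ → Bool) (a b c d : ℕ) : Bool :=
  crB L (sgN P f a) (sgN P f b) (sgN P f c) (sgN P f d)

/-- `NP` -/
def npB (P : List (ℕ × ℕ)) (a b c d : ℕ) : Bool :=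
  decide (ptN P a ≠ b) && (decide (ptN P a ≠ c) && (decide (ptN P a ≠ d) && (decide (ptN P b ≠ c) && (decide (ptN P b ≠ d) &&
    decide (ptN P c ≠ d)))))

/-- `Dec` -/
def decB (M : List (List Bool)) (L : List ℕ) (P : List (ℕ × ℕ)) (f : ℕ → Bool) (a b c d : ℕ) : Bool :=
  decide (a ≠ b) && (decide (c ≠ d) && (sqB M a b c d && (!(flB L P f a b c d) && (!(k4B M a b c d) ||
    ((!(decide (ptN P a = b) || decide (ptN P c = d)) || tv M f a b c d) &&
    ((!(decide (ptN P a = c) || decide (ptN P b = d)) || !(tv M f a c b d)) &&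
    ((!(decide (ptN P a = d) || decide (ptN P b = c)) || !(tv M f a d b c)) && (!(npB P a b c d) || tv M f a b c d))))))))

/-- crossing edges -/
def someB (M : List (List Bool)) (L : List ℕ) (P : List (ℕ × ℕ)) (f : ℕ → Bool) (a b c d : ℕ) : Bool :=
  !(adjB M a c && (adjB M b d && (decide (a ≠ b) && (decide (a ≠ d) && (decide (b ≠ c) && (decide (c ≠ d) && flB L P f a c b d)))))) ||
    (decB M L P f a b c d || decB M L P f a d b c)

/-- not both -/
def nbB (M : List (List Bool)) (L : List ℕ) (P : List (ℕ × ℕ)) (f : ℕ → Bool) (a b c d : ℕ) : Bool :=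
  !(decB M L P f a b c d && decB M L P f a d b c)

/-- transitivity -/
def trB (M : List (List Bool)) (L : List ℕ) (P : List (ℕ × ℕ)) (f : ℕ → Bool) (u w x y z : ℕ) : Bool :=
  !(k5fB M [u, w, x, y, z] && (decB M L P f u w x y && (decB M L P f u w y z && decide (x ≠ z)))) || decB M L P f u w x z

/-- Ferrers -/
def feB (M : List (List Bool)) (L : List ℕ) (P : List (ℕ × ℕ)) (f : ℕ → Bool) (a b x y x' y' : ℕ) : Bool :=
  !(k5fB M [a, b, x, y, x', y'] && (decB M L P f a x b y && decB M L P f a x' b y')) ||
    (decB M L P f a x b y' || decB M L P f a x' b y)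

/-- the condition for complete graphs on five vertices -/
def kkB (M : List (List Bool)) (L : List ℕ) (P : List (ℕ × ℕ)) (f : ℕ → Bool) (a b c d x : ℕ) : Bool :=
  !(k5B M a b c d x && (flB L P f x a c d && (flB L P f x b c d && decB M L P f a b c d))) || decB M L P f a b c x

/-- all axioms for the points in `S` -/
def lvB (M : List (List Bool)) (L : List ℕ) (P : List (ℕ × ℕ)) (S : List ℕ) (f : ℕ → Bool) : Bool :=
  S.all fun a => S.all fun b => S.all fun c => S.all fun d =>
    someB M L P f a b c d && (nbB M L P f a b c d && ((S.all fun x => trB M L P f a b c d x && kkB M L P f a b c d x) &&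
      (S.all fun x => S.all fun y => feB M L P f a b c d x y)))

/-- the scope: all variables for the points in `S` -/
def scp (n : ℕ) (P : List (ℕ × ℕ)) (S : List ℕ) : List ℕ :=
  S.map (fsN P) ++ S.flatMap fun a => S.flatMap fun b => S.flatMap fun c => S.map fun d => n + cn n a b c d

/-- all lists of six different elements -/
def six (L : List ℕ) : List (List ℕ) :=
  (L.flatMap fun a => L.flatMap fun b => L.flatMap fun c => L.flatMap fun d => L.flatMap fun e => L.map fun x =>
    [a, b, c, d, e, x]).filter fun S => decide S.Nodup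

/-- all tuples of length `k` -/
def allB : ℕ → List (List Bool)
  | 0 => [[]]
  | k + 1 => (allB k).flatMap fun r => [true :: r, false :: r]

/-- the assignment given by a tuple -/
def rd (sc : List ℕ) (r : List Bool) (v : ℕ) : Bool := r.getD (sc.idxOf v) false

/-- the constraint with scope `sc` given by the test `p`; `A` is the list of all tuples -/
def con (A : List (List Bool)) (sc : List ℕ) (p : (ℕ → Bool) → Bool) : Con :=
  (sc, A.filter fun r => decide (sc.map (rd sc r) = r) && p (rd sc r))

/-- length of the scope for six points -/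
def lsc : ℕ := 1302

/-- the system of all constraints -/
def sysF (M : List (List Bool)) (L : List ℕ) (P : List (ℕ × ℕ)) : List Con :=
  (six L).map fun S => con (allB lsc) (scp M.length P S) (lvB M L P S)

/-- number of variables -/
def nvF (M : List (List Bool)) : ℕ := M.length + M.length ^ 4

/-- THE SOLVER for orders with flippable pairs: the list of true literals -/
def flipSol (M : List (List Bool)) (L : List ℕ) (P : List (ℕ × ℕ)) : Option (List ℕ) := solveC (nvF M) (sysF M L P)

/-- the order found -/
def ordF (L : List ℕ) (P : List (ℕ × ℕ)) (u : List ℕ) : List ℕ := L.map (sgN P (val u))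

/-- the pairs are disjoint pairs of consecutive elements of the list -/
structure Prs (L : List ℕ) (P : List (ℕ × ℕ)) : Prop where
  cons : ∀ p ∈ P, ∃ u v, L = u ++ p.1 :: p.2 :: v
  dis : ∀ p ∈ P, ∀ q ∈ P, p.1 = q.1 ∨ p.1 = q.2 ∨ p.2 = q.2 → p = q

end Pool.Agent.SOX
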