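import Pool.Agent.SOX.FA

/-! Project SOX (MP_66ba69_lc, the rigid step: orders with flippable pairs), module FC (size 3): the decoded structure.
-/

set_option autoImplicit false

namespace Pool.Agent.SOX

open Pool.Agent.SOC Pool.Agent.SOD Pool.Agent.SOS Pool.Agent.RUP Pool.Agent.SOF Pool.Agent.SOV Pool.Agent.SOB FP

variable {V : Type} {G : SimpleGraph V} {X T : V → V → V → V → Prop} {t : V → V → V → V → Prop} {pt : V → V} {D : V → Bool}

theorem FC_ptn (h : Ptn X pt) {a b : V} (e : pt a = b) : pt b = a := by
  rw [← e]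
  exact h.inv a

theorem FC_k4s1 {a b c d : V} (k : K4 G b a c d) : K4 G a b c d :=
  ⟨k.1.symm, k.2.2.2.1, k.2.2.2.2.1, k.2.1, k.2.2.1, k.2.2.2.2.2⟩

theorem FC_k4s2 {a b c d : V} (k : K4 G c d a b) : K4 G a b c d :=
  ⟨k.2.2.2.2.2, k.2.1.symm, k.2.2.2.1.symm, k.2.2.1.symm, k.2.2.2.2.1.symm, k.1⟩

theorem FC_nps1 (h : Ptn X pt) {a b c d : V} (k : NP pt b a c d) : NP pt a b c d :=
  ⟨fun e => k.1 (FC_ptn h e), k.2.2.2.1, k.2.2.2.2.1, k.2.1, k.2.2.1, k.2.2.2.2.2⟩

theorem FC_nps2 (h : Ptn X pt) {a b c d : V} (k : NP pt c d a b) : NP pt a b c d :=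
  ⟨k.2.2.2.2.2, fun e => k.2.1 (FC_ptn h e), fun e => k.2.2.2.1 (FC_ptn h e), fun e => k.2.2.1 (FC_ptn h e),
    fun e => k.2.2.2.2.1 (FC_ptn h e), k.1⟩

/-- PROOF. All fields of Dec are symmetric: sq (the four adjacencies), nc ((ptn_fl h hD).sep.swap / comm), K4 is symmetric (G.symm), pt a = b ↔ pt b = a (h.inv); ht.1, ht.2 for t (two for b a c d is thr for a b c d: pt b = c ∨ pt a = d: not t b c a d, that is not t a d b c by symmetry). non: NP is symmetric. -/
theorem dec_sw1 (h : Ptn X pt) (hD : Cst pt D) (ht : Sy t) {a b c d : V} (hd : Dec G X pt D t a b c d) : Dec G X pt D t b a c d := {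
    ab := hd.ab.symm
    cd := hd.cd
    sq := ⟨hd.sq.2.2.1, hd.sq.2.2.2, hd.sq.1, hd.sq.2.1⟩
    nc := fun k => hd.nc ((ptn_fl h hD).sep.swap k)
    one := fun k e => ht.1 _ _ _ _ (hd.one (FC_k4s1 k) (e.imp (FC_ptn h) id))
    two := fun k e j => hd.thr (FC_k4s1 k) e.symm (ht.2 _ _ _ _ j)
    thr := fun k e j => hd.two (FC_k4s1 k) e.symm (ht.2 _ _ _ _ j)
    non := fun k e => ht.1 _ _ _ _ (hd.non (FC_k4s1 k) (FC_nps1 h e)) }

/-- PROOF. As dec_sw1: two for c d a b: pt c = a ∨ pt d = b: not t c a d b, that is not t a c b d. -/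
theorem dec_sw2 (h : Ptn X pt) (hD : Cst pt D) (ht : Sy t) {a b c d : V} (hd : Dec G X pt D t a b c d) : Dec G X pt D t c d a b := {
    ab := hd.cd
    cd := hd.ab
    sq := ⟨hd.sq.1.symm, hd.sq.2.2.1.symm, hd.sq.2.1.symm, hd.sq.2.2.2.symm⟩
    nc := fun k => hd.nc ((ptn_fl h hD).sep.comm k)
    one := fun k e => ht.2 _ _ _ _ (hd.one (FC_k4s2 k) e.symm)
    two := fun k e j => hd.two (FC_k4s2 k) (e.imp (FC_ptn h) (FC_ptn h))
      (ht.2 _ _ _ _ (ht.1 _ _ _ _ (ht.2 _ _ _ _ (ht.1 _ _ _ _ j))))
    thr := fun k e j => hd.thr (FC_k4s2 k) (e.symm.imp (FC_ptn h) (FC_ptn h))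
      (ht.2 _ _ _ _ (ht.1 _ _ _ _ (ht.2 _ _ _ _ (ht.1 _ _ _ _ (ht.2 _ _ _ _ j)))))
    non := fun k e => ht.2 _ _ _ _ (hd.non (FC_k4s2 k) (FC_nps2 h e)) }

/-- PROOF. (→) Fields: ab = hq.ne, cd = hq.ne of the swapped, sq = QF.adj4, nc = hq.nocross, one and non: the assumption itself. two: T a b c d and T a c b d: hq.swap: T a b d c, hq.notboth (T a b d c → not T a c b d). thr: hq.notboth. (←) Not K4: a, b, c, d are different (Sq and ab, cd). Sepr.one for (ptn_fl h hD).sep: not fl a b c d (nc), so fl a c b d or fl a d b c.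
fl a c b d: hq.some (edges ac, bd): T a b c d or T a d b c; the second and Sq give K4 (QF.adj4). fl a d b c: hq.some for (a, b, d, c): edges ad, bc, T a b d c or T a c b d, the second gives K4; QF.sw3. K4: if NP: hd.non. If pt a = b or pt c = d: hd.one. If pt a = c or pt b = d: the chords ac | bd do not cross ((ptn_fl h hD).cons, comm), so fl a d b c: hq.some for (a, b, d, c): T a b d c or T a c b d,
the second contradicts hd.two. If pt a = d or pt b = c: fl a c b d: T a b c d or T a d b c, the second contradicts hd.thr. (Not NP gives one of the six equations; pt a = b etc.) -/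
theorem dec_enc (h : Ptn X pt) (hD : Cst pt D) (hq : QF G (fl X pt D) T) {a b c d : V} : T a b c d ↔ Dec G X pt D T a b c d := by
  constructor
  · intro k
    exact
      { ab := hq.ne k
        cd := hq.ne' k
        sq := hq.adj4 k
        nc := hq.nocross k
        one := fun _ _ => k
        two := fun _ _ j => hq.notboth (hq.sw3 k) j
        thr := fun _ _ j => hq.notboth k j
        non := fun _ _ => k }
  · intro hd
    have hF := ptn_fl h hD
    have nac : a ≠ c := hd.sq.1.ne
    have nad : a ≠ d := hd.sq.2.1.ne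
    have nbc : b ≠ c := hd.sq.2.2.1.ne
    have nbd : b ≠ d := hd.sq.2.2.2.ne
    have hone : fl X pt D a c b d ∨ fl X pt D a d b c := by
      rcases hF.sep.one hd.ab nac nad nbc nbd hd.cd with k | k | k
      · exact absurd k hd.nc
      · exact Or.inl k
      · exact Or.inr k
    have s1 : fl X pt D a c b d → T a b c d ∨ T a d b c := fun k =>
      hq.some hd.sq.1 hd.sq.2.2.2 hd.ab nad nbc hd.cd k
    have s2 : fl X pt D a d b c → T a b c d ∨ T a c b d := fun k =>
      (hq.some hd.sq.2.1 hd.sq.2.2.1 hd.ab nac nbd hd.cd.symm k).imp (fun j => hq.sw3 j) id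
    by_cases hk : K4 G a b c d
    · by_cases hn : NP pt a b c d
      · exact hd.non hk hn
      · by_cases e1 : pt a = b ∨ pt c = d
        · exact hd.one hk e1
        · by_cases e2 : pt a = c ∨ pt b = d
          · have hx : ¬ fl X pt D a c b d := by
              rcases e2 with e | e
              · rw [← e]
                exact hF.cons _ _ _
              · intro j
                rw [← e] at j
                exact hF.cons _ _ _ (hF.sep.comm j)
            rcases s2 (hone.resolve_left hx) with j | j
            · exact j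
            · exact absurd j (hd.two hk e2)
          · by_cases e3 : pt a = d ∨ pt b = c
            · have hx : ¬ fl X pt D a d b c := by
                rcases e3 with e | e
                · rw [← e]
                  exact hF.cons _ _ _
                · intro j
                  rw [← e] at j
                  exact hF.cons _ _ _ (hF.sep.comm j)
              rcases s1 (hone.resolve_right hx) with j | j
              · exact j
              · exact absurd j (hd.thr hk e3)
            · exact absurd ⟨fun e => e1 (Or.inl e), fun e => e2 (Or.inl e), fun e => e3 (Or.inl e),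
                fun e => e3 (Or.inr e), fun e => e2 (Or.inr e), fun e => e1 (Or.inr e)⟩ hn
    · rcases hone with k | k
      · rcases s1 k with j | j
        · exact j
        · have q := hq.adj4 j
          exact absurd ⟨q.1, hd.sq.1, hd.sq.2.1, hd.sq.2.2.1, hd.sq.2.2.2, q.2.2.2.symm⟩ hk
      · rcases s2 k with j | j
        · exact j
        · have q := hq.adj4 j
          exact absurd ⟨q.1, hd.sq.1, hd.sq.2.1, hd.sq.2.2.1, hd.sq.2.2.2, q.2.2.2⟩ hk

/-- PROOF. a, b, c, d are different; ac | bd cross, so by cons {a, c} and {b, d} are not pairs: pt a = b or pt c = d or pt a = d or pt b = c (negation of NP; pt a ≠ c, pt b ≠ d). ab | cd and ad | bc do not cross (Sepr: amo, comm, swap; exactly one of the three pairings crosses). Case pt a = b or pt c = d: Dec a b c d ↔ t a b c d (all other fields are true or have false premises: pt a = c is false, pt b = c would give pt a = b = c ..., use h.inv and that the points are different); Dec a d b c: its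
field two has the premise pt a = b ∨ pt d = c and says not t a b d c; so Dec a d b c ↔ not t a b d c. Symmetry of t. Case pt a = d or pt b = c: the same with the roles exchanged (field thr of Dec a b c d: not t a d b c; field one of Dec a d b c: t a d b c). -/
theorem dec_flip (h : Ptn X pt) (hD : Cst pt D) (ht : Sy t) {a b c d : V} (hk : K4 G a b c d) (hX : fl X pt D a c b d)
    (hn : ¬ NP pt a b c d) : Dec G X pt D t a b c d ↔ ¬ Dec G X pt D t a d b c := by
  have hF := ptn_fl h hD
  have nab : a ≠ b := hk.1.ne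
  have nac : a ≠ c := hk.2.1.ne
  have nad : a ≠ d := hk.2.2.1.ne
  have nbc : b ≠ c := hk.2.2.2.1.ne
  have nbd : b ≠ d := hk.2.2.2.2.1.ne
  have ncd : c ≠ d := hk.2.2.2.2.2.ne
  have nc1 : ¬ fl X pt D a b c d := fun j => hF.sep.amo j hX
  have nc2 : ¬ fl X pt D a d b c := fun j =>
    hF.sep.amo ((FA_sw2 hF.sep).1 hX) ((FA_sw2 hF.sep).1 j)
  have pac : pt a ≠ c := by
    intro e
    rw [← e] at hX
    exact hF.cons _ _ _ hX
  have pbd : pt b ≠ d := by
    intro e
    have j := hF.sep.comm hX
    rw [← e] at j
    exact hF.cons _ _ _ j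
  have hk' : K4 G a d b c := ⟨hk.2.2.1, hk.1, hk.2.1, hk.2.2.2.2.1.symm, hk.2.2.2.2.2.symm, hk.2.2.2.1⟩
  have sq1 : Sq G a b c d := ⟨hk.2.1, hk.2.2.1, hk.2.2.2.1, hk.2.2.2.2.1⟩
  have sq2 : Sq G a d b c := ⟨hk.1, hk.2.1, hk.2.2.2.2.1.symm, hk.2.2.2.2.2.symm⟩
  have t34 : ∀ {p q r s : V}, t p q r s → t p q s r := fun j => ht.2 _ _ _ _ (ht.1 _ _ _ _ (ht.2 _ _ _ _ j))
  by_cases e1 : pt a = b ∨ pt c = d
  · have f1 : ¬ (pt a = d ∨ pt b = c) := by
      rintro (e | e)
      · rcases e1 with e' | e'
        · exact nbd (e'.symm.trans e)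
        · apply nac
          rw [← FC_ptn h e, ← FC_ptn h e']
      · rcases e1 with e' | e'
        · exact nac ((FC_ptn h e').symm.trans e)
        · exact nbd ((FC_ptn h e).symm.trans e')
    have f2 : ¬ (pt a = c ∨ pt d = b) := by
      rintro (e | e)
      · exact pac e
      · exact pbd (FC_ptn h e)
    have f3 : ¬ (pt a = c ∨ pt b = d) := by
      rintro (e | e)
      · exact pac e
      · exact pbd e
    have d1 : Dec G X pt D t a b c d ↔ t a b c d :=
      ⟨fun hd => hd.one hk e1, fun j =>
        { ab := nab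
          cd := ncd
          sq := sq1
          nc := nc1
          one := fun _ _ => j
          two := fun _ e => absurd e f3
          thr := fun _ e => absurd e f1
          non := fun _ _ => j }⟩
    have d2 : Dec G X pt D t a d b c ↔ ¬ t a b c d :=
      ⟨fun hd j => hd.two hk' (e1.imp id (FC_ptn h)) (t34 j), fun j =>
        { ab := nad
          cd := nbc
          sq := sq2
          nc := nc2
          one := fun _ e => absurd e f1
          two := fun _ _ k => j (t34 k)
          thr := fun _ e => absurd e f2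
          non := fun _ e => by
            rcases e1 with e' | e'
            · exact absurd e' e.2.1
            · exact absurd (FC_ptn h e') e.2.2.2.2.1 }⟩
    rw [d1, d2, not_not]
  · have e2 : pt a = d ∨ pt b = c := by
      by_contra e3
      exact hn ⟨fun e => e1 (Or.inl e), pac, fun e => e3 (Or.inl e), fun e => e3 (Or.inr e), pbd, fun e => e1 (Or.inr e)⟩
    have f2 : ¬ (pt a = c ∨ pt d = b) := by
      rintro (e | e)
      · exact pac e
      · exact pbd (FC_ptn h e)
    have f3 : ¬ (pt a = c ∨ pt b = d) := by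
      rintro (e | e)
      · exact pac e
      · exact pbd e
    have d1 : Dec G X pt D t a b c d ↔ ¬ t a d b c :=
      ⟨fun hd => hd.thr hk e2, fun j =>
        { ab := nab
          cd := ncd
          sq := sq1
          nc := nc1
          one := fun _ e => absurd e e1
          two := fun _ e => absurd e f3
          thr := fun _ _ => j
          non := fun _ e => absurd e hn }⟩
    have d2 : Dec G X pt D t a d b c ↔ t a d b c :=
      ⟨fun hd => hd.one hk' e2, fun j =>
        { ab := nad
          cd := nbc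
          sq := sq2
          nc := nc2
          one := fun _ _ => j
          two := fun _ e => absurd (e.imp id (FC_ptn h)) e1
          thr := fun _ e => absurd e f2
          non := fun _ _ => j }⟩
    rw [d1, d2]

/-- PROOF. Not K4, so the last four fields are trivial. -/
theorem dec_nk4 {a b c d : V} (hk : ¬ K4 G a b c d) : Dec G X pt D t a b c d ↔ a ≠ b ∧ c ≠ d ∧ Sq G a b c d ∧ ¬ fl X pt D a b c d :=
  ⟨fun hd => ⟨hd.ab, hd.cd, hd.sq, hd.nc⟩, fun hd =>
    { ab := hd.1
      cd := hd.2.1
      sq := hd.2.2.1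
      nc := hd.2.2.2
      one := fun k => absurd k hk
      two := fun k => absurd k hk
      thr := fun k => absurd k hk
      non := fun k => absurd k hk }⟩

end Pool.Agent.SOX
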