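import Pool.Agent.SOX.FB

/-! Project SOX (MP_66ba69_lc, the rigid step: orders with flippable pairs), module FD (size 2): from six points to all points.
-/

set_option autoImplicit false

namespace Pool.Agent.SOX

open Pool.Agent.SOC Pool.Agent.SOD Pool.Agent.SOS Pool.Agent.RUP Pool.Agent.SOF Pool.Agent.SOV Pool.Agent.SOB FP

variable {V : Type} {G : SimpleGraph V} {X T : V → V → V → V → Prop} {t : V → V → V → V → Prop} {pt : V → V} {D : V → Bool}

/-- PROOF. All fields of QF restricted to S. -/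
theorem qs_of_qf (h : QF G X T) (S : V → Prop) : QS G X T S where
  swap₁ := fun _ _ _ _ h1 => h.swap₁ h1
  swap₂ := fun _ _ _ _ h1 => h.swap₂ h1
  ne := fun _ _ _ _ h1 => h.ne h1
  adj := fun _ _ _ _ h1 => h.adj h1
  nocross := fun _ _ _ _ h1 => h.nocross h1
  some := fun _ _ _ _ h1 h2 h3 h4 h5 h6 h7 => h.some h1 h2 h3 h4 h5 h6 h7
  notboth := fun _ _ _ _ h1 => h.notboth h1
  trans := fun _ _ _ _ _ h1 h2 h3 h4 => h.trans h1 h2 h3 h4
  ferrers := fun _ _ _ _ _ _ h1 h2 h3 => h.ferrers h1 h2 h3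
  k5 := fun _ _ _ _ _ h1 h2 h3 h4 => h.k5 h1 h2 h3 h4

theorem FD_ext {L : List V} (hn : L.Nodup) (h6 : 6 ≤ L.length) (k : ℕ) :
    ∀ l : List V, l.Nodup → l.length + k = 6 → ∃ l' : List V, l'.length = 6 ∧ l'.Nodup ∧ ∀ x ∈ l, x ∈ l' := by
  induction k with
  | zero => intro l h1 h2; exact ⟨l, by omega, h1, fun x h => h⟩
  | succ k ih =>
    intro l h1 h2
    have : ∃ y ∈ L, y ∉ l := by
      by_contra hc
      push Not at hc
      have hs : L ⊆ l := fun y hy => hc y hy
      have := (List.subperm_of_subset hn hs).length_le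
      omega
    obtain ⟨y, _, hy⟩ := this
    obtain ⟨l', e1, e2, e3⟩ := ih (y :: l) (List.nodup_cons.2 ⟨hy, h1⟩) (by simp only [List.length_cons]; omega)
    exact ⟨l', e1, e2, fun x hx => e3 x (List.mem_cons_of_mem _ hx)⟩

/-- PROOF. Induction: l₁ := l.dedup has at most six elements; add members of L which are not in the list (if the list has fewer than 6 elements, some member of L is not in it, since L is nodup with at least six elements: List.Nodup and length, e.g. by toFinset.card, Finset.exists_mem_notMem_of_card_lt_card) until the length is six. -/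
theorem ext_six [DecidableEq V] {L : List V} (hn : L.Nodup) (h6 : 6 ≤ L.length) (l : List V) (hl : l.length ≤ 6) :
    ∃ l' : List V, l'.length = 6 ∧ l'.Nodup ∧ ∀ x ∈ l, x ∈ l' := by
  have hd : l.dedup.length ≤ l.length := (List.dedup_sublist l).length_le
  obtain ⟨l', e1, e2, e3⟩ := FD_ext hn h6 (6 - l.dedup.length) l.dedup (List.nodup_dedup l) (by omega)
  exact ⟨l', e1, e2, fun x hx => e3 x (List.mem_dedup.2 hx)⟩

/-- PROOF. For every field take the points which occur in it (at most six), ext_six, and the corresponding field of QS. -/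
theorem qf_of_six [DecidableEq V] {L : List V} (hn : L.Nodup) (h6 : 6 ≤ L.length)
    (h : ∀ l : List V, l.length = 6 → l.Nodup → QS G X T (fun x => x ∈ l)) : QF G X T := by
  have k4 : ∀ a b c d : V, ∃ l : List V, QS G X T (fun x => x ∈ l) ∧ a ∈ l ∧ b ∈ l ∧ c ∈ l ∧ d ∈ l := by
    intro a b c d
    obtain ⟨l, e1, e2, e3⟩ := ext_six hn h6 [a, b, c, d] (by simp)
    exact ⟨l, h l e1 e2, e3 a (by simp), e3 b (by simp), e3 c (by simp), e3 d (by simp)⟩
  have k6 : ∀ a b c d x y : V, ∃ l : List V, QS G X T (fun x => x ∈ l) ∧ a ∈ l ∧ b ∈ l ∧ c ∈ l ∧ d ∈ l ∧ x ∈ l ∧ y ∈ l := by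
    intro a b c d x y
    obtain ⟨l, e1, e2, e3⟩ := ext_six hn h6 [a, b, c, d, x, y] (by simp)
    exact ⟨l, h l e1 e2, e3 a (by simp), e3 b (by simp), e3 c (by simp), e3 d (by simp), e3 x (by simp), e3 y (by simp)⟩
  refine ⟨?_, ?_, ?_, ?_, ?_, ?_, ?_, ?_, ?_, ?_⟩
  · intro a b c d h1
    obtain ⟨l, q, ha, hb, hc, hd⟩ := k4 a b c d
    exact q.swap₁ ha hb hc hd h1
  · intro a b c d h1
    obtain ⟨l, q, ha, hb, hc, hd⟩ := k4 a b c d
    exact q.swap₂ ha hb hc hd h1
  · intro a b c d h1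
    obtain ⟨l, q, ha, hb, hc, hd⟩ := k4 a b c d
    exact q.ne ha hb hc hd h1
  · intro a b c d h1
    obtain ⟨l, q, ha, hb, hc, hd⟩ := k4 a b c d
    exact q.adj ha hb hc hd h1
  · intro a b c d h1
    obtain ⟨l, q, ha, hb, hc, hd⟩ := k4 a b c d
    exact q.nocross ha hb hc hd h1
  · intro a b c d h1 h2 h3 h4 h5 h6 h7
    obtain ⟨l, q, ha, hb, hc, hd⟩ := k4 a b c d
    exact q.some ha hb hc hd h1 h2 h3 h4 h5 h6 h7
  · intro a b c d h1
    obtain ⟨l, q, ha, hb, hc, hd⟩ := k4 a b c d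
    exact q.notboth ha hb hc hd h1
  · intro u w x y z h1 h2 h3 h4
    obtain ⟨l, q, ha, hb, hc, hd, he, -⟩ := k6 u w x y z z
    exact q.trans ha hb hc hd he h1 h2 h3 h4
  · intro a b x y x' y' h1 h2 h3
    obtain ⟨l, q, ha, hb, hc, hd, he, hf⟩ := k6 a b x y x' y'
    exact q.ferrers ha hb hc hd he hf h1 h2 h3
  · intro a b c d x h1 h2 h3 h4
    obtain ⟨l, q, ha, hb, hc, hd, he, -⟩ := k6 a b c d x x
    exact q.k5 ha hb hc hd he h1 h2 h3 h4

end Pool.Agent.SOX
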