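import Pool.Agent.SOF.Main

/-! Project SOX (MP_66ba69_lc, the rigid step), module FDefs: orders with flippable pairs. `X` is the crossing relation of the base order,
`pt` the partner involution (`pt x = x` if `x` is in no pair; the two points of a pair are consecutive in the base order), `D` says which
pairs are exchanged. `t` is the table of the free quartets. -/

set_option autoImplicit false

namespace Pool.Agent.SOX

open Pool.Agent.RUP Pool.Agent.SOF

variable {V : Type}

/-- exchange of the pairs in `D` -/
def sg (pt : V → V) (D : V → Bool) (x : V) : V := if D x then pt x else x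

/-- the crossing relation after the exchange -/
def fl (X : V → V → V → V → Prop) (pt : V → V) (D : V → Bool) (a b c d : V) : Prop :=
  X (sg pt D a) (sg pt D b) (sg pt D c) (sg pt D d)

/-- the partner involution, for the points with property `S` -/
structure Ptn (X : V → V → V → V → Prop) (pt : V → V) : Prop where
  sep : Sepr X
  inv : ∀ x, pt (pt x) = x
  cons : ∀ x c d, ¬ X x (pt x) c d

/-- `D` is constant on the pairs -/
def Cst (pt : V → V) (D : V → Bool) : Prop := ∀ x, D (pt x) = D x

/-- no flippable pair among the four points -/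
def NP (pt : V → V) (a b c d : V) : Prop := pt a ≠ b ∧ pt a ≠ c ∧ pt a ≠ d ∧ pt b ≠ c ∧ pt b ≠ d ∧ pt c ≠ d

/-- the structure given by `D` and `t` -/
structure Dec (G : SimpleGraph V) (X : V → V → V → V → Prop) (pt : V → V) (D : V → Bool) (t : V → V → V → V → Prop)
    (a b c d : V) : Prop where
  ab : a ≠ b
  cd : c ≠ d
  sq : Sq G a b c d
  nc : ¬ fl X pt D a b c d
  one : K4 G a b c d → pt a = b ∨ pt c = d → t a b c d
  two : K4 G a b c d → pt a = c ∨ pt b = d → ¬ t a c b d
  thr : K4 G a b c d → pt a = d ∨ pt b = c → ¬ t a d b c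
  non : K4 G a b c d → NP pt a b c d → t a b c d

/-- `t` is symmetric -/
def Sy (t : V → V → V → V → Prop) : Prop := (∀ a b c d, t a b c d → t b a c d) ∧ ∀ a b c d, t a b c d → t c d a b

/-- the axioms of `QF`, for the points in `S` -/
structure QS (G : SimpleGraph V) (X T : V → V → V → V → Prop) (S : V → Prop) : Prop where
  swap₁ : ∀ {a b c d}, S a → S b → S c → S d → T a b c d → T b a c d
  swap₂ : ∀ {a b c d}, S a → S b → S c → S d → T a b c d → T c d a b
  ne : ∀ {a b c d}, S a → S b → S c → S d → T a b c d → a ≠ b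
  adj : ∀ {a b c d}, S a → S b → S c → S d → T a b c d → G.Adj a c
  nocross : ∀ {a b c d}, S a → S b → S c → S d → T a b c d → ¬ X a b c d
  some : ∀ {a b c d}, S a → S b → S c → S d → G.Adj a c → G.Adj b d → a ≠ b → a ≠ d → b ≠ c → c ≠ d → X a c b d →
    T a b c d ∨ T a d b c
  notboth : ∀ {a b c d}, S a → S b → S c → S d → T a b c d → ¬ T a d b c
  trans : ∀ {u w x y z}, S u → S w → S x → S y → S z → K5F G [u, w, x, y, z] → T u w x y → T u w y z → x ≠ z → T u w x z
  ferrers : ∀ {a b x y x' y'}, S a → S b → S x → S y → S x' → S y' → K5F G [a, b, x, y, x', y'] →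
    T a x b y → T a x' b y' → T a x b y' ∨ T a x' b y
  k5 : ∀ {a b c d x}, S a → S b → S c → S d → S x → K5 G a b c d x → X x a c d → X x b c d → T a b c d → T a b c x

/-- majority -/
def mjB (a b c : Bool) : Bool := (a && b) || (a && c) || (b && c)

/-- majority -/
def mjP (a b c : Prop) : Prop := (a ∧ b) ∨ (a ∧ c) ∨ (b ∧ c)

end Pool.Agent.SOX
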