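import Pool.Agent.SOX.FC

/-! Project SOX (MP_66ba69_lc, the rigid step: orders with flippable pairs), module FE (size 3): majority: the easy axioms.
-/

set_option autoImplicit false

namespace Pool.Agent.SOX

open Pool.Agent.SOC Pool.Agent.SOD Pool.Agent.SOS Pool.Agent.RUP Pool.Agent.SOF Pool.Agent.SOV Pool.Agent.SOB FP

variable {V : Type} {G : SimpleGraph V} {X T : V → V → V → V → Prop} {t : V → V → V → V → Prop} {pt : V → V} {D : V → Bool}

variable {D1 D2 D3 : V → Bool} {t1 t2 t3 : V → V → V → V → Prop}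

/-- majority of the flips -/
def mD (D1 D2 D3 : V → Bool) (x : V) : Bool := mjB (D1 x) (D2 x) (D3 x)

/-- majority of the tables -/
def mT (t1 t2 t3 : V → V → V → V → Prop) (a b c d : V) : Prop := mjP (t1 a b c d) (t2 a b c d) (t3 a b c d)

/-- the axioms on five and six points -/
structure Q56 (G : SimpleGraph V) (X T : V → V → V → V → Prop) (S : V → Prop) : Prop where
  trans : ∀ {u w x y z}, S u → S w → S x → S y → S z → K5F G [u, w, x, y, z] → T u w x y → T u w y z → x ≠ z → T u w x z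
  ferrers : ∀ {a b x y x' y'}, S a → S b → S x → S y → S x' → S y' → K5F G [a, b, x, y, x', y'] →
    T a x b y → T a x' b y' → T a x b y' ∨ T a x' b y
  k5 : ∀ {a b c d x}, S a → S b → S c → S d → S x → K5 G a b c d x → X x a c d → X x b c d → T a b c d → T a b c x

/-- PROOF. Cst: mjB of equal values. Sy: mjP is monotone in the three statements. -/
theorem mD_cst (h1 : Cst pt D1) (h2 : Cst pt D2) (h3 : Cst pt D3) : Cst pt (mD D1 D2 D3) := by
  intro x
  unfold mD
  rw [h1 x, h2 x, h3 x]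

theorem FE_mono {p1 p2 p3 q1 q2 q3 : Prop} (h1 : p1 → q1) (h2 : p2 → q2) (h3 : p3 → q3) (h : mjP p1 p2 p3) : mjP q1 q2 q3 := by
  rcases h with ⟨a, b⟩ | ⟨a, b⟩ | ⟨a, b⟩
  · exact Or.inl ⟨h1 a, h2 b⟩
  · exact Or.inr (Or.inl ⟨h1 a, h3 b⟩)
  · exact Or.inr (Or.inr ⟨h2 a, h3 b⟩)

theorem mT_sy (h1 : Sy t1) (h2 : Sy t2) (h3 : Sy t3) : Sy (mT t1 t2 t3) :=
  ⟨fun a b c d => FE_mono (h1.1 a b c d) (h2.1 a b c d) (h3.1 a b c d),
    fun a b c d => FE_mono (h1.2 a b c d) (h2.2 a b c d) (h3.2 a b c d)⟩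

/-- PROOF. The majority of two coordinates agrees with one of the three: if mD a = D_i a for i in a set of at least two indices, the same for c, two subsets of {1, 2, 3} with two elements meet. Formally: cases on the six Boolean values. -/
theorem mD_two (a c : V) : (mD D1 D2 D3 a = D1 a ∧ mD D1 D2 D3 c = D1 c) ∨ (mD D1 D2 D3 a = D2 a ∧ mD D1 D2 D3 c = D2 c) ∨
    (mD D1 D2 D3 a = D3 a ∧ mD D1 D2 D3 c = D3 c) := by
  unfold mD mjB
  generalize D1 a = a1
  generalize D2 a = a2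
  generalize D3 a = a3
  generalize D1 c = c1
  generalize D2 c = c2
  generalize D3 c = c3
  revert a1 a2 a3 c1 c2 c3
  decide

theorem FE_ne {Y : V → V → V → V → Prop} (h : Sepr Y) {a b c d : V} (k : Y a b c d) :
    a ≠ b ∧ a ≠ c ∧ a ≠ d ∧ b ≠ c ∧ b ≠ d ∧ c ≠ d := by
  have k1 := h.dist k
  have k2 := h.dist (h.swap k)
  have k3 := h.dist (h.comm k)
  have k4 := h.dist (h.swap (h.comm k))
  exact ⟨k1.1, k1.2, k4.2.symm, k2.2, fun e => (h.dist (h.swap (h.comm (h.swap k)))).2 e.symm, k3.1⟩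

theorem FE_sl {Y : V → V → V → V → Prop} (h : Sepr Y) {a b c d : V} : Y a b c d ↔ Y b a c d := ⟨h.swap, h.swap⟩

theorem FE_sr {Y : V → V → V → V → Prop} (h : Sepr Y) {a b c d : V} : Y a b c d ↔ Y a b d c :=
  ⟨fun k => h.comm (h.swap (h.comm k)), fun k => h.comm (h.swap (h.comm k))⟩

theorem FE_cm {Y : V → V → V → V → Prop} (h : Sepr Y) {a b c d : V} : Y a b c d ↔ Y c d a b := ⟨h.comm, h.comm⟩

theorem FE_inv (h : Ptn X pt) {x y : V} (e : pt x = y) : pt y = x := by
  rw [← e, h.inv]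

theorem FE_maj1 (h : Ptn X pt) (h1 : Cst pt D1) (h2 : Cst pt D2) (h3 : Cst pt D3) {a b c d : V} (e : pt a = c)
    (ab : a ≠ b) (ac : a ≠ c) (ad : a ≠ d) (bc : b ≠ c) (bd : b ≠ d) (cd : c ≠ d) :
    (fl X pt (mD D1 D2 D3) a b c d ↔ fl X pt D1 a b c d) ∨ (fl X pt (mD D1 D2 D3) a b c d ↔ fl X pt D2 a b c d) ∨
    (fl X pt (mD D1 D2 D3) a b c d ↔ fl X pt D3 a b c d) := by
  have hm := mD_cst h1 h2 h3
  subst e
  by_cases hb : pt b = d
  · subst hb
    have hbb : pt b ≠ b := fun k => bd k.symm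
    have key : ∀ D : V → Bool, Cst pt D → (fl X pt D a b (pt a) (pt b) ↔ (X a b (pt a) (pt b) ↔ D a = D b)) := fun D hD =>
      fl_pr2 h hD (fun k => ac k.symm) hbb ab (fun k => bc k.symm)
    rw [key _ hm, key _ h1, key _ h2, key _ h3]
    rcases mD_two (D1 := D1) (D2 := D2) (D3 := D3) a b with ⟨k1, k2⟩ | ⟨k1, k2⟩ | ⟨k1, k2⟩
    · exact Or.inl (by rw [k1, k2])
    · exact Or.inr (Or.inl (by rw [k1, k2]))
    · exact Or.inr (Or.inr (by rw [k1, k2]))
  · have key : ∀ D : V → Bool, Cst pt D → (fl X pt D a b (pt a) d ↔ (X a b (pt a) d ↔ D a = false)) := fun D hD =>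
      fl_pr h hD (fun k => ac k.symm) ab ad (fun k => bc k.symm) cd bd hb
    rw [key _ hm, key _ h1, key _ h2, key _ h3]
    rcases mD_two (D1 := D1) (D2 := D2) (D3 := D3) a a with ⟨k1, _⟩ | ⟨k1, _⟩ | ⟨k1, _⟩
    · exact Or.inl (by rw [k1])
    · exact Or.inr (Or.inl (by rw [k1]))
    · exact Or.inr (Or.inr (by rw [k1]))

/-- PROOF. Let X' i := fl X pt D_i. Some i has fl X pt mD a b c d ↔ fl X pt D_i a b c d: at most two pairs among the four points. If NP: fl_np for all (i = 1). Otherwise some pair; if two points are equal both sides are false. If the pair is {a, b} or {c, d} both sides are false (cons). Pair {a, c} (pt a = c): fl_pr (for (a, b, pt a, d)) if pt b ≠ d, fl_pr2 if pt b = d: the value depends only on D a and D b: choose i by mD_two. Pair {a, d}: swap. The other pairs by symmetry (comm, swap). -/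
theorem fl_maj (h : Ptn X pt) (h1 : Cst pt D1) (h2 : Cst pt D2) (h3 : Cst pt D3) (a b c d : V) :
    (fl X pt (mD D1 D2 D3) a b c d ↔ fl X pt D1 a b c d) ∨ (fl X pt (mD D1 D2 D3) a b c d ↔ fl X pt D2 a b c d) ∨
    (fl X pt (mD D1 D2 D3) a b c d ↔ fl X pt D3 a b c d) := by
  have hm := mD_cst h1 h2 h3
  have sm := (ptn_fl h hm).sep
  have s1 := (ptn_fl h h1).sep
  have s2 := (ptn_fl h h2).sep
  have s3 := (ptn_fl h h3).sep
  by_cases hd : a ≠ b ∧ a ≠ c ∧ a ≠ d ∧ b ≠ c ∧ b ≠ d ∧ c ≠ d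
  · obtain ⟨ab, ac, ad, bc, bd, cd⟩ := hd
    by_cases hn : NP pt a b c d
    · left
      rw [fl_np h hm hn, fl_np h h1 hn]
    · unfold NP at hn
      by_cases e1 : pt a = b
      · left
        subst e1
        exact iff_of_false ((ptn_fl h hm).cons a c d) ((ptn_fl h h1).cons a c d)
      by_cases e2 : pt c = d
      · left
        subst e2
        exact iff_of_false (fun k => (ptn_fl h hm).cons c a b (sm.comm k)) (fun k => (ptn_fl h h1).cons c a b (s1.comm k))
      by_cases e3 : pt a = c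
      · exact FE_maj1 h h1 h2 h3 e3 ab ac ad bc bd cd
      by_cases e4 : pt a = d
      · rw [FE_sr sm, FE_sr s1, FE_sr s2, FE_sr s3]
        exact FE_maj1 h h1 h2 h3 e4 ab ad ac bd bc cd.symm
      by_cases e5 : pt b = c
      · rw [FE_sl sm, FE_sl s1, FE_sl s2, FE_sl s3]
        exact FE_maj1 h h1 h2 h3 e5 ab.symm bc bd ac ad cd
      by_cases e6 : pt b = d
      · rw [FE_sl sm, FE_sl s1, FE_sl s2, FE_sl s3, FE_sr sm, FE_sr s1, FE_sr s2, FE_sr s3]
        exact FE_maj1 h h1 h2 h3 e6 ab.symm bd bc ad ac cd.symm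
      · exact absurd ⟨e1, e3, e4, e5, e6, e2⟩ hn
  · left
    exact iff_of_false (fun k => hd (FE_ne sm k)) (fun k => hd (FE_ne s1 k))

theorem FE_dec (h : Ptn X pt) {D : V → Bool} {t : V → V → V → V → Prop} {a b c d : V} (hn : NP pt a b c d ∨ pt a = b ∨ pt c = d)
    (hk : K4 G a b c d) : Dec G X pt D t a b c d ↔ ¬ fl X pt D a b c d ∧ t a b c d := by
  obtain ⟨ab, ac, ad, bc, bd, cd⟩ := hk
  constructor
  · intro k
    refine ⟨k.nc, ?_⟩
    rcases hn with hn | hn
    · exact k.non ⟨ab, ac, ad, bc, bd, cd⟩ hn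
    · exact k.one ⟨ab, ac, ad, bc, bd, cd⟩ hn
  · rintro ⟨k1, k2⟩
    have n2 : ¬ (pt a = c ∨ pt b = d) := by
      rcases hn with hn | hn | hn
      · rintro (e | e)
        · exact hn.2.1 e
        · exact hn.2.2.2.2.1 e
      · rintro (e | e)
        · exact bc.ne (hn.symm.trans e)
        · exact ad.ne ((FE_inv h hn).symm.trans e)
      · rintro (e | e)
        · exact ad.ne ((FE_inv h e).symm.trans hn)
        · exact bc.ne ((FE_inv h e).symm.trans (FE_inv h hn))
    have n3 : ¬ (pt a = d ∨ pt b = c) := by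
      rcases hn with hn | hn | hn
      · rintro (e | e)
        · exact hn.2.2.1 e
        · exact hn.2.2.2.1 e
      · rintro (e | e)
        · exact bd.ne (hn.symm.trans e)
        · exact ac.ne ((FE_inv h hn).symm.trans e)
      · rintro (e | e)
        · exact ac.ne ((FE_inv h e).symm.trans (FE_inv h hn))
        · exact bd.ne ((FE_inv h e).symm.trans hn)
    exact ⟨ab.ne, cd.ne, ⟨ac, ad, bc, bd⟩, k1, fun _ _ => k2, fun _ e => absurd e n2, fun _ e => absurd e n3, fun _ _ => k2⟩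

/-- PROOF. All fl are equal: NP: fl_np; pt a = b or pt c = d: all false (cons of ptn_fl; comm). Not K4: dec_nk4 for all, the four statements are equivalent. K4: if pt a = b or pt c = d: Dec ↔ the simple conditions and t (fields two, thr, non have false premises, or are true: if a = b etc. both sides false by ab, cd); NP: the same with the field non. So the left side is (conditions) and mjP t's. -/
theorem dec_maj (h : Ptn X pt) (h1 : Cst pt D1) (h2 : Cst pt D2) (h3 : Cst pt D3) {a b c d : V} (hn : NP pt a b c d ∨ pt a = b ∨ pt c = d) :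
    Dec G X pt (mD D1 D2 D3) (mT t1 t2 t3) a b c d ↔
      mjP (Dec G X pt D1 t1 a b c d) (Dec G X pt D2 t2 a b c d) (Dec G X pt D3 t3 a b c d) := by
  have hm := mD_cst h1 h2 h3
  obtain ⟨Fx, hF⟩ : ∃ Fx : Prop, ∀ D : V → Bool, Cst pt D → (fl X pt D a b c d ↔ Fx) := by
    rcases hn with hn | hn | hn
    · exact ⟨X a b c d, fun D hD => fl_np h hD hn⟩
    · refine ⟨False, fun D hD => iff_false_intro ?_⟩
      subst hn
      exact (ptn_fl h hD).cons a c d
    · refine ⟨False, fun D hD => iff_false_intro ?_⟩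
      subst hn
      exact fun k => (ptn_fl h hD).cons c a b ((ptn_fl h hD).sep.comm k)
  by_cases hk : K4 G a b c d
  · rw [FE_dec h hn hk, FE_dec h hn hk, FE_dec h hn hk, FE_dec h hn hk, hF _ hm, hF _ h1, hF _ h2, hF _ h3]
    unfold mT mjP
    tauto
  · rw [dec_nk4 hk, dec_nk4 hk, dec_nk4 hk, dec_nk4 hk, hF _ hm, hF _ h1, hF _ h2, hF _ h3]
    unfold mjP
    tauto

theorem FE_np1 (h : Ptn X pt) {a b c d : V} (hn : NP pt a b c d) : NP pt a c b d :=
  ⟨hn.2.1, hn.1, hn.2.2.1, fun e => hn.2.2.2.1 (FE_inv h e), hn.2.2.2.2.2, hn.2.2.2.2.1⟩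

theorem FE_np2 (h : Ptn X pt) {a b c d : V} (hn : NP pt a b c d) : NP pt a d b c :=
  ⟨hn.2.2.1, hn.1, hn.2.1, fun e => hn.2.2.2.2.1 (FE_inv h e), fun e => hn.2.2.2.2.2 (FE_inv h e), hn.2.2.2.1⟩

/-- PROOF. swap₁, swap₂: dec_sw1, dec_sw2 (mD_cst, mT_sy). ne = Dec.ab, adj from sq, nocross = Dec.nc. some: let fl mD a c b d with the edges ac, bd. a, b, c, d are different. If not K4: fl_maj for (a, c, b, d): fl D_i a c b d for some i, q_i.some: Dec_i a b c d or Dec_i a d b c: its sq; the pairings ab | cd, ad | bc do not cross (amo etc.), dec_nk4. If K4 and not NP: dec_flip (tauto). If K4 and NP: all fl are the same, q_i.some for the three i: for each i one of Dec_i a b c d, Dec_i a d b c: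
two of the three i give the same one: dec_maj (NP is symmetric). notboth: Dec a b c d and Dec a d b c: sq of both gives K4; the chords ac | bd cross (the other two do not, one); not NP: dec_flip. NP: dec_maj: two of the i have Dec_i a b c d, two have Dec_i a d b c, so one i has both: q_i.notboth. trans, ferrers, k5: hypothesis. -/
theorem maj_easy (h : Ptn X pt) (h1 : Cst pt D1) (h2 : Cst pt D2) (h3 : Cst pt D3) (s1 : Sy t1) (s2 : Sy t2) (s3 : Sy t3) {S : V → Prop}
    (q1 : QS G (fl X pt D1) (Dec G X pt D1 t1) S) (q2 : QS G (fl X pt D2) (Dec G X pt D2 t2) S) (q3 : QS G (fl X pt D3) (Dec G X pt D3 t3) S)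
    (hq : Q56 G (fl X pt (mD D1 D2 D3)) (Dec G X pt (mD D1 D2 D3) (mT t1 t2 t3)) S) :
    QS G (fl X pt (mD D1 D2 D3)) (Dec G X pt (mD D1 D2 D3) (mT t1 t2 t3)) S := by
  have hm := mD_cst h1 h2 h3
  have sm := mT_sy s1 s2 s3
  have pm := ptn_fl h hm
  refine ⟨fun _ _ _ _ k => dec_sw1 h hm sm k, fun _ _ _ _ k => dec_sw2 h hm sm k, fun _ _ _ _ k => k.ab,
    fun _ _ _ _ k => k.sq.1, fun _ _ _ _ k => k.nc, ?_, ?_, hq.trans, hq.ferrers, hq.k5⟩
  · intro a b c d Sa Sb Sc Sd ac bd ab ad bc cd hX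
    have n1 : ¬ fl X pt (mD D1 D2 D3) a b c d := fun k => pm.sep.amo k hX
    have n2 : ¬ fl X pt (mD D1 D2 D3) a d b c := fun k =>
      pm.sep.amo ((FE_sr pm.sep).1 k) ((FE_sr pm.sep).1 hX)
    by_cases hk : K4 G a b c d
    · by_cases hn : NP pt a b c d
      · have np1 := FE_np1 h hn
        have np2 := FE_np2 h hn
        have hX0 : X a c b d := (fl_np h hm np1).1 hX
        have r1 := q1.some Sa Sb Sc Sd ac bd ab ad bc cd ((fl_np h h1 np1).2 hX0)
        have r2 := q2.some Sa Sb Sc Sd ac bd ab ad bc cd ((fl_np h h2 np1).2 hX0)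
        have r3 := q3.some Sa Sb Sc Sd ac bd ab ad bc cd ((fl_np h h3 np1).2 hX0)
        rw [dec_maj h h1 h2 h3 (Or.inl hn), dec_maj h h1 h2 h3 (Or.inl np2)]
        unfold mjP
        tauto
      · have k := dec_flip h hm sm hk hX hn
        tauto
    · have key : ∀ (D : V → Bool) (t : V → V → V → V → Prop),
          (Dec G X pt D t a b c d ∨ Dec G X pt D t a d b c) →
          (Dec G X pt (mD D1 D2 D3) (mT t1 t2 t3) a b c d ∨ Dec G X pt (mD D1 D2 D3) (mT t1 t2 t3) a d b c) := by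
        rintro D t (k | k)
        · exact Or.inl ((dec_nk4 hk).2 ⟨ab, cd, k.sq, n1⟩)
        · have hk' : ¬ K4 G a d b c := fun e => hk ⟨e.2.1, e.2.2.1, e.1, e.2.2.2.2.2, e.2.2.2.1.symm, e.2.2.2.2.1.symm⟩
          exact Or.inr ((dec_nk4 hk').2 ⟨ad, bc, k.sq, n2⟩)
      rcases fl_maj h h1 h2 h3 a c b d with k | k | k
      · exact key _ _ (q1.some Sa Sb Sc Sd ac bd ab ad bc cd (k.1 hX))
      · exact key _ _ (q2.some Sa Sb Sc Sd ac bd ab ad bc cd (k.1 hX))
      · exact key _ _ (q3.some Sa Sb Sc Sd ac bd ab ad bc cd (k.1 hX))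
  · intro a b c d Sa Sb Sc Sd k1 k2
    obtain ⟨ac, ad, bc, bd⟩ := k1.sq
    obtain ⟨ab, _, db, dc⟩ := k2.sq
    have hk : K4 G a b c d := ⟨ab, ac, ad, bc, bd, dc.symm⟩
    have hX : fl X pt (mD D1 D2 D3) a c b d := by
      rcases pm.sep.one ab.ne ac.ne ad.ne bc.ne bd.ne dc.ne.symm with e | e | e
      · exact absurd e k1.nc
      · exact e
      · exact absurd e k2.nc
    by_cases hn : NP pt a b c d
    · have np2 := FE_np2 h hn
      rw [dec_maj h h1 h2 h3 (Or.inl hn)] at k1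
      rw [dec_maj h h1 h2 h3 (Or.inl np2)] at k2
      have r1 := fun k => q1.notboth (a := a) (b := b) (c := c) (d := d) Sa Sb Sc Sd k
      have r2 := fun k => q2.notboth (a := a) (b := b) (c := c) (d := d) Sa Sb Sc Sd k
      have r3 := fun k => q3.notboth (a := a) (b := b) (c := c) (d := d) Sa Sb Sc Sd k
      unfold mjP at k1 k2
      tauto
    · exact (dec_flip h hm sm hk hX hn).1 k1 k2

end Pool.Agent.SOX
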