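import Pool.Agent.SOX.FB

/-! Project SOX (MP_66ba69_lc, the rigid step: orders with flippable pairs), module FG (size 2): constraints given by a test.
-/

set_option autoImplicit false

namespace Pool.Agent.SOX

open Pool.Agent.SOC Pool.Agent.SOD Pool.Agent.SOS Pool.Agent.RUP Pool.Agent.SOF Pool.Agent.SOV Pool.Agent.SOB FP

/-- PROOF. Induction on k. -/
theorem mem_allB {k : ℕ} {r : List Bool} : r ∈ allB k ↔ r.length = k := by
  induction k generalizing r with
  | zero => simp [allB]
  | succ k ih =>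
    simp only [allB, List.mem_flatMap]
    constructor
    · rintro ⟨s, hs, h⟩
      have := ih.1 hs
      simp only [List.mem_cons, List.not_mem_nil, or_false] at h
      rcases h with rfl | rfl <;> simp [this]
    · intro h
      cases r with
      | nil => simp at h
      | cons b s =>
        refine ⟨s, ih.2 (by simpa using h), ?_⟩
        cases b <;> simp

/-- PROOF. For v in sc: (sc.map f).getD (sc.idxOf v) false = f v (List.idxOf_lt_length_iff, getElem_idxOf). -/
theorem rd_map {sc : List ℕ} {f : ℕ → Bool} {v : ℕ} (hv : v ∈ sc) : rd sc (sc.map f) v = f v := by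
  have h := List.idxOf_lt_length_of_mem hv
  unfold rd
  rw [List.getD_eq_getElem _ _ (by simpa using h), List.getElem_map, List.getElem_idxOf]

theorem fg_rd_map' (sc : List ℕ) (f : ℕ → Bool) : sc.map (rd sc (sc.map f)) = sc.map f :=
  List.map_congr_left fun _ hv => rd_map hv

/-- PROOF. Holds f (con ..) : sc.map f ∈ A.filter ..: length is right (mem_allB); rd sc (sc.map f) agrees with f on sc (rd_map): sc.map (rd ..) = sc.map f, and p (rd ..) = p f by hp. -/
theorem con_holds {sc : List ℕ} {p : (ℕ → Bool) → Bool} (hp : ∀ f g : ℕ → Bool, (∀ v ∈ sc, f v = g v) → p f = p g) (f : ℕ → Bool) :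
    Holds f (con (allB sc.length) sc p) ↔ p f = true := by
  have e : p (rd sc (sc.map f)) = p f := hp _ _ fun v hv => rd_map hv
  unfold SOB.Holds con
  simp only [List.mem_filter, mem_allB, List.length_map, true_and, fg_rd_map', e, decide_true, Bool.true_and]

theorem fg_maj3 (sc : List ℕ) (A B D : ℕ → Bool) :
    maj3 (sc.map A) (sc.map B) (sc.map D) = sc.map (fun v => maj (A v) (B v) (D v)) := by
  unfold maj3
  induction sc with
  | nil => rfl
  | cons x s ih => simp only [List.map_cons, List.zip_cons_cons, List.zipWith_cons_cons, ih]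

/-- PROOF. len: mem_allB. maj: for allowed a, b, d: a = sc.map (rd sc a) etc., so maj3 a b d = sc.map g with g v := maj (rd sc a v) (rd sc b v) (rd sc d v) (zipWith of maps); it is allowed iff p g = true (as in con_holds), which is hm. -/
theorem con_maj {sc : List ℕ} {p : (ℕ → Bool) → Bool} (hp : ∀ f g : ℕ → Bool, (∀ v ∈ sc, f v = g v) → p f = p g)
    (hm : ∀ f g h : ℕ → Bool, p f = true → p g = true → p h = true → p (fun v => maj (f v) (g v) (h v)) = true) :
    MajC (con (allB sc.length) sc p) := by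
  refine ⟨?_, ?_⟩
  · intro r hr
    exact mem_allB.1 (List.mem_filter.1 hr).1
  · intro a ha b hb d hd
    obtain ⟨-, ha⟩ := List.mem_filter.1 ha
    obtain ⟨-, hb⟩ := List.mem_filter.1 hb
    obtain ⟨-, hd⟩ := List.mem_filter.1 hd
    simp only [Bool.and_eq_true, decide_eq_true_eq] at ha hb hd
    have e : maj3 a b d = sc.map (fun v => maj (rd sc a v) (rd sc b v) (rd sc d v)) := by
      conv_lhs => rw [← ha.1, ← hb.1, ← hd.1]
      exact fg_maj3 sc _ _ _
    rw [e]
    refine List.mem_filter.2 ⟨mem_allB.2 (by simp), ?_⟩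
    simp only [Bool.and_eq_true, decide_eq_true_eq]
    refine ⟨fg_rd_map' sc _, ?_⟩
    rw [hp _ (fun v => maj (rd sc a v) (rd sc b v) (rd sc d v)) fun v hv => rd_map hv]
    exact hm _ _ _ ha.2 hb.2 hd.2

/-- PROOF. mem_flatMap, mem_filter. -/
theorem mem_six {L S : List ℕ} : S ∈ six L ↔ S.length = 6 ∧ S.Nodup ∧ ∀ x ∈ S, x ∈ L := by
  unfold six
  simp only [List.mem_filter, List.mem_flatMap, List.mem_map, decide_eq_true_eq]
  constructor
  · rintro ⟨⟨a, ha, b, hb, c, hc, d, hd, e, he, x, hx, rfl⟩, hn⟩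
    refine ⟨rfl, hn, ?_⟩
    intro y hy
    simp only [List.mem_cons, List.not_mem_nil, or_false] at hy
    rcases hy with rfl | rfl | rfl | rfl | rfl | rfl <;> assumption
  · rintro ⟨hl, hn, hm⟩
    match S, hl with
    | [a, b, c, d, e, x], _ =>
      exact ⟨⟨a, hm a (by simp), b, hm b (by simp), c, hm c (by simp), d, hm d (by simp), e, hm e (by simp),
        x, hm x (by simp), rfl⟩, hn⟩

/-- PROOF. Lengths: 6 + 6 * 6 * 6 * 6 (S = [a, b, c, d, e, x], simp). -/
theorem scp_len {n : ℕ} {P : List (ℕ × ℕ)} {S : List ℕ} (h : S.length = 6) : (scp n P S).length = lsc := by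
  unfold scp
  simp only [List.length_append, List.length_map, List.length_flatMap, List.map_const', List.sum_replicate, h,
    smul_eq_mul]
  rfl

theorem fg_fsN (P : List (ℕ × ℕ)) (x : ℕ) : fsN P x = x ∨ ∃ p ∈ P, fsN P x = p.1 := by
  unfold fsN
  rcases h : P.filter (fun p => decide (p.2 = x)) with _ | ⟨p, Q⟩
  · left; rw [h]; rfl
  · right
    refine ⟨p, (List.mem_filter.1 (h ▸ List.mem_cons_self : p ∈ P.filter (fun p => decide (p.2 = x)))).1, ?_⟩
    rw [h]; rfl

theorem fg_lt {m n x y : ℕ} (hx : x < m) (hy : y < n) : x * n + y < m * n := by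
  calc x * n + y < x * n + n := by omega
    _ = (x + 1) * n := by ring
    _ ≤ m * n := Nat.mul_le_mul_right n hx

theorem fg_cd4 {n a b c d : ℕ} (ha : a < n) (hb : b < n) (hc : c < n) (hd : d < n) : cd4 n a b c d < n ^ 4 := by
  unfold cd4
  have e : n ^ 4 = n * n * n * n := by ring
  rw [e]
  exact fg_lt (fg_lt (fg_lt ha hb) hc) hd

theorem fg_cn {n a b c d : ℕ} (ha : a < n) (hb : b < n) (hc : c < n) (hd : d < n) : cn n a b c d < n ^ 4 := by
  unfold cn
  have h1 : min a b < n := lt_of_le_of_lt (min_le_left _ _) ha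
  have h2 : max a b < n := max_lt ha hb
  have h3 : min c d < n := lt_of_le_of_lt (min_le_left _ _) hc
  have h4 : max c d < n := max_lt hc hd
  split_ifs
  · exact fg_cd4 h1 h2 h3 h4
  · exact fg_cd4 h3 h4 h1 h2

/-- PROOF. fsN P x ∈ L: it is x or p.1 for some p ∈ P, and p.1 ∈ L by hP.cons. cn: cd4 n a b c d < n ^ 4 for a, b, c, d < n. -/
theorem scp_lt {M : List (List Bool)} {L S : List ℕ} {P : List (ℕ × ℕ)} (hL : ∀ x ∈ L, x < M.length) (hP : Prs L P) (hS : ∀ x ∈ S, x ∈ L) :
    ∀ v ∈ scp M.length P S, v < nvF M := by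
  intro v hv
  unfold scp at hv
  unfold nvF
  simp only [List.mem_append, List.mem_map, List.mem_flatMap] at hv
  rcases hv with ⟨x, hx, rfl⟩ | ⟨a, ha, b, hb, c, hc, d, hd, rfl⟩
  · rcases fg_fsN P x with e | ⟨p, hp, e⟩
    · rw [e]
      have := hL x (hS x hx)
      omega
    · rw [e]
      obtain ⟨u, w, hu⟩ := hP.cons p hp
      have := hL p.1 (by rw [hu]; simp)
      omega
  · have := fg_cn (hL a (hS a ha)) (hL b (hS b hb)) (hL c (hS c hc)) (hL d (hS d hd))
    omega

end Pool.Agent.SOX
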