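import Pool.Agent.SOX.FC
import Pool.Agent.SOX.FH

/-! Project SOX (MP_66ba69_lc, the rigid step: orders with flippable pairs), module FI (size 4): Boolean functions and structures. The vertices are Mem L = {v // v ∈ L}.
-/

set_option autoImplicit false

namespace Pool.Agent.SOX

open Pool.Agent.SOC Pool.Agent.SOD Pool.Agent.SOS Pool.Agent.RUP Pool.Agent.SOF Pool.Agent.SOV Pool.Agent.SOB FP

variable {M : List (List Bool)} {L : List ℕ} {P : List (ℕ × ℕ)}

/-- the partner, on the members of L -/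
def ptM (hn : L.Nodup) (hP : Prs L P) (x : Mem L) : Mem L := ⟨ptN P x.1, ptN_mem hn hP x.2⟩

/-- the flips -/
def dM (L : List ℕ) (P : List (ℕ × ℕ)) (f : ℕ → Bool) (x : Mem L) : Bool := f (fsN P x.1)

/-- the table, symmetrised (only different points matter) -/
def tM (M : List (List Bool)) (L : List ℕ) (f : ℕ → Bool) (a b c d : Mem L) : Prop :=
  a ≠ c ∧ a ≠ d ∧ b ≠ c ∧ b ≠ d ∧ tv M f a.1 b.1 c.1 d.1 = true

/-- PROOF. sep: crD_sepr for L.attach (IsEnum: List.nodup_attach, mem_attach). inv: ptN_ptN. cons: ptN_cases: for a pair p ∈ P, L = u ++ p.1 :: p.2 :: v, so idxOf p.2 = idxOf p.1 + 1 in L and in L.attach (idxOf in attach: SOV has lemmas, for example idxOf_map_of; L.attach.map Subtype.val = L), no point is between them: Cross = not (Btw ↔ Btw), both false for c, d different from the pair. ptN P x = x: CrD contains a ≠ b. -/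
theorem ptn_M (hn : L.Nodup) (hP : Prs L P) : Ptn (CrD L.attach) (ptM hn hP) := by
  have hs : IsEnum L.attach := ⟨List.nodup_attach.2 hn, fun v => List.mem_attach _ v⟩
  have hcons : ∀ p ∈ P, L.idxOf p.2 = L.idxOf p.1 + 1 := by
    intro p hp
    obtain ⟨u, v, hL⟩ := hP.cons p hp
    have hn' := hn
    rw [hL] at hn'
    have h1 : p.1 ∉ u := fun h => (List.nodup_append.1 hn').2.2 _ h _ List.mem_cons_self rfl
    have h2 : p.2 ∉ u := fun h =>
      (List.nodup_append.1 hn').2.2 _ h _ (List.mem_cons_of_mem _ List.mem_cons_self) rfl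
    have h3 : p.1 ≠ p.2 := fun h =>
      (List.nodup_cons.1 (List.nodup_append.1 hn').2.1).1 (h ▸ List.mem_cons_self)
    rw [hL, List.idxOf_append_of_notMem h1, List.idxOf_append_of_notMem h2, List.idxOf_cons_self,
      List.idxOf_cons_ne _ h3, List.idxOf_cons_self]
  refine ⟨crD_sepr hs, fun x => Subtype.ext (ptN_ptN hn hP x.1).1, ?_⟩
  intro x c d h
  have h1 : crB L x.1 (ptN P x.1) c.1 d.1 = true := (crB_iff (b := ptM hn hP x)).2 h
  unfold crB at h1
  rw [Bool.and_eq_true] at h1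
  obtain ⟨h2, h3⟩ := h1
  rcases ptN_cases hn hP x.1 with ⟨p, hp, e1, e2, _⟩ | ⟨p, hp, e1, e2, _⟩ | ⟨e1, _, _⟩
  · have hk : ∀ y, btwB L x.1 (ptN P x.1) y = false := by
      intro y
      rw [e2, e1, Bool.eq_false_iff]
      intro hb
      unfold btwB at hb
      simp only [Bool.or_eq_true, Bool.and_eq_true, decide_eq_true_eq] at hb
      have := hcons p hp
      omega
    rw [hk, hk] at h3
    exact Bool.false_ne_true h3
  · have hk : ∀ y, btwB L x.1 (ptN P x.1) y = false := by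
      intro y
      rw [e2, e1, Bool.eq_false_iff]
      intro hb
      unfold btwB at hb
      simp only [Bool.or_eq_true, Bool.and_eq_true, decide_eq_true_eq] at hb
      have := hcons p hp
      omega
    rw [hk, hk] at h3
    exact Bool.false_ne_true h3
  · rw [Bool.and_eq_true, decide_eq_true_eq] at h2
    exact h2.1 e1.symm

/-- PROOF. ptN_ptN. -/
theorem cst_M (hn : L.Nodup) (hP : Prs L P) (f : ℕ → Bool) : Cst (ptM hn hP) (dM L P f) := by
  intro x
  unfold dM ptM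
  exact congrArg f (ptN_ptN hn hP x.1).2

/-- PROOF. tv_symm, tv_comm. -/
theorem sy_M (f : ℕ → Bool) : Sy (tM M L f) := by
  constructor
  · rintro a b c d ⟨h1, h2, h3, h4, h5⟩
    exact ⟨h3, h4, h1, h2, by rw [tv_symm]; exact h5⟩
  · rintro a b c d ⟨h1, h2, h3, h4, h5⟩
    exact ⟨h1.symm, h3.symm, h2.symm, h4.symm, by
      rw [tv_comm M f (ne_iff.2 h1) (ne_iff.2 h2) (ne_iff.2 h3) (ne_iff.2 h4)]; exact h5⟩

/-- PROOF. sgN P f x.1 = (sg (ptM ..) (dM L P f) x).1; crB for members: crB L a.1 b.1 c.1 d.1 = true ↔ CrD L.attach a b c d (in SOV.TstOk: look for crB_iff). -/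
theorem flB_iff (hn : L.Nodup) (hP : Prs L P) (f : ℕ → Bool) (a b c d : Mem L) :
    flB L P f a.1 b.1 c.1 d.1 = true ↔ fl (CrD L.attach) (ptM hn hP) (dM L P f) a b c d := by
  have hsg : ∀ x : Mem L, sgN P f x.1 = (sg (ptM hn hP) (dM L P f) x).1 := by
    intro x
    unfold sgN sg
    by_cases h : f (fsN P x.1) = true
    · rw [if_pos h, if_pos (show dM L P f x = true from h)]
      rfl
    · rw [if_neg h, if_neg (show ¬ dM L P f x = true from h)]
  unfold flB fl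
  rw [hsg a, hsg b, hsg c, hsg d]
  exact crB_iff

/-- PROOF. Unfold decB, simp with Bool.and_eq_true etc.; sqB_iff, k4B_iff of SOV.TstOk, flB_iff; ptM .. a = b ↔ ptN P a.1 = b.1 (Subtype.ext_iff). If Sq holds the four points are different or a = b / c = d, so the inequalities in tM hold or the first two fields fail. -/
theorem decB_iff (hn : L.Nodup) (hP : Prs L P) (f : ℕ → Bool) (a b c d : Mem L) :
    decB M L P f a.1 b.1 c.1 d.1 = true ↔ Dec (gL M L) (CrD L.attach) (ptM hn hP) (dM L P f) (tM M L f) a b c d := by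
  have nt : ∀ b : Bool, (!b) = true ↔ ¬ (b = true) := by
    intro b
    cases b <;> simp
  have hv : ∀ x y : Mem L, x.1 = y.1 ↔ x = y := fun x y => ⟨fun e => Subtype.ext e, fun e => congrArg Subtype.val e⟩
  have hpt : ∀ x y : Mem L, ptN P x.1 = y.1 ↔ ptM hn hP x = y := fun x y =>
    ⟨fun e => Subtype.ext e, fun e => congrArg Subtype.val e⟩
  have e : decB M L P f a.1 b.1 c.1 d.1 = true ↔ (a ≠ b ∧ c ≠ d ∧ Sq (gL M L) a b c d ∧
      ¬ fl (CrD L.attach) (ptM hn hP) (dM L P f) a b c d ∧ (¬ K4 (gL M L) a b c d ∨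
      ((¬ (ptM hn hP a = b ∨ ptM hn hP c = d) ∨ tv M f a.1 b.1 c.1 d.1 = true) ∧
      (¬ (ptM hn hP a = c ∨ ptM hn hP b = d) ∨ ¬ (tv M f a.1 c.1 b.1 d.1 = true)) ∧
      (¬ (ptM hn hP a = d ∨ ptM hn hP b = c) ∨ ¬ (tv M f a.1 d.1 b.1 c.1 = true)) ∧
      (¬ NP (ptM hn hP) a b c d ∨ tv M f a.1 b.1 c.1 d.1 = true)))) := by
    unfold decB npB NP
    simp only [Bool.and_eq_true, Bool.or_eq_true, nt, decide_eq_true_eq, ne_eq, hv, hpt, sqB_iff, k4B_iff,
      flB_iff hn hP]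
  rw [e]
  constructor
  · rintro ⟨h1, h2, h3, h4, h5⟩
    have ac : a ≠ c := h3.1.ne
    have ad : a ≠ d := h3.2.1.ne
    have bc : b ≠ c := h3.2.2.1.ne
    have bd : b ≠ d := h3.2.2.2.ne
    refine ⟨h1, h2, h3, h4, ?_, ?_, ?_, ?_⟩
    · intro hk hp
      rcases h5 with h5 | h5
      · exact absurd hk h5
      · exact ⟨ac, ad, bc, bd, h5.1.resolve_left (fun h => h hp)⟩
    · intro hk hp ht
      rcases h5 with h5 | h5
      · exact h5 hk
      · exact h5.2.1.resolve_left (fun h => h hp) ht.2.2.2.2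
    · intro hk hp ht
      rcases h5 with h5 | h5
      · exact h5 hk
      · exact h5.2.2.1.resolve_left (fun h => h hp) ht.2.2.2.2
    · intro hk hp
      rcases h5 with h5 | h5
      · exact absurd hk h5
      · exact ⟨ac, ad, bc, bd, h5.2.2.2.resolve_left (fun h => h hp)⟩
  · rintro ⟨h1, h2, h3, h4, h5, h6, h7, h8⟩
    have ac : a ≠ c := h3.1.ne
    have ad : a ≠ d := h3.2.1.ne
    have bc : b ≠ c := h3.2.2.1.ne
    have bd : b ≠ d := h3.2.2.2.ne
    refine ⟨h1, h2, h3, h4, ?_⟩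
    by_cases hk : K4 (gL M L) a b c d
    · refine Or.inr ⟨?_, ?_, ?_, ?_⟩
      · by_cases hp : ptM hn hP a = b ∨ ptM hn hP c = d
        · exact Or.inr (h5 hk hp).2.2.2.2
        · exact Or.inl hp
      · by_cases hp : ptM hn hP a = c ∨ ptM hn hP b = d
        · exact Or.inr (fun ht => h6 hk hp ⟨h1, ad, bc.symm, h2, ht⟩)
        · exact Or.inl hp
      · by_cases hp : ptM hn hP a = d ∨ ptM hn hP b = c
        · exact Or.inr (fun ht => h7 hk hp ⟨h1, ac, bd.symm, h2.symm, ht⟩)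
        · exact Or.inl hp
      · by_cases hp : NP (ptM hn hP) a b c d
        · exact Or.inr (h8 hk hp).2.2.2.2
        · exact Or.inl hp
    · exact Or.inl hk

/-- PROOF. lvB: List.all_eq_true; members of S are members of L. (→) swap₁, swap₂: dec_sw1, dec_sw2 (ptn_M, cst_M, sy_M); ne, adj, nocross: fields of Dec; some, notboth, trans, ferrers, k5: someB, nbB, trB, feB, kkB with decB_iff, flB_iff, k5fB_iff, k5B_iff. (←) the same. feB M L P f a b c d x y is called with (a, b, x, y, x', y') := (a, b, c, d, x, y). -/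
theorem lvB_iff (hn : L.Nodup) (hP : Prs L P) (f : ℕ → Bool) {S : List ℕ} (hS : ∀ x ∈ S, x ∈ L) :
    lvB M L P S f = true ↔ QS (gL M L) (fl (CrD L.attach) (ptM hn hP) (dM L P f))
      (Dec (gL M L) (CrD L.attach) (ptM hn hP) (dM L P f) (tM M L f)) (fun x => x.1 ∈ S) := by
  have nt : ∀ b : Bool, (!b) = true ↔ ¬ (b = true) := by
    intro b
    cases b <;> simp
  have hv : ∀ x y : Mem L, x.1 = y.1 ↔ x = y := fun x y => ⟨fun e => Subtype.ext e, fun e => congrArg Subtype.val e⟩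
  have key : lvB M L P S f = true ↔ ∀ a ∈ S, ∀ b ∈ S, ∀ c ∈ S, ∀ d ∈ S, someB M L P f a b c d = true ∧
      nbB M L P f a b c d = true ∧ (∀ x ∈ S, trB M L P f a b c d x = true ∧ kkB M L P f a b c d x = true) ∧
      ∀ x ∈ S, ∀ y ∈ S, feB M L P f a b c d x y = true := by
    unfold lvB
    simp only [List.all_eq_true, Bool.and_eq_true]
  have hD := decB_iff (M := M) hn hP f
  have hF := flB_iff hn hP f
  have kA : ∀ a b : Mem L, adjB M a.1 b.1 = true ↔ (gL M L).Adj a b := fun a b => adj_iff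
  have k1 : ∀ a b c d : Mem L, someB M L P f a.1 b.1 c.1 d.1 = true ↔
      (¬ ((gL M L).Adj a c ∧ (gL M L).Adj b d ∧ ¬ a = b ∧ ¬ a = d ∧ ¬ b = c ∧ ¬ c = d ∧
        fl (CrD L.attach) (ptM hn hP) (dM L P f) a c b d) ∨
        (Dec (gL M L) (CrD L.attach) (ptM hn hP) (dM L P f) (tM M L f) a b c d ∨
        Dec (gL M L) (CrD L.attach) (ptM hn hP) (dM L P f) (tM M L f) a d b c)) := by
    intro a b c d
    unfold someB
    simp only [Bool.and_eq_true, Bool.or_eq_true, nt, decide_eq_true_eq, ne_eq, hv, hD, hF, kA]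
  have k2 : ∀ a b c d : Mem L, nbB M L P f a.1 b.1 c.1 d.1 = true ↔
      ¬ (Dec (gL M L) (CrD L.attach) (ptM hn hP) (dM L P f) (tM M L f) a b c d ∧
        Dec (gL M L) (CrD L.attach) (ptM hn hP) (dM L P f) (tM M L f) a d b c) := by
    intro a b c d
    unfold nbB
    simp only [Bool.and_eq_true, nt, hD]
  have k3 : ∀ u w x y z : Mem L, trB M L P f u.1 w.1 x.1 y.1 z.1 = true ↔
      (¬ (K5F (gL M L) [u, w, x, y, z] ∧ Dec (gL M L) (CrD L.attach) (ptM hn hP) (dM L P f) (tM M L f) u w x y ∧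
        Dec (gL M L) (CrD L.attach) (ptM hn hP) (dM L P f) (tM M L f) u w y z ∧ ¬ x = z) ∨
        Dec (gL M L) (CrD L.attach) (ptM hn hP) (dM L P f) (tM M L f) u w x z) := by
    intro u w x y z
    unfold trB
    simp only [Bool.and_eq_true, Bool.or_eq_true, nt, decide_eq_true_eq, ne_eq, hv, hD, k5f5_iff]
  have k4 : ∀ a b x y x' y' : Mem L, feB M L P f a.1 b.1 x.1 y.1 x'.1 y'.1 = true ↔
      (¬ (K5F (gL M L) [a, b, x, y, x', y'] ∧ Dec (gL M L) (CrD L.attach) (ptM hn hP) (dM L P f) (tM M L f) a x b y ∧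
        Dec (gL M L) (CrD L.attach) (ptM hn hP) (dM L P f) (tM M L f) a x' b y') ∨
        (Dec (gL M L) (CrD L.attach) (ptM hn hP) (dM L P f) (tM M L f) a x b y' ∨
        Dec (gL M L) (CrD L.attach) (ptM hn hP) (dM L P f) (tM M L f) a x' b y)) := by
    intro a b x y x' y'
    unfold feB
    simp only [Bool.and_eq_true, Bool.or_eq_true, nt, hD, k5f6_iff]
  have k5 : ∀ a b c d x : Mem L, kkB M L P f a.1 b.1 c.1 d.1 x.1 = true ↔
      (¬ (K5 (gL M L) a b c d x ∧ fl (CrD L.attach) (ptM hn hP) (dM L P f) x a c d ∧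
        fl (CrD L.attach) (ptM hn hP) (dM L P f) x b c d ∧
        Dec (gL M L) (CrD L.attach) (ptM hn hP) (dM L P f) (tM M L f) a b c d) ∨
        Dec (gL M L) (CrD L.attach) (ptM hn hP) (dM L P f) (tM M L f) a b c x) := by
    intro a b c d x
    unfold kkB
    simp only [Bool.and_eq_true, Bool.or_eq_true, nt, hD, hF, k5B_iff]
  rw [key]
  constructor
  · intro h
    refine ⟨?_, ?_, ?_, ?_, ?_, ?_, ?_, ?_, ?_, ?_⟩
    · intro a b c d _ _ _ _ ht
      exact dec_sw1 (ptn_M hn hP) (cst_M hn hP f) (sy_M f) ht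
    · intro a b c d _ _ _ _ ht
      exact dec_sw2 (ptn_M hn hP) (cst_M hn hP f) (sy_M f) ht
    · intro a b c d _ _ _ _ ht
      exact ht.ab
    · intro a b c d _ _ _ _ ht
      exact ht.sq.1
    · intro a b c d _ _ _ _ ht
      exact ht.nc
    · intro a b c d ha hb hc hd h1 h2 h3 h4 h5 h6 h7
      rcases (k1 a b c d).1 (h _ ha _ hb _ hc _ hd).1 with h8 | h8
      · exact absurd ⟨h1, h2, h3, h4, h5, h6, h7⟩ h8
      · exact h8
    · intro a b c d ha hb hc hd h1 h2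
      exact (k2 a b c d).1 (h _ ha _ hb _ hc _ hd).2.1 ⟨h1, h2⟩
    · intro u w x y z hu hw hx hy hz h1 h2 h3 h4
      rcases (k3 u w x y z).1 ((h _ hu _ hw _ hx _ hy).2.2.1 _ hz).1 with h8 | h8
      · exact absurd ⟨h1, h2, h3, h4⟩ h8
      · exact h8
    · intro a b x y x' y' ha hb hx hy hx' hy' h1 h2 h3
      rcases (k4 a b x y x' y').1 ((h _ ha _ hb _ hx _ hy).2.2.2 _ hx' _ hy') with h8 | h8
      · exact absurd ⟨h1, h2, h3⟩ h8
      · exact h8
    · intro a b c d x ha hb hc hd hx h1 h2 h3 h4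
      rcases (k5 a b c d x).1 ((h _ ha _ hb _ hc _ hd).2.2.1 _ hx).2 with h8 | h8
      · exact absurd ⟨h1, h2, h3, h4⟩ h8
      · exact h8
  · intro h a ha b hb c hc d hd
    refine ⟨?_, ?_, ?_, ?_⟩
    · refine (k1 ⟨a, hS a ha⟩ ⟨b, hS b hb⟩ ⟨c, hS c hc⟩ ⟨d, hS d hd⟩).2 ?_
      by_contra hcon
      rw [not_or, not_not] at hcon
      obtain ⟨⟨h1, h2, h3, h4, h5, h6, h7⟩, h8⟩ := hcon
      exact h8 (h.some ha hb hc hd h1 h2 h3 h4 h5 h6 h7)
    · refine (k2 ⟨a, hS a ha⟩ ⟨b, hS b hb⟩ ⟨c, hS c hc⟩ ⟨d, hS d hd⟩).2 ?_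
      rintro ⟨h1, h2⟩
      exact h.notboth ha hb hc hd h1 h2
    · intro x hx
      constructor
      · refine (k3 ⟨a, hS a ha⟩ ⟨b, hS b hb⟩ ⟨c, hS c hc⟩ ⟨d, hS d hd⟩ ⟨x, hS x hx⟩).2 ?_
        by_contra hcon
        rw [not_or, not_not] at hcon
        obtain ⟨⟨h1, h2, h3, h4⟩, h8⟩ := hcon
        exact h8 (h.trans ha hb hc hd hx h1 h2 h3 h4)
      · refine (k5 ⟨a, hS a ha⟩ ⟨b, hS b hb⟩ ⟨c, hS c hc⟩ ⟨d, hS d hd⟩ ⟨x, hS x hx⟩).2 ?_
        by_contra hcon
        rw [not_or, not_not] at hcon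
        obtain ⟨⟨h1, h2, h3, h4⟩, h8⟩ := hcon
        exact h8 (h.k5 ha hb hc hd hx h1 h2 h3 h4)
    · intro x hx y hy
      refine (k4 ⟨a, hS a ha⟩ ⟨b, hS b hb⟩ ⟨c, hS c hc⟩ ⟨d, hS d hd⟩ ⟨x, hS x hx⟩ ⟨y, hS y hy⟩).2 ?_
      by_contra hcon
      rw [not_or, not_not] at hcon
      obtain ⟨⟨h1, h2, h3⟩, h8⟩ := hcon
      exact h8 (h.ferrers ha hb hc hd hx hy h1 h2 h3)

end Pool.Agent.SOX
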