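import Pool.Agent.SOX.FI
import Pool.Agent.SOX.FD
import Pool.Agent.SOX.FG

/-! Project SOX (MP_66ba69_lc, the rigid step: orders with flippable pairs), module FJ (size 3): structures for the flipped orders.
-/

set_option autoImplicit false

namespace Pool.Agent.SOX

open Pool.Agent.SOC Pool.Agent.SOD Pool.Agent.SOS Pool.Agent.RUP Pool.Agent.SOF Pool.Agent.SOV Pool.Agent.SOB FP

variable {M : List (List Bool)} {L : List ℕ} {P : List (ℕ × ℕ)}

theorem fj_sg (hn : L.Nodup) (hP : Prs L P) (f : ℕ → Bool) (x : Mem L) :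
    (sg (ptM hn hP) (dM L P f) x).1 = sgN P f x.1 := by
  unfold sg sgN dM ptM
  split_ifs <;> rfl

theorem fj_cross (hn : L.Nodup) (hP : Prs L P) (f : ℕ → Bool) (a b c d : Mem L) :
    CrD (L.attach.map (sg (ptM hn hP) (dM L P f))) a b c d ↔
      fl (CrD L.attach) (ptM hn hP) (dM L P f) a b c d := by
  have hp := ptn_M hn hP
  have hc := cst_M hn hP f
  have inj : ∀ {x y : Mem L}, sg (ptM hn hP) (dM L P f) x = sg (ptM hn hP) (dM L P f) y ↔ x = y :=
    fun {x y} => ⟨fun e => sg_inj hp hc e, fun e => by rw [e]⟩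
  have key : ∀ x : Mem L, @List.idxOf (Mem L) instBEqOfDecidableEq x (L.attach.map (sg (ptM hn hP) (dM L P f))) =
      @List.idxOf (Mem L) instBEqOfDecidableEq (sg (ptM hn hP) (dM L P f) x) L.attach := by
    intro x
    have h := idxOf_map_of (l := L.attach) (f := sg (ptM hn hP) (dM L P f)) (fun x _ y _ e => sg_inj hp hc e)
      (List.mem_attach L (sg (ptM hn hP) (dM L P f) x))
    rw [sg_sg hp hc] at h
    exact h
  unfold fl CrD
  refine and_congr ?_ ?_
  · simp only [ne_eq, inj]
  · unfold Cross SOC.Btw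
    simp only [key]

theorem fj_enum (hn : L.Nodup) (hP : Prs L P) (f : ℕ → Bool) :
    IsEnum (L.attach.map (sg (ptM hn hP) (dM L P f))) := by
  have hp := ptn_M hn hP
  have hc := cst_M hn hP f
  refine ⟨(List.nodup_attach.2 hn).map fun x y e => sg_inj hp hc e, fun v => ?_⟩
  exact List.mem_map.2 ⟨sg (ptM hn hP) (dM L P f) v, List.mem_attach _ _, sg_sg hp hc v⟩

theorem fj_list (hn : L.Nodup) (hP : Prs L P) (f : ℕ → Bool) :
    (L.attach.map (sg (ptM hn hP) (dM L P f))).map Subtype.val = L.map (sgN P f) := by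
  rw [List.map_map]
  have e : (Subtype.val ∘ sg (ptM hn hP) (dM L P f) : Mem L → ℕ) = fun x => sgN P f x.1 := by
    funext x
    exact fj_sg hn hP f x
  rw [e]
  conv_rhs => rw [← List.attach_map_subtype_val L]
  rw [List.map_map]
  rfl

theorem fj_qf {V : Type} [DecidableEq V] {G : SimpleGraph V} {s : List V} {T : V → V → V → V → Prop}
    (h : QF G (CrD s) T) : QF G (Cross s) T := by
  refine ⟨h.swap₁, h.swap₂, h.ne, h.adj, ?_, ?_, h.notboth, h.trans, h.ferrers, ?_⟩
  · intro a b c d ht hx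
    have h4 := h.adj4 ht
    exact h.nocross ht ⟨⟨h.ne ht, h4.1.ne, h4.2.1.ne, h4.2.2.1.ne, h4.2.2.2.ne, h.ne' ht⟩, hx⟩
  · intro a b c d ac bd ab ad bc cd hx
    exact h.some ac bd ab ad bc cd ⟨⟨ac.ne, ab, ad, bc.symm, cd, bd.ne⟩, hx⟩
  · intro a b c d x hk h1 h2 h3
    obtain ⟨ab, ac, ad, ax, bc, bd, bx, cd, cx, dx⟩ := id hk
    exact h.k5 hk ⟨⟨ax.ne.symm, cx.ne.symm, dx.ne.symm, ac.ne, ad.ne, cd.ne⟩, h1⟩
      ⟨⟨bx.ne.symm, cx.ne.symm, dx.ne.symm, bc.ne, bd.ne, cd.ne⟩, h2⟩ h3

/-- PROOF. Let σ := sg (ptM hn hP) (dM L P f) : Mem L → Mem L, an involution (sg_sg, ptn_M, cst_M), s := L.attach.map σ: IsEnum s. idxOf (σ a) s = idxOf a L.attach (idxOf_map_of), so idxOf a s = idxOf (σ a) L.attach (σ (σ a) = a) and Cross s a b c d ↔ Cross L.attach (σ a) (σ b) (σ c) (σ d).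
(L.attach.map σ).map Subtype.val = L.map (sgN P f). Val_map for f := Subtype.val (injective; gL M L is the comap): Val (gL M L) s ↔ Val (gN M) (L.map (sgN P f)). Val_enum: Val (gL M L) s ↔ ∃ T, QT (gL M L) (Cross s) T. (→) SOV.qf_of_qt or by hand: QT gives QF for CrD / Cross; replace Cross s by fl (CrD L.attach) ..: they agree for different points; the crossing relation is used in QF only for different points (nocross: the points of T are different). (←) QF G (Cross s) T the same way, then exists_qt. -/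
theorem val_qf (hn : L.Nodup) (hP : Prs L P) (f : ℕ → Bool) : Val (gN M) (L.map (sgN P f)) ↔
    ∃ T, QF (gL M L) (fl (CrD L.attach) (ptM hn hP) (dM L P f)) T := by
  have hs := fj_enum hn hP f
  have e : (CrD (L.attach.map (sg (ptM hn hP) (dM L P f)))) = fl (CrD L.attach) (ptM hn hP) (dM L P f) := by
    funext a b c d
    exact propext (fj_cross hn hP f a b c d)
  rw [← fj_list hn hP f, ← Val_map (G' := gL M L) (G := gN M) (l := L.attach.map (sg (ptM hn hP) (dM L P f)))
    (f := Subtype.val) (fun _ _ _ _ h => Subtype.ext h) (fun _ _ _ _ => Iff.rfl), Val_enum hs, ← e]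
  constructor
  · rintro ⟨T, hT⟩
    exact ⟨T, qf_of_qt hs hT⟩
  · rintro ⟨T, hT⟩
    exact exists_qt hs (fj_qf hT)

/-- PROOF. val_qf: it is enough to show QF for T := Dec ..: qf_of_six (L := L.attach, nodup, length): for l : List (Mem L) of length 6, nodup: S := l.map Subtype.val ∈ six L (mem_six) (injective, so nodup); lvB_iff, h S; x.1 ∈ S ↔ x ∈ l. -/
theorem val_of_lv (hn : L.Nodup) (h6 : 6 ≤ L.length) (hP : Prs L P) {f : ℕ → Bool} (h : ∀ S ∈ six L, lvB M L P S f = true) :
    Val (gN M) (L.map (sgN P f)) := by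
  rw [val_qf hn hP]
  refine ⟨Dec (gL M L) (CrD L.attach) (ptM hn hP) (dM L P f) (tM M L f), ?_⟩
  refine qf_of_six (L := L.attach) (List.nodup_attach.2 hn) (by rw [List.length_attach]; exact h6) ?_
  intro l hl hl'
  have hS : ∀ x ∈ l.map Subtype.val, x ∈ L := by
    intro x hx
    obtain ⟨y, -, rfl⟩ := List.mem_map.1 hx
    exact y.2
  have h1 := (lvB_iff (M := M) hn hP f hS).1 (h _ (mem_six.2 ⟨by rw [List.length_map]; exact hl,
    hl'.map Subtype.val_injective, hS⟩))
  have e : (fun x : Mem L => x.1 ∈ l.map Subtype.val) = fun x => x ∈ l := by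
    funext x
    refine propext ⟨fun hx => ?_, fun hx => List.mem_map_of_mem hx⟩
    obtain ⟨y, hy, e⟩ := List.mem_map.1 hx
    rwa [← Subtype.ext e]
  rw [e] at h1
  exact h1

/-- PROOF. val_qf for f gives T with QF. Choose g : ℕ → Bool with g v = f v for v < n := M.length and, for all a, b, c, d in Mem L, different: g (n + cn n a.1 b.1 c.1 d.1) = true ↔ T a b c d; for example g v := if v < n then f v else decide (∃ a b c d : Mem L, v = n + cn n a.1 b.1 c.1 d.1 ∧ T a b c d): well defined by cn_inj and the symmetry of T (members of L are < n: hL). fsN P x < n for x in L, so dM L P g = dM L P f. tM M L g a b c d ↔ T a b c d (T implies that the points are different).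
dec_enc: T ↔ Dec .. T; so Dec .. (tM M L g) = T (Dec depends only on the values of t: funext). QF for this T gives QS for all S (qs_of_qf), lvB_iff. -/
theorem lv_of_val (hn : L.Nodup) (hP : Prs L P) (hL : ∀ x ∈ L, x < M.length) {f : ℕ → Bool} (h : Val (gN M) (L.map (sgN P f))) :
    ∃ g : ℕ → Bool, ∀ S ∈ six L, lvB M L P S g = true := by
  classical
  obtain ⟨T, hT⟩ := (val_qf hn hP f).1 h
  have mem : ∀ x : Mem L, x.1 < M.length := fun x => hL x.1 x.2
  set g : ℕ → Bool := fun v => if v < M.length then f v else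
    decide (∃ a b c d : Mem L, v = M.length + cn M.length a.1 b.1 c.1 d.1 ∧ T a b c d) with hg
  have e1 : dM L P g = dM L P f := by
    funext x
    unfold dM
    have h1 : fsN P x.1 < M.length := by
      rcases fg_fsN P x.1 with e | ⟨p, hp, e⟩
      · rw [e]; exact mem x
      · rw [e]
        obtain ⟨u, w, hu⟩ := hP.cons p hp
        exact hL p.1 (by rw [hu]; simp)
    rw [hg]
    simp only [if_pos h1]
  have e2 : tM M L g = T := by
    funext a b c d
    refine propext ?_
    unfold tM tv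
    have h1 : g (M.length + cn M.length a.1 b.1 c.1 d.1) = true ↔ ∃ a' b' c' d' : Mem L,
        M.length + cn M.length a.1 b.1 c.1 d.1 = M.length + cn M.length a'.1 b'.1 c'.1 d'.1 ∧ T a' b' c' d' := by
      rw [hg]
      simp only [if_neg (show ¬ M.length + cn M.length a.1 b.1 c.1 d.1 < M.length by omega), decide_eq_true_eq]
    rw [h1]
    constructor
    · rintro ⟨-, -, -, -, a', b', c', d', e, ht⟩
      have h2 := cn_inj (mem a) (mem b) (mem c) (mem d) (mem a') (mem b') (mem c') (mem d') (by omega)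
      rw [Set.pair_eq_pair_iff, Set.pair_eq_pair_iff, Set.pair_eq_pair_iff, Set.pair_eq_pair_iff] at h2
      have S1 := fun {a b c d} (h : T a b c d) => hT.swap₁ h
      have S2 := fun {a b c d} (h : T a b c d) => hT.swap₂ h
      have S3 := fun {a b c d} (h : T a b c d) => hT.sw3 h
      rcases h2 with ⟨h2, h3⟩ | ⟨h2, h3⟩
      · rcases h2 with ⟨k1, k2⟩ | ⟨k1, k2⟩ <;> rcases h3 with ⟨k3, k4⟩ | ⟨k3, k4⟩ <;>
          rw [Subtype.ext k1, Subtype.ext k2, Subtype.ext k3, Subtype.ext k4]
        · exact ht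
        · exact S3 ht
        · exact S1 ht
        · exact S1 (S3 ht)
      · rcases h2 with ⟨k1, k2⟩ | ⟨k1, k2⟩ <;> rcases h3 with ⟨k3, k4⟩ | ⟨k3, k4⟩ <;>
          rw [Subtype.ext k1, Subtype.ext k2, Subtype.ext k3, Subtype.ext k4]
        · exact S2 ht
        · exact S2 (S1 ht)
        · exact S2 (S3 ht)
        · exact S2 (S1 (S3 ht))
    · intro ht
      have h4 := hT.adj4 ht
      exact ⟨h4.1.ne, h4.2.1.ne, h4.2.2.1.ne, h4.2.2.2.ne, a, b, c, d, rfl, ht⟩
  have e3 : Dec (gL M L) (CrD L.attach) (ptM hn hP) (dM L P f) T = T := by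
    funext a b c d
    exact propext (dec_enc (ptn_M hn hP) (cst_M hn hP f) hT).symm
  refine ⟨g, fun S hS => ?_⟩
  rw [lvB_iff hn hP g (mem_six.1 hS).2.2, e1, e2, e3]
  exact qs_of_qf hT _

end Pool.Agent.SOX
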