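import Pool.Agent.SOX.FJ
import Pool.Agent.SOX.FG
import Pool.Agent.SOX.FE

/-! Project SOX (MP_66ba69_lc, the rigid step: orders with flippable pairs), module FK (size 2): the solver for orders with flippable pairs.
-/

set_option autoImplicit false

namespace Pool.Agent.SOX

open Pool.Agent.SOC Pool.Agent.SOD Pool.Agent.SOS Pool.Agent.RUP Pool.Agent.SOF Pool.Agent.SOV Pool.Agent.SOB FP

variable {M : List (List Bool)} {L : List ℕ} {P : List (ℕ × ℕ)}

/-- the hypothesis of majority -/
def MajS (M : List (List Bool)) (L : List ℕ) (P : List (ℕ × ℕ)) : Prop :=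
  ∀ S ∈ six L, ∀ f g h : ℕ → Bool, lvB M L P S f = true → lvB M L P S g = true → lvB M L P S h = true →
    lvB M L P S (fun v => maj (f v) (g v) (h v)) = true

theorem FK_pos (h6 : 6 ≤ L.length) (hL : ∀ x ∈ L, x < M.length) : 0 < nvF M := by
  have h0 : 0 < L.length := by omega
  have := hL _ (List.getElem_mem h0)
  unfold nvF
  omega

theorem FK_holds {S : List ℕ} (hS : S ∈ six L) (f : ℕ → Bool) :
    Holds f (con (allB lsc) (scp M.length P S) (lvB M L P S)) ↔ lvB M L P S f = true := by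
  obtain ⟨h6, -, -⟩ := mem_six.mp hS
  have hlen : (scp M.length P S).length = lsc := scp_len h6
  rw [← hlen]
  exact con_holds (fun f g h => lvB_congr h) f

/-- PROOF. sysF: con_maj (with lvB_congr and MajS), scp_len, scp_lt. -/
theorem sysF_ok (hP : Prs L P) (hL : ∀ x ∈ L, x < M.length) (hm : MajS M L P) : ∀ c ∈ sysF M L P, MajC c ∧ ∀ x ∈ c.1, x < nvF M := by
  intro c hc
  obtain ⟨S, hS, rfl⟩ := List.mem_map.mp hc
  obtain ⟨h6, -, hSL⟩ := mem_six.mp hS
  have hlen : (scp M.length P S).length = lsc := scp_len h6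
  rw [← hlen]
  refine ⟨con_maj (fun f g h => lvB_congr h) (fun f g h => hm S hS f g h), ?_⟩
  exact scp_lt hL hP hSL

/-- PROOF. solveC_some, con_holds: val u satisfies all lvB; val_of_lv. -/
theorem flipSol_some (hn : L.Nodup) (h6 : 6 ≤ L.length) (hP : Prs L P) (hL : ∀ x ∈ L, x < M.length) (hm : MajS M L P) {u : List ℕ}
    (h : flipSol M L P = some u) : Val (gN M) (ordF L P u) := by
  have h0 := FK_pos h6 hL
  have hs := solveC_some h0 (sysF_ok hP hL hm) h
  refine val_of_lv hn h6 hP (fun S hS => ?_)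
  exact (FK_holds hS (val u)).mp (hs _ (List.mem_map.mpr ⟨S, hS, rfl⟩))

/-- PROOF. solveC_none and con_holds: no g satisfies all lvB; lv_of_val. nvF M > 0 since L is not empty. -/
theorem flipSol_none (hn : L.Nodup) (h6 : 6 ≤ L.length) (hP : Prs L P) (hL : ∀ x ∈ L, x < M.length) (hm : MajS M L P)
    (h : flipSol M L P = none) (f : ℕ → Bool) : ¬ Val (gN M) (L.map (sgN P f)) := by
  intro hV
  have h0 := FK_pos h6 hL
  obtain ⟨g, hg⟩ := lv_of_val hn hP hL hV
  refine solveC_none h0 (sysF_ok hP hL hm) h ⟨g, ?_⟩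
  intro c hc
  obtain ⟨S, hS, rfl⟩ := List.mem_map.mp hc
  exact (FK_holds hS g).mpr (hg S hS)

end Pool.Agent.SOX
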