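import Pool.Agent.SOX.FI
import Pool.Agent.SOX.FE

/-! Project SOX (MP_66ba69_lc, the rigid step: orders with flippable pairs), module FM (size 2): majority for the Boolean test from the theorem on structures.
-/

set_option autoImplicit false

namespace Pool.Agent.SOX

open Pool.Agent.SOC Pool.Agent.SOD Pool.Agent.SOS Pool.Agent.RUP Pool.Agent.SOF Pool.Agent.SOV Pool.Agent.SOB FP

variable {M : List (List Bool)} {L : List ℕ} {P : List (ℕ × ℕ)}

/-- PROOF. Let F v := maj (f v) (g v) (h v). dM L P F = mD (dM L P f) (dM L P g) (dM L P h) (mjB and maj are the same function). tM M L F a b c d ↔ mT (tM M L f) (tM M L g) (tM M L h) a b c d (the inequalities are the same in all). lvB_iff for all, maj_easy; its hypothesis Q56 is hq after rewriting. -/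
theorem lvB_maj (hn : L.Nodup) (hP : Prs L P) {S : List ℕ} (hS : ∀ x ∈ S, x ∈ L) {f g h : ℕ → Bool}
    (hf : lvB M L P S f = true) (hg : lvB M L P S g = true) (hh : lvB M L P S h = true)
    (hq : Q56 (gL M L) (fl (CrD L.attach) (ptM hn hP) (mD (dM L P f) (dM L P g) (dM L P h)))
      (Dec (gL M L) (CrD L.attach) (ptM hn hP) (mD (dM L P f) (dM L P g) (dM L P h)) (mT (tM M L f) (tM M L g) (tM M L h)))
      (fun x => x.1 ∈ S)) : lvB M L P S (fun v => maj (f v) (g v) (h v)) = true := by
  have e1 : dM L P (fun v => maj (f v) (g v) (h v)) = mD (dM L P f) (dM L P g) (dM L P h) := rfl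
  have e2 : tM M L (fun v => maj (f v) (g v) (h v)) = mT (tM M L f) (tM M L g) (tM M L h) := by
    funext a b c d
    apply propext
    have e3 : tv M (fun v => maj (f v) (g v) (h v)) a.1 b.1 c.1 d.1 =
        maj (tv M f a.1 b.1 c.1 d.1) (tv M g a.1 b.1 c.1 d.1) (tv M h a.1 b.1 c.1 d.1) := rfl
    unfold mT mjP tM
    rw [e3]
    generalize tv M f a.1 b.1 c.1 d.1 = x
    generalize tv M g a.1 b.1 c.1 d.1 = y
    generalize tv M h a.1 b.1 c.1 d.1 = z
    cases x <;> cases y <;> cases z <;> simp [maj]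
  refine (lvB_iff hn hP _ hS).mpr ?_
  rw [e1, e2]
  exact maj_easy (ptn_M hn hP) (cst_M hn hP f) (cst_M hn hP g) (cst_M hn hP h) (sy_M f) (sy_M g) (sy_M h)
    ((lvB_iff hn hP f hS).mp hf) ((lvB_iff hn hP g hS).mp hg) ((lvB_iff hn hP h hS).mp hh) hq

end Pool.Agent.SOX
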