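import Pool.Agent.SOX.FE

/-! Project SOX (MP_66ba69_lc), module QLem: three orders with flippable pairs and their majority, as relations for refutations. -/

set_option autoImplicit false

namespace Pool.Agent.SOX

open Pool.Agent.RUP Pool.Agent.SOF

variable {V : Type} {G : SimpleGraph V} {X T : V → V → V → V → Prop} {t : V → V → V → V → Prop} {pt : V → V} {D : V → Bool}

/-- the facts about the pairs: the two points are adjacent; the edges between two pairs do not form an induced matching or path -/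
structure PrF (G : SimpleGraph V) (pt : V → V) : Prop where
  adj : ∀ x, pt x ≠ x → G.Adj x (pt x)
  bi : ∀ x y, pt x ≠ x → pt y ≠ y → y ≠ x → y ≠ pt x → G.Adj x y → G.Adj (pt x) (pt y) → G.Adj x (pt y)

/-- smaller sets -/
theorem QS.mono {S S' : V → Prop} (h : QS G X T S) (hS : ∀ x, S' x → S x) : QS G X T S' where
  swap₁ := fun a b c d => h.swap₁ (hS _ a) (hS _ b) (hS _ c) (hS _ d)
  swap₂ := fun a b c d => h.swap₂ (hS _ a) (hS _ b) (hS _ c) (hS _ d)
  ne := fun a b c d => h.ne (hS _ a) (hS _ b) (hS _ c) (hS _ d)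
  adj := fun a b c d => h.adj (hS _ a) (hS _ b) (hS _ c) (hS _ d)
  nocross := fun a b c d => h.nocross (hS _ a) (hS _ b) (hS _ c) (hS _ d)
  some := fun a b c d => h.some (hS _ a) (hS _ b) (hS _ c) (hS _ d)
  notboth := fun a b c d => h.notboth (hS _ a) (hS _ b) (hS _ c) (hS _ d)
  trans := fun a b c d e => h.trans (hS _ a) (hS _ b) (hS _ c) (hS _ d) (hS _ e)
  ferrers := fun a b c d e f => h.ferrers (hS _ a) (hS _ b) (hS _ c) (hS _ d) (hS _ e) (hS _ f)
  k5 := fun a b c d e => h.k5 (hS _ a) (hS _ b) (hS _ c) (hS _ d) (hS _ e)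

/-- the crossing relation for one pair `a, c` -/
theorem Q_f1 (h : Ptn X pt) (hD : Cst pt D) {a b c d : V} (n02 : a ≠ c) (n01 : a ≠ b) (n03 : a ≠ d) (n12 : b ≠ c) (n23 : c ≠ d)
    (n13 : b ≠ d) (e : pt a = c) (hb : pt b ≠ d) : fl X pt D a b c d ↔ (X a b c d ↔ D a = false) := by
  subst e
  exact fl_pr h hD n02.symm n01 n03 n12.symm n23 n13 hb

/-- the crossing relation for two pairs `a, c` and `b, d` -/
theorem Q_f2 (h : Ptn X pt) (hD : Cst pt D) {a b c d : V} (n02 : a ≠ c) (n01 : a ≠ b) (n12 : b ≠ c)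
    (n13 : b ≠ d) (e : pt a = c) (hb : pt b = d) : fl X pt D a b c d ↔ (X a b c d ↔ D a = D b) := by
  subst e
  subst hb
  exact fl_pr2 h hD n02.symm n13.symm n01 n12.symm

theorem Q_a1 (h : Ptn X pt) (hD : Cst pt D) {a b c d : V} (n02 : a ≠ c) (n01 : a ≠ b) (n03 : a ≠ d) (n12 : b ≠ c) (n23 : c ≠ d)
    (n13 : b ≠ d) (e : pt a = c) (hb : ¬ pt b = d) (h0 : ¬ (a = a ∧ D a = true)) : fl X pt D a b c d ↔ X a b c d := by
  rw [Q_f1 h hD n02 n01 n03 n12 n23 n13 e hb]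
  have : D a = false := by simpa using h0
  simp [this]

theorem Q_a2 (h : Ptn X pt) (hD : Cst pt D) {a b c d : V} (n02 : a ≠ c) (n01 : a ≠ b) (n03 : a ≠ d) (n12 : b ≠ c) (n23 : c ≠ d)
    (n13 : b ≠ d) (e : pt a = c) (hb : ¬ pt b = d) (h0 : a = a ∧ D a = true) : fl X pt D a b c d ↔ ¬ X a b c d := by
  rw [Q_f1 h hD n02 n01 n03 n12 n23 n13 e hb]
  simp [h0.2]

theorem Q_b1 (h : Ptn X pt) (hD : Cst pt D) {a b c d : V} (n02 : a ≠ c) (n01 : a ≠ b) (n12 : b ≠ c)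
    (n13 : b ≠ d) (e : pt a = c) (hb : pt b = d) (h0 : ¬ (a = a ∧ D a = true)) (h1 : ¬ (b = b ∧ D b = true)) :
    fl X pt D a b c d ↔ X a b c d := by
  rw [Q_f2 h hD n02 n01 n12 n13 e hb]
  have e0 : D a = false := by simpa using h0
  have e1 : D b = false := by simpa using h1
  simp [e0, e1]

theorem Q_b2 (h : Ptn X pt) (hD : Cst pt D) {a b c d : V} (n02 : a ≠ c) (n01 : a ≠ b) (n12 : b ≠ c)
    (n13 : b ≠ d) (e : pt a = c) (hb : pt b = d) (h0 : a = a ∧ D a = true) (h1 : b = b ∧ D b = true) :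
    fl X pt D a b c d ↔ X a b c d := by
  rw [Q_f2 h hD n02 n01 n12 n13 e hb]
  simp [h0.2, h1.2]

theorem Q_b3 (h : Ptn X pt) (hD : Cst pt D) {a b c d : V} (n02 : a ≠ c) (n01 : a ≠ b) (n12 : b ≠ c)
    (n13 : b ≠ d) (e : pt a = c) (hb : pt b = d) (h0 : ¬ (a = a ∧ D a = true)) (h1 : b = b ∧ D b = true) :
    fl X pt D a b c d ↔ ¬ X a b c d := by
  rw [Q_f2 h hD n02 n01 n12 n13 e hb]
  have e0 : D a = false := by simpa using h0
  simp [e0, h1.2]

theorem Q_cons (h : Ptn X pt) {a b c d : V} (e : pt a = b) (k : X a b c d) : False := by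
  subst e
  exact h.cons _ _ _ k

/-- majority of three bits -/
theorem Q_m1 {a b c : Bool} (h1 : a = true) (h2 : b = true) : mjB a b c = true := by
  subst h1 h2
  cases c <;> rfl

theorem Q_m2 {a b c : Bool} (h1 : a = true) (h2 : c = true) : mjB a b c = true := by
  subst h1 h2
  cases b <;> rfl

theorem Q_m3 {a b c : Bool} (h1 : b = true) (h2 : c = true) : mjB a b c = true := by
  subst h1 h2
  cases a <;> rfl

theorem Q_n1 {a b c : Bool} (h1 : ¬ a = true) (h2 : ¬ b = true) : ¬ mjB a b c = true := by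
  cases a <;> cases b <;> cases c <;> simp_all [mjB]

theorem Q_n2 {a b c : Bool} (h1 : ¬ a = true) (h2 : ¬ c = true) : ¬ mjB a b c = true := by
  cases a <;> cases b <;> cases c <;> simp_all [mjB]

theorem Q_n3 {a b c : Bool} (h1 : ¬ b = true) (h2 : ¬ c = true) : ¬ mjB a b c = true := by
  cases a <;> cases b <;> cases c <;> simp_all [mjB]

variable {D1 D2 D3 : V → Bool} {t1 t2 t3 : V → V → V → V → Prop}

/-- three tables -/
structure MSy (V : Type) where
  G : SimpleGraph V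
  X : V → V → V → V → Prop
  pt : V → V
  D1 : V → Bool
  D2 : V → Bool
  D3 : V → Bool
  t1 : V → V → V → V → Prop
  t2 : V → V → V → V → Prop
  t3 : V → V → V → V → Prop
  hp : Ptn X pt
  c1 : Cst pt D1
  c2 : Cst pt D2
  c3 : Cst pt D3
  s1 : Sy t1
  s2 : Sy t2
  s3 : Sy t3

/-- the majority of the flips -/
def MSy.D4 (Y : MSy V) : V → Bool := mD Y.D1 Y.D2 Y.D3

/-- the majority of the tables -/
def MSy.t4 (Y : MSy V) : V → V → V → V → Prop := mT Y.t1 Y.t2 Y.t3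

theorem MSy.c4 (Y : MSy V) : Cst Y.pt Y.D4 := mD_cst Y.c1 Y.c2 Y.c3

theorem MSy.s4 (Y : MSy V) : Sy Y.t4 := mT_sy Y.s1 Y.s2 Y.s3

/-- the structures -/
def MSy.T1 (Y : MSy V) : V → V → V → V → Prop := Dec Y.G Y.X Y.pt Y.D1 Y.t1
def MSy.T2 (Y : MSy V) : V → V → V → V → Prop := Dec Y.G Y.X Y.pt Y.D2 Y.t2
def MSy.T3 (Y : MSy V) : V → V → V → V → Prop := Dec Y.G Y.X Y.pt Y.D3 Y.t3
def MSy.T4 (Y : MSy V) : V → V → V → V → Prop := Dec Y.G Y.X Y.pt Y.D4 Y.t4

/-- the crossing relations -/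
def MSy.X1 (Y : MSy V) : V → V → V → V → Prop := fl Y.X Y.pt Y.D1
def MSy.X2 (Y : MSy V) : V → V → V → V → Prop := fl Y.X Y.pt Y.D2
def MSy.X3 (Y : MSy V) : V → V → V → V → Prop := fl Y.X Y.pt Y.D3
def MSy.X4 (Y : MSy V) : V → V → V → V → Prop := fl Y.X Y.pt Y.D4

theorem MSy.p1 (Y : MSy V) : Ptn Y.X1 Y.pt := ptn_fl Y.hp Y.c1
theorem MSy.p2 (Y : MSy V) : Ptn Y.X2 Y.pt := ptn_fl Y.hp Y.c2
theorem MSy.p3 (Y : MSy V) : Ptn Y.X3 Y.pt := ptn_fl Y.hp Y.c3
theorem MSy.p4 (Y : MSy V) : Ptn Y.X4 Y.pt := ptn_fl Y.hp Y.c4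

/-- the relations -/
def MSy.rel (Y : MSy V) : SRel V where
  r2 := fun r a b => match r with
    | 0 => Y.G.Adj a b
    | 1 => Y.pt a = b
    | 2 => a = b ∧ Y.D1 a = true
    | 3 => a = b ∧ Y.D2 a = true
    | 4 => a = b ∧ Y.D3 a = true
    | 5 => a = b ∧ Y.D4 a = true
    | _ => False
  r3 := fun _ _ _ _ => False
  r4 := fun r a b c d => match r with
    | 0 => Y.X a b c d
    | 1 => Y.X1 a b c d
    | 2 => Y.X2 a b c d
    | 3 => Y.X3 a b c d
    | 4 => Y.X4 a b c d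
    | 5 => Y.T1 a b c d
    | 6 => Y.T2 a b c d
    | 7 => Y.T3 a b c d
    | 8 => Y.T4 a b c d
    | _ => False
  s2 := by
    intro r a b h
    match r, h with
    | 0, h => exact SimpleGraph.Adj.symm h
    | 1, h => exact FC_ptn Y.hp h
    | 2, h => exact ⟨h.1.symm, h.1 ▸ h.2⟩
    | 3, h => exact ⟨h.1.symm, h.1 ▸ h.2⟩
    | 4, h => exact ⟨h.1.symm, h.1 ▸ h.2⟩
    | 5, h => exact ⟨h.1.symm, h.1 ▸ h.2⟩
  s3 := fun h => h
  s3' := fun h => h
  s4 := by
    intro r a b c d h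
    match r, h with
    | 0, h => exact Y.hp.sep.swap h
    | 1, h => exact Y.p1.sep.swap h
    | 2, h => exact Y.p2.sep.swap h
    | 3, h => exact Y.p3.sep.swap h
    | 4, h => exact Y.p4.sep.swap h
    | 5, h => exact dec_sw1 Y.hp Y.c1 Y.s1 h
    | 6, h => exact dec_sw1 Y.hp Y.c2 Y.s2 h
    | 7, h => exact dec_sw1 Y.hp Y.c3 Y.s3 h
    | 8, h => exact dec_sw1 Y.hp Y.c4 Y.s4 h
  s4' := by
    intro r a b c d h
    match r, h with
    | 0, h => exact Y.hp.sep.comm h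
    | 1, h => exact Y.p1.sep.comm h
    | 2, h => exact Y.p2.sep.comm h
    | 3, h => exact Y.p3.sep.comm h
    | 4, h => exact Y.p4.sep.comm h
    | 5, h => exact dec_sw2 Y.hp Y.c1 Y.s1 h
    | 6, h => exact dec_sw2 Y.hp Y.c2 Y.s2 h
    | 7, h => exact dec_sw2 Y.hp Y.c3 Y.s3 h
    | 8, h => exact dec_sw2 Y.hp Y.c4 Y.s4 h

/-- two statements give the majority -/
theorem MSy.mj (Y : MSy V) {a b c d : V} (hn : NP Y.pt a b c d ∨ Y.pt a = b) :
    Y.T4 a b c d ↔ mjP (Y.T1 a b c d) (Y.T2 a b c d) (Y.T3 a b c d) :=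
  dec_maj Y.hp Y.c1 Y.c2 Y.c3 (hn.elim Or.inl fun e => Or.inr (Or.inl e))

theorem mjP12 {a b c : Prop} (h1 : a) (h2 : b) : mjP a b c := Or.inl ⟨h1, h2⟩
theorem mjP13 {a b c : Prop} (h1 : a) (h2 : c) : mjP a b c := Or.inr (Or.inl ⟨h1, h2⟩)
theorem mjP23 {a b c : Prop} (h1 : b) (h2 : c) : mjP a b c := Or.inr (Or.inr ⟨h1, h2⟩)
theorem mjN12 {a b c : Prop} (h1 : ¬ a) (h2 : ¬ b) (h : mjP a b c) : False :=
  h.elim (fun k => h1 k.1) fun k => k.elim (fun k => h1 k.1) fun k => h2 k.1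
theorem mjN13 {a b c : Prop} (h1 : ¬ a) (h2 : ¬ c) (h : mjP a b c) : False :=
  h.elim (fun k => h1 k.1) fun k => k.elim (fun k => h1 k.1) fun k => h2 k.2
theorem mjN23 {a b c : Prop} (h1 : ¬ b) (h2 : ¬ c) (h : mjP a b c) : False :=
  h.elim (fun k => h1 k.2) fun k => k.elim (fun k => h2 k.2) fun k => h1 k.1

/-- the pairing which contains the pair and another one -/
theorem Q_tw {a b c d : V} (e : pt a = c) (h1 : Dec G X pt D t a b c d) (h2 : Dec G X pt D t a c b d) : False := by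
  have k : K4 G a b c d := ⟨h2.sq.1, h1.sq.1, h1.sq.2.1, h1.sq.2.2.1, h1.sq.2.2.2, h2.sq.2.2.2⟩
  have k' : K4 G a c b d := ⟨h1.sq.1, h2.sq.1, h2.sq.2.1, h2.sq.2.2.1, h2.sq.2.2.2, h1.sq.2.2.2⟩
  exact h1.two k (Or.inl e) (h2.one k' (Or.inl e))

theorem Q_on (h : Ptn X pt) (hD : Cst pt D) {a b c d : V} (n01 : a ≠ b) (n02 : a ≠ c) (n03 : a ≠ d) (n12 : b ≠ c) (n13 : b ≠ d)
    (n23 : c ≠ d) (e : pt a = c) (e1 : G.Adj a d) (e2 : G.Adj b c) (e3 : G.Adj b d) (e4 : G.Adj a c) (hx : ¬ fl X pt D a b c d)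
    (h2 : ¬ Dec G X pt D t a c b d) : Dec G X pt D t a b c d where
  ab := n01
  cd := n23
  sq := ⟨e4, e1, e2, e3⟩
  nc := hx
  one := fun _ k => by
    rcases k with k | k
    · exact absurd (e.symm.trans k) n12.symm
    · exact absurd (k.symm.trans (FC_ptn h e)) n03.symm
  two := fun k _ ht => h2 ⟨n02, n13, ⟨k.1, k.2.2.1, k.2.2.2.1.symm, k.2.2.2.2.2⟩, fun hc => Q_cons (ptn_fl h hD) e hc,
    fun _ _ => ht, fun _ q => by
      rcases q with q | q
      · exact absurd (e.symm.trans q) n12.symm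
      · exact absurd ((FC_ptn h e).symm.trans q) n03,
    fun _ q => by
      rcases q with q | q
      · exact absurd (e.symm.trans q) n23
      · exact absurd ((FC_ptn h e).symm.trans q) n01,
    fun _ q => absurd e q.1⟩
  thr := fun _ k => by
    rcases k with k | k
    · exact absurd (e.symm.trans k) n23
    · exact absurd ((FC_ptn h k).symm.trans (FC_ptn h e)) n01.symm
  non := fun _ k => absurd e k.2.1

/-- templates for points with a property -/
theorem PH_mem {S : SRel V} {p : Nat → V} {k : Nat} {t : Tm} {P : V → Prop} (hk : t.nd ≤ 8) (hP : ∀ j, j < k → P (p j))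
    (h : ∀ v : Nat → V, (∀ i, i < t.nd → P (v i)) → neq v t.ne (negs S v t.ls)) : PH S p k t := by
  intro d hd
  refine h (vl d p) fun i hi => ?_
  obtain ⟨j, hj, e⟩ := hd i hi
  have h1 : vl d p i = d i := by
    unfold vl
    have : Nat.ble 8 i = false := by
      cases hh : Nat.ble 8 i with
      | false => rfl
      | true =>
        have := Nat.le_of_ble_eq_true hh
        omega
    rw [this]
  rw [h1, e]
  exact hP j hj

end Pool.Agent.SOX
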