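import Pool.Agent.SOX.QLem

/-! Project SOX: templates for three solutions and their majority (generated). -/

set_option autoImplicit false
set_option maxRecDepth 100000
set_option linter.unusedVariables false

namespace Pool.Agent.SOX

open Pool.Agent.RUP Pool.Agent.SOF

/-- no complete graph on five vertices among the points with a property -/
theorem Qkf {V : Type} {G : SimpleGraph V} {P : V → Prop} (hk : ∀ a b c d e, P a → P b → P c → P d → P e → ¬ K5 G a b c d e)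
    {l : List V} (hl : ∀ x ∈ l, P x) : K5F G l :=
  fun a ha b hb c hc d hd e he => hk a b c d e (hl a ha) (hl b hb) (hl c hc) (hl d hd) (hl e he)

theorem mem5 {V : Type} {P : V → Prop} {a b c d e : V} (h1 : P a) (h2 : P b) (h3 : P c) (h4 : P d) (h5 : P e) :
    ∀ x ∈ [a, b, c, d, e], P x := by
  intro x hx
  simp only [List.mem_cons, List.not_mem_nil, or_false] at hx
  rcases hx with rfl | rfl | rfl | rfl | rfl <;> assumption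

theorem mem6 {V : Type} {P : V → Prop} {a b c d e f : V} (h1 : P a) (h2 : P b) (h3 : P c) (h4 : P d) (h5 : P e) (h6 : P f) :
    ∀ x ∈ [a, b, c, d, e, f], P x := by
  intro x hx
  simp only [List.mem_cons, List.not_mem_nil, or_false] at hx
  rcases hx with rfl | rfl | rfl | rfl | rfl | rfl <;> assumption

/-- templates -/
def mA : List Tm := [
  ⟨4, [], ad4, [.q true 0 0 1 2 3, .q true 0 0 2 1 3, .q true 0 0 3 1 2]⟩,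
  ⟨4, [], ad4, [.q false 0 0 1 2 3, .q false 0 0 2 1 3]⟩,
  ⟨5, [], ad5, [.q false 0 0 1 2 3, .q false 0 0 1 3 4, .q false 0 0 1 2 4]⟩,
  ⟨5, [], ad5, [.q false 0 0 1 2 3, .q true 0 0 1 3 4, .q true 0 0 1 2 4]⟩,
  ⟨4, [], ad4, [.q true 1 0 1 2 3, .q true 1 0 2 1 3, .q true 1 0 3 1 2]⟩,
  ⟨4, [], ad4, [.q false 1 0 1 2 3, .q false 1 0 2 1 3]⟩,
  ⟨5, [], ad5, [.q false 1 0 1 2 3, .q false 1 0 1 3 4, .q false 1 0 1 2 4]⟩,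
  ⟨5, [], ad5, [.q false 1 0 1 2 3, .q true 1 0 1 3 4, .q true 1 0 1 2 4]⟩,
  ⟨4, [], ad4, [.q true 2 0 1 2 3, .q true 2 0 2 1 3, .q true 2 0 3 1 2]⟩,
  ⟨4, [], ad4, [.q false 2 0 1 2 3, .q false 2 0 2 1 3]⟩,
  ⟨5, [], ad5, [.q false 2 0 1 2 3, .q false 2 0 1 3 4, .q false 2 0 1 2 4]⟩,
  ⟨5, [], ad5, [.q false 2 0 1 2 3, .q true 2 0 1 3 4, .q true 2 0 1 2 4]⟩,
  ⟨4, [], ad4, [.q true 3 0 1 2 3, .q true 3 0 2 1 3, .q true 3 0 3 1 2]⟩,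
  ⟨4, [], ad4, [.q false 3 0 1 2 3, .q false 3 0 2 1 3]⟩,
  ⟨5, [], ad5, [.q false 3 0 1 2 3, .q false 3 0 1 3 4, .q false 3 0 1 2 4]⟩,
  ⟨5, [], ad5, [.q false 3 0 1 2 3, .q true 3 0 1 3 4, .q true 3 0 1 2 4]⟩,
  ⟨4, [], ad4, [.q true 4 0 1 2 3, .q true 4 0 2 1 3, .q true 4 0 3 1 2]⟩,
  ⟨4, [], ad4, [.q false 4 0 1 2 3, .q false 4 0 2 1 3]⟩,
  ⟨5, [], ad5, [.q false 4 0 1 2 3, .q false 4 0 1 3 4, .q false 4 0 1 2 4]⟩,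
  ⟨5, [], ad5, [.q false 4 0 1 2 3, .q true 4 0 1 3 4, .q true 4 0 1 2 4]⟩,
  ⟨3, [], [(0, 1), (0, 2), (1, 2)], [.b false 1 0 1, .b false 1 0 2]⟩,
  ⟨2, [], [(0, 1)], [.b false 1 0 1, .b true 0 0 1]⟩,
  ⟨2, [], [(0, 1)], [.b false 1 0 1, .b false 2 0 0, .b true 2 1 1]⟩,
  ⟨2, [], [(0, 1)], [.b false 1 0 1, .b false 3 0 0, .b true 3 1 1]⟩,
  ⟨2, [], [(0, 1)], [.b false 1 0 1, .b false 4 0 0, .b true 4 1 1]⟩,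
  ⟨1, [], [], [.b false 2 0 0, .b false 3 0 0, .b true 5 0 0]⟩,
  ⟨1, [], [], [.b true 2 0 0, .b true 3 0 0, .b false 5 0 0]⟩,
  ⟨1, [], [], [.b false 2 0 0, .b false 4 0 0, .b true 5 0 0]⟩,
  ⟨1, [], [], [.b true 2 0 0, .b true 4 0 0, .b false 5 0 0]⟩,
  ⟨1, [], [], [.b false 3 0 0, .b false 4 0 0, .b true 5 0 0]⟩,
  ⟨1, [], [], [.b true 3 0 0, .b true 4 0 0, .b false 5 0 0]⟩,
  ⟨4, [], ad4, [.b false 1 0 1, .q false 0 0 1 2 3]⟩,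
  ⟨4, [], ad4, [.b false 1 0 1, .q false 1 0 1 2 3]⟩,
  ⟨4, [], ad4, [.b true 1 0 1, .b true 1 0 2, .b true 1 0 3, .b true 1 1 2, .b true 1 1 3, .b true 1 2 3, .q false 1 0 1 2 3, .q true 0 0 1 2 3]⟩,
  ⟨4, [], ad4, [.b true 1 0 1, .b true 1 0 2, .b true 1 0 3, .b true 1 1 2, .b true 1 1 3, .b true 1 2 3, .q true 1 0 1 2 3, .q false 0 0 1 2 3]⟩,
  ⟨4, [], ad4, [.b false 1 0 2, .b true 1 1 3, .b true 2 0 0, .q false 1 0 1 2 3, .q true 0 0 1 2 3]⟩,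
  ⟨4, [], ad4, [.b false 1 0 2, .b true 1 1 3, .b true 2 0 0, .q true 1 0 1 2 3, .q false 0 0 1 2 3]⟩,
  ⟨4, [], ad4, [.b false 1 0 2, .b true 1 1 3, .b false 2 0 0, .q false 1 0 1 2 3, .q false 0 0 1 2 3]⟩,
  ⟨4, [], ad4, [.b false 1 0 2, .b true 1 1 3, .b false 2 0 0, .q true 1 0 1 2 3, .q true 0 0 1 2 3]⟩,
  ⟨4, [], ad4, [.b false 1 0 2, .b false 1 1 3, .b true 2 0 0, .b true 2 1 1, .q false 1 0 1 2 3, .q true 0 0 1 2 3]⟩,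
  ⟨4, [], ad4, [.b false 1 0 2, .b false 1 1 3, .b true 2 0 0, .b true 2 1 1, .q true 1 0 1 2 3, .q false 0 0 1 2 3]⟩,
  ⟨4, [], ad4, [.b false 1 0 2, .b false 1 1 3, .b false 2 0 0, .b false 2 1 1, .q false 1 0 1 2 3, .q true 0 0 1 2 3]⟩,
  ⟨4, [], ad4, [.b false 1 0 2, .b false 1 1 3, .b false 2 0 0, .b false 2 1 1, .q true 1 0 1 2 3, .q false 0 0 1 2 3]⟩,
  ⟨4, [], ad4, [.b false 1 0 2, .b false 1 1 3, .b true 2 0 0, .b false 2 1 1, .q false 1 0 1 2 3, .q false 0 0 1 2 3]⟩,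
  ⟨4, [], ad4, [.b false 1 0 2, .b false 1 1 3, .b true 2 0 0, .b false 2 1 1, .q true 1 0 1 2 3, .q true 0 0 1 2 3]⟩,
  ⟨4, [], ad4, [.b false 1 0 1, .q false 2 0 1 2 3]⟩,
  ⟨4, [], ad4, [.b true 1 0 1, .b true 1 0 2, .b true 1 0 3, .b true 1 1 2, .b true 1 1 3, .b true 1 2 3, .q false 2 0 1 2 3, .q true 0 0 1 2 3]⟩,
  ⟨4, [], ad4, [.b true 1 0 1, .b true 1 0 2, .b true 1 0 3, .b true 1 1 2, .b true 1 1 3, .b true 1 2 3, .q true 2 0 1 2 3, .q false 0 0 1 2 3]⟩,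
  ⟨4, [], ad4, [.b false 1 0 2, .b true 1 1 3, .b true 3 0 0, .q false 2 0 1 2 3, .q true 0 0 1 2 3]⟩,
  ⟨4, [], ad4, [.b false 1 0 2, .b true 1 1 3, .b true 3 0 0, .q true 2 0 1 2 3, .q false 0 0 1 2 3]⟩,
  ⟨4, [], ad4, [.b false 1 0 2, .b true 1 1 3, .b false 3 0 0, .q false 2 0 1 2 3, .q false 0 0 1 2 3]⟩,
  ⟨4, [], ad4, [.b false 1 0 2, .b true 1 1 3, .b false 3 0 0, .q true 2 0 1 2 3, .q true 0 0 1 2 3]⟩,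
  ⟨4, [], ad4, [.b false 1 0 2, .b false 1 1 3, .b true 3 0 0, .b true 3 1 1, .q false 2 0 1 2 3, .q true 0 0 1 2 3]⟩,
  ⟨4, [], ad4, [.b false 1 0 2, .b false 1 1 3, .b true 3 0 0, .b true 3 1 1, .q true 2 0 1 2 3, .q false 0 0 1 2 3]⟩,
  ⟨4, [], ad4, [.b false 1 0 2, .b false 1 1 3, .b false 3 0 0, .b false 3 1 1, .q false 2 0 1 2 3, .q true 0 0 1 2 3]⟩,
  ⟨4, [], ad4, [.b false 1 0 2, .b false 1 1 3, .b false 3 0 0, .b false 3 1 1, .q true 2 0 1 2 3, .q false 0 0 1 2 3]⟩,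
  ⟨4, [], ad4, [.b false 1 0 2, .b false 1 1 3, .b true 3 0 0, .b false 3 1 1, .q false 2 0 1 2 3, .q false 0 0 1 2 3]⟩,
  ⟨4, [], ad4, [.b false 1 0 2, .b false 1 1 3, .b true 3 0 0, .b false 3 1 1, .q true 2 0 1 2 3, .q true 0 0 1 2 3]⟩,
  ⟨4, [], ad4, [.b false 1 0 1, .q false 3 0 1 2 3]⟩,
  ⟨4, [], ad4, [.b true 1 0 1, .b true 1 0 2, .b true 1 0 3, .b true 1 1 2, .b true 1 1 3, .b true 1 2 3, .q false 3 0 1 2 3, .q true 0 0 1 2 3]⟩,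
  ⟨4, [], ad4, [.b true 1 0 1, .b true 1 0 2, .b true 1 0 3, .b true 1 1 2, .b true 1 1 3, .b true 1 2 3, .q true 3 0 1 2 3, .q false 0 0 1 2 3]⟩,
  ⟨4, [], ad4, [.b false 1 0 2, .b true 1 1 3, .b true 4 0 0, .q false 3 0 1 2 3, .q true 0 0 1 2 3]⟩,
  ⟨4, [], ad4, [.b false 1 0 2, .b true 1 1 3, .b true 4 0 0, .q true 3 0 1 2 3, .q false 0 0 1 2 3]⟩,
  ⟨4, [], ad4, [.b false 1 0 2, .b true 1 1 3, .b false 4 0 0, .q false 3 0 1 2 3, .q false 0 0 1 2 3]⟩,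
  ⟨4, [], ad4, [.b false 1 0 2, .b true 1 1 3, .b false 4 0 0, .q true 3 0 1 2 3, .q true 0 0 1 2 3]⟩,
  ⟨4, [], ad4, [.b false 1 0 2, .b false 1 1 3, .b true 4 0 0, .b true 4 1 1, .q false 3 0 1 2 3, .q true 0 0 1 2 3]⟩,
  ⟨4, [], ad4, [.b false 1 0 2, .b false 1 1 3, .b true 4 0 0, .b true 4 1 1, .q true 3 0 1 2 3, .q false 0 0 1 2 3]⟩,
  ⟨4, [], ad4, [.b false 1 0 2, .b false 1 1 3, .b false 4 0 0, .b false 4 1 1, .q false 3 0 1 2 3, .q true 0 0 1 2 3]⟩,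
  ⟨4, [], ad4, [.b false 1 0 2, .b false 1 1 3, .b false 4 0 0, .b false 4 1 1, .q true 3 0 1 2 3, .q false 0 0 1 2 3]⟩,
  ⟨4, [], ad4, [.b false 1 0 2, .b false 1 1 3, .b true 4 0 0, .b false 4 1 1, .q false 3 0 1 2 3, .q false 0 0 1 2 3]⟩,
  ⟨4, [], ad4, [.b false 1 0 2, .b false 1 1 3, .b true 4 0 0, .b false 4 1 1, .q true 3 0 1 2 3, .q true 0 0 1 2 3]⟩,
  ⟨4, [], ad4, [.b false 1 0 1, .q false 4 0 1 2 3]⟩,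
  ⟨4, [], ad4, [.b true 1 0 1, .b true 1 0 2, .b true 1 0 3, .b true 1 1 2, .b true 1 1 3, .b true 1 2 3, .q false 4 0 1 2 3, .q true 0 0 1 2 3]⟩,
  ⟨4, [], ad4, [.b true 1 0 1, .b true 1 0 2, .b true 1 0 3, .b true 1 1 2, .b true 1 1 3, .b true 1 2 3, .q true 4 0 1 2 3, .q false 0 0 1 2 3]⟩,
  ⟨4, [], ad4, [.b false 1 0 2, .b true 1 1 3, .b true 5 0 0, .q false 4 0 1 2 3, .q true 0 0 1 2 3]⟩,
  ⟨4, [], ad4, [.b false 1 0 2, .b true 1 1 3, .b true 5 0 0, .q true 4 0 1 2 3, .q false 0 0 1 2 3]⟩,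
  ⟨4, [], ad4, [.b false 1 0 2, .b true 1 1 3, .b false 5 0 0, .q false 4 0 1 2 3, .q false 0 0 1 2 3]⟩,
  ⟨4, [], ad4, [.b false 1 0 2, .b true 1 1 3, .b false 5 0 0, .q true 4 0 1 2 3, .q true 0 0 1 2 3]⟩,
  ⟨4, [], ad4, [.b false 1 0 2, .b false 1 1 3, .b true 5 0 0, .b true 5 1 1, .q false 4 0 1 2 3, .q true 0 0 1 2 3]⟩,
  ⟨4, [], ad4, [.b false 1 0 2, .b false 1 1 3, .b true 5 0 0, .b true 5 1 1, .q true 4 0 1 2 3, .q false 0 0 1 2 3]⟩,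
  ⟨4, [], ad4, [.b false 1 0 2, .b false 1 1 3, .b false 5 0 0, .b false 5 1 1, .q false 4 0 1 2 3, .q true 0 0 1 2 3]⟩,
  ⟨4, [], ad4, [.b false 1 0 2, .b false 1 1 3, .b false 5 0 0, .b false 5 1 1, .q true 4 0 1 2 3, .q false 0 0 1 2 3]⟩,
  ⟨4, [], ad4, [.b false 1 0 2, .b false 1 1 3, .b true 5 0 0, .b false 5 1 1, .q false 4 0 1 2 3, .q false 0 0 1 2 3]⟩,
  ⟨4, [], ad4, [.b false 1 0 2, .b false 1 1 3, .b true 5 0 0, .b false 5 1 1, .q true 4 0 1 2 3, .q true 0 0 1 2 3]⟩,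
  ⟨4, [], ad4, [.b false 1 0 1, .q false 5 0 1 2 3, .q false 6 0 1 2 3, .q true 8 0 1 2 3]⟩,
  ⟨4, [], ad4, [.b false 1 0 1, .q true 5 0 1 2 3, .q true 6 0 1 2 3, .q false 8 0 1 2 3]⟩,
  ⟨4, [], ad4, [.b false 1 0 1, .q false 5 0 1 2 3, .q false 7 0 1 2 3, .q true 8 0 1 2 3]⟩,
  ⟨4, [], ad4, [.b false 1 0 1, .q true 5 0 1 2 3, .q true 7 0 1 2 3, .q false 8 0 1 2 3]⟩,
  ⟨4, [], ad4, [.b false 1 0 1, .q false 6 0 1 2 3, .q false 7 0 1 2 3, .q true 8 0 1 2 3]⟩,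
  ⟨4, [], ad4, [.b false 1 0 1, .q true 6 0 1 2 3, .q true 7 0 1 2 3, .q false 8 0 1 2 3]⟩,
  ⟨4, [], ad4, [.b true 1 0 1, .b true 1 0 2, .b true 1 0 3, .b true 1 1 2, .b true 1 1 3, .b true 1 2 3, .q false 5 0 1 2 3, .q false 6 0 1 2 3, .q true 8 0 1 2 3]⟩,
  ⟨4, [], ad4, [.b true 1 0 1, .b true 1 0 2, .b true 1 0 3, .b true 1 1 2, .b true 1 1 3, .b true 1 2 3, .q true 5 0 1 2 3, .q true 6 0 1 2 3, .q false 8 0 1 2 3]⟩,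
  ⟨4, [], ad4, [.b true 1 0 1, .b true 1 0 2, .b true 1 0 3, .b true 1 1 2, .b true 1 1 3, .b true 1 2 3, .q false 5 0 1 2 3, .q false 7 0 1 2 3, .q true 8 0 1 2 3]⟩,
  ⟨4, [], ad4, [.b true 1 0 1, .b true 1 0 2, .b true 1 0 3, .b true 1 1 2, .b true 1 1 3, .b true 1 2 3, .q true 5 0 1 2 3, .q true 7 0 1 2 3, .q false 8 0 1 2 3]⟩,
  ⟨4, [], ad4, [.b true 1 0 1, .b true 1 0 2, .b true 1 0 3, .b true 1 1 2, .b true 1 1 3, .b true 1 2 3, .q false 6 0 1 2 3, .q false 7 0 1 2 3, .q true 8 0 1 2 3]⟩,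
  ⟨4, [], ad4, [.b true 1 0 1, .b true 1 0 2, .b true 1 0 3, .b true 1 1 2, .b true 1 1 3, .b true 1 2 3, .q true 6 0 1 2 3, .q true 7 0 1 2 3, .q false 8 0 1 2 3]⟩,
  ⟨4, [], ad4, [.b false 1 0 2, .q false 8 0 1 2 3, .b true 0 0 3]⟩,
  ⟨4, [], ad4, [.b false 1 0 2, .q false 8 0 1 2 3, .b true 0 1 2]⟩,
  ⟨4, [], ad4, [.b false 1 0 2, .q false 8 0 1 2 3, .b true 0 1 3]⟩,
  ⟨4, [], ad4, [.b false 1 0 2, .q false 8 0 1 2 3, .b true 0 0 2]⟩,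
  ⟨4, [], ad4, [.b false 1 0 2, .q false 8 0 1 2 3, .q false 4 0 1 2 3]⟩,
  ⟨4, [], ad4, [.b false 1 0 2, .q false 8 0 1 2 3, .q false 8 0 2 1 3]⟩,
  ⟨4, [], ad4, [.b false 1 0 2, .q true 8 0 1 2 3, .b false 0 0 3, .b false 0 1 2, .b false 0 1 3, .b false 0 0 2, .q true 4 0 1 2 3, .q true 8 0 2 1 3]⟩,
  ⟨4, [], ad4, [.b false 1 0 1, .b false 1 2 3, .b false 0 0 2, .b false 0 1 3, .b true 0 0 3]⟩]

theorem mA_h {V : Type} {Y : MSy V} (F : PrF Y.G Y.pt) : UHs Y.rel mA :=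
  .cons (fun v n01 n02 n03 n12 n13 n23 h0 h1 h2 => (Y.hp.sep.one n01 n02 n03 n12 n13 n23).elim h0 (fun k => k.elim h1 h2)) (
  .cons (fun v n01 n02 n03 n12 n13 n23 h0 h1 => Y.hp.sep.amo h0 h1) (
  .cons (fun v n01 n02 n03 n04 n12 n13 n14 n23 n24 n34 h0 h1 h2 => Y.hp.sep.add h0 h1 h2) (
  .cons (fun v n01 n02 n03 n04 n12 n13 n14 n23 n24 n34 h0 h1 h2 => (Y.hp.sep.add2 h0 n34 n24 n04 n14).elim h1 h2) (
  .cons (fun v n01 n02 n03 n12 n13 n23 h0 h1 h2 => (Y.p1.sep.one n01 n02 n03 n12 n13 n23).elim h0 (fun k => k.elim h1 h2)) (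
  .cons (fun v n01 n02 n03 n12 n13 n23 h0 h1 => Y.p1.sep.amo h0 h1) (
  .cons (fun v n01 n02 n03 n04 n12 n13 n14 n23 n24 n34 h0 h1 h2 => Y.p1.sep.add h0 h1 h2) (
  .cons (fun v n01 n02 n03 n04 n12 n13 n14 n23 n24 n34 h0 h1 h2 => (Y.p1.sep.add2 h0 n34 n24 n04 n14).elim h1 h2) (
  .cons (fun v n01 n02 n03 n12 n13 n23 h0 h1 h2 => (Y.p2.sep.one n01 n02 n03 n12 n13 n23).elim h0 (fun k => k.elim h1 h2)) (
  .cons (fun v n01 n02 n03 n12 n13 n23 h0 h1 => Y.p2.sep.amo h0 h1) (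
  .cons (fun v n01 n02 n03 n04 n12 n13 n14 n23 n24 n34 h0 h1 h2 => Y.p2.sep.add h0 h1 h2) (
  .cons (fun v n01 n02 n03 n04 n12 n13 n14 n23 n24 n34 h0 h1 h2 => (Y.p2.sep.add2 h0 n34 n24 n04 n14).elim h1 h2) (
  .cons (fun v n01 n02 n03 n12 n13 n23 h0 h1 h2 => (Y.p3.sep.one n01 n02 n03 n12 n13 n23).elim h0 (fun k => k.elim h1 h2)) (
  .cons (fun v n01 n02 n03 n12 n13 n23 h0 h1 => Y.p3.sep.amo h0 h1) (
  .cons (fun v n01 n02 n03 n04 n12 n13 n14 n23 n24 n34 h0 h1 h2 => Y.p3.sep.add h0 h1 h2) (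
  .cons (fun v n01 n02 n03 n04 n12 n13 n14 n23 n24 n34 h0 h1 h2 => (Y.p3.sep.add2 h0 n34 n24 n04 n14).elim h1 h2) (
  .cons (fun v n01 n02 n03 n12 n13 n23 h0 h1 h2 => (Y.p4.sep.one n01 n02 n03 n12 n13 n23).elim h0 (fun k => k.elim h1 h2)) (
  .cons (fun v n01 n02 n03 n12 n13 n23 h0 h1 => Y.p4.sep.amo h0 h1) (
  .cons (fun v n01 n02 n03 n04 n12 n13 n14 n23 n24 n34 h0 h1 h2 => Y.p4.sep.add h0 h1 h2) (
  .cons (fun v n01 n02 n03 n04 n12 n13 n14 n23 n24 n34 h0 h1 h2 => (Y.p4.sep.add2 h0 n34 n24 n04 n14).elim h1 h2) (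
  .cons (fun v n01 n02 n12 h0 h1 => n12 (h0.symm.trans h1)) (
  .cons (fun v n01 h0 h1 => h1 (h0 ▸ F.adj (v 0) fun e => n01 (e.symm.trans h0))) (
  .cons (fun v n01 h0 h1 h2 => h2 ⟨rfl, (congrArg Y.D1 h0).symm.trans ((Y.c1 (v 0)).trans h1.2)⟩) (
  .cons (fun v n01 h0 h1 h2 => h2 ⟨rfl, (congrArg Y.D2 h0).symm.trans ((Y.c2 (v 0)).trans h1.2)⟩) (
  .cons (fun v n01 h0 h1 h2 => h2 ⟨rfl, (congrArg Y.D3 h0).symm.trans ((Y.c3 (v 0)).trans h1.2)⟩) (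
  .cons (fun v  h0 h1 h2 => h2 ⟨rfl, Q_m1 h0.2 h1.2⟩) (
  .cons (fun v  h0 h1 h2 => Q_n1 (fun e => h0 ⟨rfl, e⟩) (fun e => h1 ⟨rfl, e⟩) h2.2) (
  .cons (fun v  h0 h1 h2 => h2 ⟨rfl, Q_m2 h0.2 h1.2⟩) (
  .cons (fun v  h0 h1 h2 => Q_n2 (fun e => h0 ⟨rfl, e⟩) (fun e => h1 ⟨rfl, e⟩) h2.2) (
  .cons (fun v  h0 h1 h2 => h2 ⟨rfl, Q_m3 h0.2 h1.2⟩) (
  .cons (fun v  h0 h1 h2 => Q_n3 (fun e => h0 ⟨rfl, e⟩) (fun e => h1 ⟨rfl, e⟩) h2.2) (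
  .cons (fun v n01 n02 n03 n12 n13 n23 h0 h1 => Q_cons Y.hp h0 h1) (
  .cons (fun v n01 n02 n03 n12 n13 n23 h0 h1 => Q_cons Y.p1 h0 h1) (
  .cons (fun v n01 n02 n03 n12 n13 n23 h0 h1 h2 h3 h4 h5 h6 h7 => h7 ((fl_np Y.hp Y.c1 ⟨h0, h1, h2, h3, h4, h5⟩).1 h6)) (
  .cons (fun v n01 n02 n03 n12 n13 n23 h0 h1 h2 h3 h4 h5 h6 h7 => h6 ((fl_np Y.hp Y.c1 ⟨h0, h1, h2, h3, h4, h5⟩).2 h7)) (
  .cons (fun v n01 n02 n03 n12 n13 n23 h0 h1 h2 h3 h4 => h4 ((Q_a1 Y.hp Y.c1 n02 n01 n03 n12 n23 n13 h0 h1 h2).1 h3)) (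
  .cons (fun v n01 n02 n03 n12 n13 n23 h0 h1 h2 h3 h4 => h3 ((Q_a1 Y.hp Y.c1 n02 n01 n03 n12 n23 n13 h0 h1 h2).2 h4)) (
  .cons (fun v n01 n02 n03 n12 n13 n23 h0 h1 h2 h3 h4 => (Q_a2 Y.hp Y.c1 n02 n01 n03 n12 n23 n13 h0 h1 h2).1 h3 h4) (
  .cons (fun v n01 n02 n03 n12 n13 n23 h0 h1 h2 h3 h4 => h3 ((Q_a2 Y.hp Y.c1 n02 n01 n03 n12 n23 n13 h0 h1 h2).2 h4)) (
  .cons (fun v n01 n02 n03 n12 n13 n23 h0 h1 h2 h3 h4 h5 => h5 ((Q_b1 Y.hp Y.c1 n02 n01 n12 n13 h0 h1 h2 h3).1 h4)) (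
  .cons (fun v n01 n02 n03 n12 n13 n23 h0 h1 h2 h3 h4 h5 => h4 ((Q_b1 Y.hp Y.c1 n02 n01 n12 n13 h0 h1 h2 h3).2 h5)) (
  .cons (fun v n01 n02 n03 n12 n13 n23 h0 h1 h2 h3 h4 h5 => h5 ((Q_b2 Y.hp Y.c1 n02 n01 n12 n13 h0 h1 h2 h3).1 h4)) (
  .cons (fun v n01 n02 n03 n12 n13 n23 h0 h1 h2 h3 h4 h5 => h4 ((Q_b2 Y.hp Y.c1 n02 n01 n12 n13 h0 h1 h2 h3).2 h5)) (
  .cons (fun v n01 n02 n03 n12 n13 n23 h0 h1 h2 h3 h4 h5 => (Q_b3 Y.hp Y.c1 n02 n01 n12 n13 h0 h1 h2 h3).1 h4 h5) (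
  .cons (fun v n01 n02 n03 n12 n13 n23 h0 h1 h2 h3 h4 h5 => h4 ((Q_b3 Y.hp Y.c1 n02 n01 n12 n13 h0 h1 h2 h3).2 h5)) (
  .cons (fun v n01 n02 n03 n12 n13 n23 h0 h1 => Q_cons Y.p2 h0 h1) (
  .cons (fun v n01 n02 n03 n12 n13 n23 h0 h1 h2 h3 h4 h5 h6 h7 => h7 ((fl_np Y.hp Y.c2 ⟨h0, h1, h2, h3, h4, h5⟩).1 h6)) (
  .cons (fun v n01 n02 n03 n12 n13 n23 h0 h1 h2 h3 h4 h5 h6 h7 => h6 ((fl_np Y.hp Y.c2 ⟨h0, h1, h2, h3, h4, h5⟩).2 h7)) (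
  .cons (fun v n01 n02 n03 n12 n13 n23 h0 h1 h2 h3 h4 => h4 ((Q_a1 Y.hp Y.c2 n02 n01 n03 n12 n23 n13 h0 h1 h2).1 h3)) (
  .cons (fun v n01 n02 n03 n12 n13 n23 h0 h1 h2 h3 h4 => h3 ((Q_a1 Y.hp Y.c2 n02 n01 n03 n12 n23 n13 h0 h1 h2).2 h4)) (
  .cons (fun v n01 n02 n03 n12 n13 n23 h0 h1 h2 h3 h4 => (Q_a2 Y.hp Y.c2 n02 n01 n03 n12 n23 n13 h0 h1 h2).1 h3 h4) (
  .cons (fun v n01 n02 n03 n12 n13 n23 h0 h1 h2 h3 h4 => h3 ((Q_a2 Y.hp Y.c2 n02 n01 n03 n12 n23 n13 h0 h1 h2).2 h4)) (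
  .cons (fun v n01 n02 n03 n12 n13 n23 h0 h1 h2 h3 h4 h5 => h5 ((Q_b1 Y.hp Y.c2 n02 n01 n12 n13 h0 h1 h2 h3).1 h4)) (
  .cons (fun v n01 n02 n03 n12 n13 n23 h0 h1 h2 h3 h4 h5 => h4 ((Q_b1 Y.hp Y.c2 n02 n01 n12 n13 h0 h1 h2 h3).2 h5)) (
  .cons (fun v n01 n02 n03 n12 n13 n23 h0 h1 h2 h3 h4 h5 => h5 ((Q_b2 Y.hp Y.c2 n02 n01 n12 n13 h0 h1 h2 h3).1 h4)) (
  .cons (fun v n01 n02 n03 n12 n13 n23 h0 h1 h2 h3 h4 h5 => h4 ((Q_b2 Y.hp Y.c2 n02 n01 n12 n13 h0 h1 h2 h3).2 h5)) (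
  .cons (fun v n01 n02 n03 n12 n13 n23 h0 h1 h2 h3 h4 h5 => (Q_b3 Y.hp Y.c2 n02 n01 n12 n13 h0 h1 h2 h3).1 h4 h5) (
  .cons (fun v n01 n02 n03 n12 n13 n23 h0 h1 h2 h3 h4 h5 => h4 ((Q_b3 Y.hp Y.c2 n02 n01 n12 n13 h0 h1 h2 h3).2 h5)) (
  .cons (fun v n01 n02 n03 n12 n13 n23 h0 h1 => Q_cons Y.p3 h0 h1) (
  .cons (fun v n01 n02 n03 n12 n13 n23 h0 h1 h2 h3 h4 h5 h6 h7 => h7 ((fl_np Y.hp Y.c3 ⟨h0, h1, h2, h3, h4, h5⟩).1 h6)) (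
  .cons (fun v n01 n02 n03 n12 n13 n23 h0 h1 h2 h3 h4 h5 h6 h7 => h6 ((fl_np Y.hp Y.c3 ⟨h0, h1, h2, h3, h4, h5⟩).2 h7)) (
  .cons (fun v n01 n02 n03 n12 n13 n23 h0 h1 h2 h3 h4 => h4 ((Q_a1 Y.hp Y.c3 n02 n01 n03 n12 n23 n13 h0 h1 h2).1 h3)) (
  .cons (fun v n01 n02 n03 n12 n13 n23 h0 h1 h2 h3 h4 => h3 ((Q_a1 Y.hp Y.c3 n02 n01 n03 n12 n23 n13 h0 h1 h2).2 h4)) (
  .cons (fun v n01 n02 n03 n12 n13 n23 h0 h1 h2 h3 h4 => (Q_a2 Y.hp Y.c3 n02 n01 n03 n12 n23 n13 h0 h1 h2).1 h3 h4) (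
  .cons (fun v n01 n02 n03 n12 n13 n23 h0 h1 h2 h3 h4 => h3 ((Q_a2 Y.hp Y.c3 n02 n01 n03 n12 n23 n13 h0 h1 h2).2 h4)) (
  .cons (fun v n01 n02 n03 n12 n13 n23 h0 h1 h2 h3 h4 h5 => h5 ((Q_b1 Y.hp Y.c3 n02 n01 n12 n13 h0 h1 h2 h3).1 h4)) (
  .cons (fun v n01 n02 n03 n12 n13 n23 h0 h1 h2 h3 h4 h5 => h4 ((Q_b1 Y.hp Y.c3 n02 n01 n12 n13 h0 h1 h2 h3).2 h5)) (
  .cons (fun v n01 n02 n03 n12 n13 n23 h0 h1 h2 h3 h4 h5 => h5 ((Q_b2 Y.hp Y.c3 n02 n01 n12 n13 h0 h1 h2 h3).1 h4)) (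
  .cons (fun v n01 n02 n03 n12 n13 n23 h0 h1 h2 h3 h4 h5 => h4 ((Q_b2 Y.hp Y.c3 n02 n01 n12 n13 h0 h1 h2 h3).2 h5)) (
  .cons (fun v n01 n02 n03 n12 n13 n23 h0 h1 h2 h3 h4 h5 => (Q_b3 Y.hp Y.c3 n02 n01 n12 n13 h0 h1 h2 h3).1 h4 h5) (
  .cons (fun v n01 n02 n03 n12 n13 n23 h0 h1 h2 h3 h4 h5 => h4 ((Q_b3 Y.hp Y.c3 n02 n01 n12 n13 h0 h1 h2 h3).2 h5)) (
  .cons (fun v n01 n02 n03 n12 n13 n23 h0 h1 => Q_cons Y.p4 h0 h1) (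
  .cons (fun v n01 n02 n03 n12 n13 n23 h0 h1 h2 h3 h4 h5 h6 h7 => h7 ((fl_np Y.hp Y.c4 ⟨h0, h1, h2, h3, h4, h5⟩).1 h6)) (
  .cons (fun v n01 n02 n03 n12 n13 n23 h0 h1 h2 h3 h4 h5 h6 h7 => h6 ((fl_np Y.hp Y.c4 ⟨h0, h1, h2, h3, h4, h5⟩).2 h7)) (
  .cons (fun v n01 n02 n03 n12 n13 n23 h0 h1 h2 h3 h4 => h4 ((Q_a1 Y.hp Y.c4 n02 n01 n03 n12 n23 n13 h0 h1 h2).1 h3)) (
  .cons (fun v n01 n02 n03 n12 n13 n23 h0 h1 h2 h3 h4 => h3 ((Q_a1 Y.hp Y.c4 n02 n01 n03 n12 n23 n13 h0 h1 h2).2 h4)) (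
  .cons (fun v n01 n02 n03 n12 n13 n23 h0 h1 h2 h3 h4 => (Q_a2 Y.hp Y.c4 n02 n01 n03 n12 n23 n13 h0 h1 h2).1 h3 h4) (
  .cons (fun v n01 n02 n03 n12 n13 n23 h0 h1 h2 h3 h4 => h3 ((Q_a2 Y.hp Y.c4 n02 n01 n03 n12 n23 n13 h0 h1 h2).2 h4)) (
  .cons (fun v n01 n02 n03 n12 n13 n23 h0 h1 h2 h3 h4 h5 => h5 ((Q_b1 Y.hp Y.c4 n02 n01 n12 n13 h0 h1 h2 h3).1 h4)) (
  .cons (fun v n01 n02 n03 n12 n13 n23 h0 h1 h2 h3 h4 h5 => h4 ((Q_b1 Y.hp Y.c4 n02 n01 n12 n13 h0 h1 h2 h3).2 h5)) (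
  .cons (fun v n01 n02 n03 n12 n13 n23 h0 h1 h2 h3 h4 h5 => h5 ((Q_b2 Y.hp Y.c4 n02 n01 n12 n13 h0 h1 h2 h3).1 h4)) (
  .cons (fun v n01 n02 n03 n12 n13 n23 h0 h1 h2 h3 h4 h5 => h4 ((Q_b2 Y.hp Y.c4 n02 n01 n12 n13 h0 h1 h2 h3).2 h5)) (
  .cons (fun v n01 n02 n03 n12 n13 n23 h0 h1 h2 h3 h4 h5 => (Q_b3 Y.hp Y.c4 n02 n01 n12 n13 h0 h1 h2 h3).1 h4 h5) (
  .cons (fun v n01 n02 n03 n12 n13 n23 h0 h1 h2 h3 h4 h5 => h4 ((Q_b3 Y.hp Y.c4 n02 n01 n12 n13 h0 h1 h2 h3).2 h5)) (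
  .cons (fun v n01 n02 n03 n12 n13 n23 h0 h1 h2 h3 => h3 ((Y.mj (Or.inr h0)).2 (mjP12 h1 h2))) (
  .cons (fun v n01 n02 n03 n12 n13 n23 h0 h1 h2 h3 => mjN12 h1 h2 ((Y.mj (Or.inr h0)).1 h3)) (
  .cons (fun v n01 n02 n03 n12 n13 n23 h0 h1 h2 h3 => h3 ((Y.mj (Or.inr h0)).2 (mjP13 h1 h2))) (
  .cons (fun v n01 n02 n03 n12 n13 n23 h0 h1 h2 h3 => mjN13 h1 h2 ((Y.mj (Or.inr h0)).1 h3)) (
  .cons (fun v n01 n02 n03 n12 n13 n23 h0 h1 h2 h3 => h3 ((Y.mj (Or.inr h0)).2 (mjP23 h1 h2))) (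
  .cons (fun v n01 n02 n03 n12 n13 n23 h0 h1 h2 h3 => mjN23 h1 h2 ((Y.mj (Or.inr h0)).1 h3)) (
  .cons (fun v n01 n02 n03 n12 n13 n23 h0 h1 h2 h3 h4 h5 h6 h7 h8 => h8 ((Y.mj (Or.inl ⟨h0, h1, h2, h3, h4, h5⟩)).2 (mjP12 h6 h7))) (
  .cons (fun v n01 n02 n03 n12 n13 n23 h0 h1 h2 h3 h4 h5 h6 h7 h8 => mjN12 h6 h7 ((Y.mj (Or.inl ⟨h0, h1, h2, h3, h4, h5⟩)).1 h8)) (
  .cons (fun v n01 n02 n03 n12 n13 n23 h0 h1 h2 h3 h4 h5 h6 h7 h8 => h8 ((Y.mj (Or.inl ⟨h0, h1, h2, h3, h4, h5⟩)).2 (mjP13 h6 h7))) (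
  .cons (fun v n01 n02 n03 n12 n13 n23 h0 h1 h2 h3 h4 h5 h6 h7 h8 => mjN13 h6 h7 ((Y.mj (Or.inl ⟨h0, h1, h2, h3, h4, h5⟩)).1 h8)) (
  .cons (fun v n01 n02 n03 n12 n13 n23 h0 h1 h2 h3 h4 h5 h6 h7 h8 => h8 ((Y.mj (Or.inl ⟨h0, h1, h2, h3, h4, h5⟩)).2 (mjP23 h6 h7))) (
  .cons (fun v n01 n02 n03 n12 n13 n23 h0 h1 h2 h3 h4 h5 h6 h7 h8 => mjN23 h6 h7 ((Y.mj (Or.inl ⟨h0, h1, h2, h3, h4, h5⟩)).1 h8)) (
  .cons (fun v n01 n02 n03 n12 n13 n23 h0 h1 h2 => h2 h1.sq.2.1) (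
  .cons (fun v n01 n02 n03 n12 n13 n23 h0 h1 h2 => h2 h1.sq.2.2.1) (
  .cons (fun v n01 n02 n03 n12 n13 n23 h0 h1 h2 => h2 h1.sq.2.2.2) (
  .cons (fun v n01 n02 n03 n12 n13 n23 h0 h1 h2 => h2 h1.sq.1) (
  .cons (fun v n01 n02 n03 n12 n13 n23 h0 h1 h2 => h1.nc h2) (
  .cons (fun v n01 n02 n03 n12 n13 n23 h0 h1 h2 => Q_tw h0 h1 h2) (
  .cons (fun v n01 n02 n03 n12 n13 n23 h0 h1 h2 h3 h4 h5 h6 h7 => h1 (Q_on Y.hp Y.c4 n01 n02 n03 n12 n13 n23 h0 h2 h3 h4 h5 h6 h7)) (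
  .cons (fun v n01 n02 n03 n12 n13 n23 h0 h1 h2 h3 h4 => h4 (h1 ▸ F.bi (v 0) (v 2) (fun e => n01 (e.symm.trans h0)) (fun e => n23 (e.symm.trans h1)) n02.symm (fun e => n12 (h0.symm.trans e.symm)) h2 (h0.symm ▸ h1.symm ▸ h3))) (
  .nil))))))))))))))))))))))))))))))))))))))))))))))))))))))))))))))))))))))))))))))))))))))))))))))))))))))))

/-- templates -/
def mB1 : List Tm := [
  ⟨4, [], ad4, [.q false 5 0 1 2 3, .b true 0 0 2]⟩,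
  ⟨4, [], ad4, [.q false 5 0 1 2 3, .q false 1 0 1 2 3]⟩,
  ⟨4, [], ad4, [.q false 5 0 1 2 3, .q false 5 0 2 1 3]⟩,
  ⟨4, [], ad4, [.b false 0 0 2, .b false 0 1 3, .q false 1 0 2 1 3, .q true 5 0 1 2 3, .q true 5 0 3 1 2]⟩,
  ⟨5, [], ad5, [.q false 5 0 1 2 3, .q false 5 0 1 3 4, .q true 5 0 1 2 4]⟩,
  ⟨5, [], ad5, [.q false 5 0 2 1 3, .q false 5 0 4 1 2, .q true 5 0 4 1 3]⟩,
  ⟨6, [], ad6, [.q false 5 0 2 1 3, .q false 5 0 4 1 5, .q true 5 0 2 1 5, .q true 5 0 4 1 3]⟩]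

theorem mB1_h {V : Type} {Y : MSy V} {P : V → Prop} (q1 : QS Y.G Y.X1 Y.T1 P)
    (hk : ∀ a b c d e, P a → P b → P c → P d → P e → ¬ K5 Y.G a b c d e) {p : Nat → V} {k : Nat} (hP : ∀ j, j < k → P (p j)) : PHs Y.rel p k mB1 :=
  .cons (PH_mem (by decide) hP (fun v m n01 n02 n03 n12 n13 n23 h0 h1 => h1 h0.sq.1)) (
  .cons (PH_mem (by decide) hP (fun v m n01 n02 n03 n12 n13 n23 h0 h1 => h0.nc h1)) (
  .cons (PH_mem (by decide) hP (fun v m n01 n02 n03 n12 n13 n23 h0 h1 => q1.notboth (m 0 (by decide)) (m 1 (by decide)) (m 3 (by decide)) (m 2 (by decide)) (Y.rel.s4' (r := 5) (Y.rel.s4 (r := 5) (Y.rel.s4' (r := 5) h0))) h1)) (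
  .cons (PH_mem (by decide) hP (fun v m n01 n02 n03 n12 n13 n23 h0 h1 h2 h3 h4 => (q1.some (m 0 (by decide)) (m 1 (by decide)) (m 2 (by decide)) (m 3 (by decide)) h0 h1 n01 n03 n12 n23 h2).elim h3 h4)) (
  .cons (PH_mem (by decide) hP (fun v m n01 n02 n03 n04 n12 n13 n14 n23 n24 n34 h0 h1 h2 => h2 (q1.trans (m 0 (by decide)) (m 1 (by decide)) (m 2 (by decide)) (m 3 (by decide)) (m 4 (by decide)) (Qkf hk (mem5 (m 0 (by decide)) (m 1 (by decide)) (m 2 (by decide)) (m 3 (by decide)) (m 4 (by decide)))) h0 h1 n24))) (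
  .cons (PH_mem (by decide) hP (fun v m n01 n02 n03 n04 n12 n13 n14 n23 n24 n34 h0 h1 h2 => (q1.ferrers (m 0 (by decide)) (m 1 (by decide)) (m 2 (by decide)) (m 3 (by decide)) (m 4 (by decide)) (m 2 (by decide)) (Qkf hk (mem6 (m 0 (by decide)) (m 1 (by decide)) (m 2 (by decide)) (m 3 (by decide)) (m 4 (by decide)) (m 2 (by decide)))) h0 h1).elim (fun k => k.sq.2.2.2.ne rfl) h2)) (
  .cons (PH_mem (by decide) hP (fun v m n01 n02 n03 n04 n05 n12 n13 n14 n15 n23 n24 n25 n34 n35 n45 h0 h1 h2 h3 => (q1.ferrers (m 0 (by decide)) (m 1 (by decide)) (m 2 (by decide)) (m 3 (by decide)) (m 4 (by decide)) (m 5 (by decide)) (Qkf hk (mem6 (m 0 (by decide)) (m 1 (by decide)) (m 2 (by decide)) (m 3 (by decide)) (m 4 (by decide)) (m 5 (by decide)))) h0 h1).elim h2 h3)) (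
  .nil)))))))

/-- templates -/
def mB2 : List Tm := [
  ⟨4, [], ad4, [.q false 6 0 1 2 3, .b true 0 0 2]⟩,
  ⟨4, [], ad4, [.q false 6 0 1 2 3, .q false 2 0 1 2 3]⟩,
  ⟨4, [], ad4, [.q false 6 0 1 2 3, .q false 6 0 2 1 3]⟩,
  ⟨4, [], ad4, [.b false 0 0 2, .b false 0 1 3, .q false 2 0 2 1 3, .q true 6 0 1 2 3, .q true 6 0 3 1 2]⟩,
  ⟨5, [], ad5, [.q false 6 0 1 2 3, .q false 6 0 1 3 4, .q true 6 0 1 2 4]⟩,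
  ⟨5, [], ad5, [.q false 6 0 2 1 3, .q false 6 0 4 1 2, .q true 6 0 4 1 3]⟩,
  ⟨6, [], ad6, [.q false 6 0 2 1 3, .q false 6 0 4 1 5, .q true 6 0 2 1 5, .q true 6 0 4 1 3]⟩]

theorem mB2_h {V : Type} {Y : MSy V} {P : V → Prop} (q2 : QS Y.G Y.X2 Y.T2 P)
    (hk : ∀ a b c d e, P a → P b → P c → P d → P e → ¬ K5 Y.G a b c d e) {p : Nat → V} {k : Nat} (hP : ∀ j, j < k → P (p j)) : PHs Y.rel p k mB2 :=
  .cons (PH_mem (by decide) hP (fun v m n01 n02 n03 n12 n13 n23 h0 h1 => h1 h0.sq.1)) (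
  .cons (PH_mem (by decide) hP (fun v m n01 n02 n03 n12 n13 n23 h0 h1 => h0.nc h1)) (
  .cons (PH_mem (by decide) hP (fun v m n01 n02 n03 n12 n13 n23 h0 h1 => q2.notboth (m 0 (by decide)) (m 1 (by decide)) (m 3 (by decide)) (m 2 (by decide)) (Y.rel.s4' (r := 6) (Y.rel.s4 (r := 6) (Y.rel.s4' (r := 6) h0))) h1)) (
  .cons (PH_mem (by decide) hP (fun v m n01 n02 n03 n12 n13 n23 h0 h1 h2 h3 h4 => (q2.some (m 0 (by decide)) (m 1 (by decide)) (m 2 (by decide)) (m 3 (by decide)) h0 h1 n01 n03 n12 n23 h2).elim h3 h4)) (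
  .cons (PH_mem (by decide) hP (fun v m n01 n02 n03 n04 n12 n13 n14 n23 n24 n34 h0 h1 h2 => h2 (q2.trans (m 0 (by decide)) (m 1 (by decide)) (m 2 (by decide)) (m 3 (by decide)) (m 4 (by decide)) (Qkf hk (mem5 (m 0 (by decide)) (m 1 (by decide)) (m 2 (by decide)) (m 3 (by decide)) (m 4 (by decide)))) h0 h1 n24))) (
  .cons (PH_mem (by decide) hP (fun v m n01 n02 n03 n04 n12 n13 n14 n23 n24 n34 h0 h1 h2 => (q2.ferrers (m 0 (by decide)) (m 1 (by decide)) (m 2 (by decide)) (m 3 (by decide)) (m 4 (by decide)) (m 2 (by decide)) (Qkf hk (mem6 (m 0 (by decide)) (m 1 (by decide)) (m 2 (by decide)) (m 3 (by decide)) (m 4 (by decide)) (m 2 (by decide)))) h0 h1).elim (fun k => k.sq.2.2.2.ne rfl) h2)) (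
  .cons (PH_mem (by decide) hP (fun v m n01 n02 n03 n04 n05 n12 n13 n14 n15 n23 n24 n25 n34 n35 n45 h0 h1 h2 h3 => (q2.ferrers (m 0 (by decide)) (m 1 (by decide)) (m 2 (by decide)) (m 3 (by decide)) (m 4 (by decide)) (m 5 (by decide)) (Qkf hk (mem6 (m 0 (by decide)) (m 1 (by decide)) (m 2 (by decide)) (m 3 (by decide)) (m 4 (by decide)) (m 5 (by decide)))) h0 h1).elim h2 h3)) (
  .nil)))))))

/-- templates -/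
def mB3 : List Tm := [
  ⟨4, [], ad4, [.q false 7 0 1 2 3, .b true 0 0 2]⟩,
  ⟨4, [], ad4, [.q false 7 0 1 2 3, .q false 3 0 1 2 3]⟩,
  ⟨4, [], ad4, [.q false 7 0 1 2 3, .q false 7 0 2 1 3]⟩,
  ⟨4, [], ad4, [.b false 0 0 2, .b false 0 1 3, .q false 3 0 2 1 3, .q true 7 0 1 2 3, .q true 7 0 3 1 2]⟩,
  ⟨5, [], ad5, [.q false 7 0 1 2 3, .q false 7 0 1 3 4, .q true 7 0 1 2 4]⟩,
  ⟨5, [], ad5, [.q false 7 0 2 1 3, .q false 7 0 4 1 2, .q true 7 0 4 1 3]⟩,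
  ⟨6, [], ad6, [.q false 7 0 2 1 3, .q false 7 0 4 1 5, .q true 7 0 2 1 5, .q true 7 0 4 1 3]⟩]

theorem mB3_h {V : Type} {Y : MSy V} {P : V → Prop} (q3 : QS Y.G Y.X3 Y.T3 P)
    (hk : ∀ a b c d e, P a → P b → P c → P d → P e → ¬ K5 Y.G a b c d e) {p : Nat → V} {k : Nat} (hP : ∀ j, j < k → P (p j)) : PHs Y.rel p k mB3 :=
  .cons (PH_mem (by decide) hP (fun v m n01 n02 n03 n12 n13 n23 h0 h1 => h1 h0.sq.1)) (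
  .cons (PH_mem (by decide) hP (fun v m n01 n02 n03 n12 n13 n23 h0 h1 => h0.nc h1)) (
  .cons (PH_mem (by decide) hP (fun v m n01 n02 n03 n12 n13 n23 h0 h1 => q3.notboth (m 0 (by decide)) (m 1 (by decide)) (m 3 (by decide)) (m 2 (by decide)) (Y.rel.s4' (r := 7) (Y.rel.s4 (r := 7) (Y.rel.s4' (r := 7) h0))) h1)) (
  .cons (PH_mem (by decide) hP (fun v m n01 n02 n03 n12 n13 n23 h0 h1 h2 h3 h4 => (q3.some (m 0 (by decide)) (m 1 (by decide)) (m 2 (by decide)) (m 3 (by decide)) h0 h1 n01 n03 n12 n23 h2).elim h3 h4)) (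
  .cons (PH_mem (by decide) hP (fun v m n01 n02 n03 n04 n12 n13 n14 n23 n24 n34 h0 h1 h2 => h2 (q3.trans (m 0 (by decide)) (m 1 (by decide)) (m 2 (by decide)) (m 3 (by decide)) (m 4 (by decide)) (Qkf hk (mem5 (m 0 (by decide)) (m 1 (by decide)) (m 2 (by decide)) (m 3 (by decide)) (m 4 (by decide)))) h0 h1 n24))) (
  .cons (PH_mem (by decide) hP (fun v m n01 n02 n03 n04 n12 n13 n14 n23 n24 n34 h0 h1 h2 => (q3.ferrers (m 0 (by decide)) (m 1 (by decide)) (m 2 (by decide)) (m 3 (by decide)) (m 4 (by decide)) (m 2 (by decide)) (Qkf hk (mem6 (m 0 (by decide)) (m 1 (by decide)) (m 2 (by decide)) (m 3 (by decide)) (m 4 (by decide)) (m 2 (by decide)))) h0 h1).elim (fun k => k.sq.2.2.2.ne rfl) h2)) (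
  .cons (PH_mem (by decide) hP (fun v m n01 n02 n03 n04 n05 n12 n13 n14 n15 n23 n24 n25 n34 n35 n45 h0 h1 h2 h3 => (q3.ferrers (m 0 (by decide)) (m 1 (by decide)) (m 2 (by decide)) (m 3 (by decide)) (m 4 (by decide)) (m 5 (by decide)) (Qkf hk (mem6 (m 0 (by decide)) (m 1 (by decide)) (m 2 (by decide)) (m 3 (by decide)) (m 4 (by decide)) (m 5 (by decide)))) h0 h1).elim h2 h3)) (
  .nil)))))))

/-- templates -/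
def mC : List Tm := [
  ⟨5, [], ad5, [.b false 0 0 1, .b false 0 0 2, .b false 0 0 3, .b false 0 0 4, .b false 0 1 2, .b false 0 1 3, .b false 0 1 4, .b false 0 2 3, .b false 0 2 4, .b false 0 3 4]⟩]

theorem mC_h {V : Type} {Y : MSy V} {P : V → Prop}
    (hk : ∀ a b c d e, P a → P b → P c → P d → P e → ¬ K5 Y.G a b c d e) {p : Nat → V} {k : Nat} (hP : ∀ j, j < k → P (p j)) : PHs Y.rel p k mC :=
  .cons (PH_mem (by decide) hP (fun v m n01 n02 n03 n04 n12 n13 n14 n23 n24 n34 h0 h1 h2 h3 h4 h5 h6 h7 h8 h9 => hk (v 0) (v 1) (v 2) (v 3) (v 4) (m 0 (by decide)) (m 1 (by decide)) (m 2 (by decide)) (m 3 (by decide)) (m 4 (by decide)) ⟨h0, h1, h2, h3, h4, h5, h6, h7, h8, h9⟩)) (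
  .nil)

/-- the axioms which are already proved for the majority -/
structure E4 {V : Type} (Y : MSy V) (P : V → Prop) : Prop where
  nb : ∀ {a b c d : V}, P a → P b → P c → P d → Y.T4 a b c d → Y.T4 a c b d → False
  some : ∀ {a b c d : V}, P a → P b → P c → P d → Y.G.Adj a c → Y.G.Adj b d → a ≠ b → a ≠ d → b ≠ c → c ≠ d →
    Y.X4 a c b d → Y.T4 a b c d ∨ Y.T4 a d b c
  tr : ∀ {u w x y z : V}, P u → P w → P x → P y → P z → Y.T4 u w x y → Y.T4 u w y z → x ≠ z → Y.T4 u w x z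
  f5 : ∀ {a b x y x2 : V}, P a → P b → P x → P y → P x2 → Y.T4 a x b y → Y.T4 a x2 b x → Y.T4 a x2 b y

/-- templates -/
def mE : List Tm := [
  ⟨4, [], ad4, [.q false 8 0 1 2 3, .b true 0 0 2]⟩,
  ⟨4, [], ad4, [.q false 8 0 1 2 3, .q false 4 0 1 2 3]⟩,
  ⟨4, [], ad4, [.q false 8 0 1 2 3, .q false 8 0 2 1 3]⟩,
  ⟨4, [], ad4, [.b false 0 0 2, .b false 0 1 3, .q false 4 0 2 1 3, .q true 8 0 1 2 3, .q true 8 0 3 1 2]⟩,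
  ⟨5, [], ad5, [.q false 8 0 1 2 3, .q false 8 0 1 3 4, .q true 8 0 1 2 4]⟩,
  ⟨5, [], ad5, [.q false 8 0 2 1 3, .q false 8 0 4 1 2, .q true 8 0 4 1 3]⟩]

theorem mE_h {V : Type} {Y : MSy V} {P : V → Prop} (e4 : E4 Y P)
    {p : Nat → V} {k : Nat} (hP : ∀ j, j < k → P (p j)) : PHs Y.rel p k mE :=
  .cons (PH_mem (by decide) hP (fun v m n01 n02 n03 n12 n13 n23 h0 h1 => h1 h0.sq.1)) (
  .cons (PH_mem (by decide) hP (fun v m n01 n02 n03 n12 n13 n23 h0 h1 => h0.nc h1)) (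
  .cons (PH_mem (by decide) hP (fun v m n01 n02 n03 n12 n13 n23 h0 h1 => e4.nb (m 0 (by decide)) (m 1 (by decide)) (m 2 (by decide)) (m 3 (by decide)) h0 h1)) (
  .cons (PH_mem (by decide) hP (fun v m n01 n02 n03 n12 n13 n23 h0 h1 h2 h3 h4 => (e4.some (m 0 (by decide)) (m 1 (by decide)) (m 2 (by decide)) (m 3 (by decide)) h0 h1 n01 n03 n12 n23 h2).elim h3 h4)) (
  .cons (PH_mem (by decide) hP (fun v m n01 n02 n03 n04 n12 n13 n14 n23 n24 n34 h0 h1 h2 => h2 (e4.tr (m 0 (by decide)) (m 1 (by decide)) (m 2 (by decide)) (m 3 (by decide)) (m 4 (by decide)) h0 h1 n24))) (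
  .cons (PH_mem (by decide) hP (fun v m n01 n02 n03 n04 n12 n13 n14 n23 n24 n34 h0 h1 h2 => h2 (e4.f5 (m 0 (by decide)) (m 1 (by decide)) (m 2 (by decide)) (m 3 (by decide)) (m 4 (by decide)) h0 h1))) (
  .nil))))))

end Pool.Agent.SOX
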